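import Pool.Agent.Helper38.TQ.Defs

/-!
# Basic facts
-/

set_option autoImplicit false

namespace Pool.Agent.Helper38.TQ

open MvPolynomial
open Pool.Agent.Helper16 (Place IsFunctionField)
open Pool.Agent.Helper36 (step iter iter_zero iter_succ iter_succ' iter_add iter_map
  aeval_smul_homogeneous exists_nullstellensatz)

variable {ν : ℕ}

section

variable {k L : Type} [Field k] [Field L] [Algebra k L]

theorem step_ne_zero [IsAlgClosed k] {d : ℕ} {F : Fin (ν + 1) → MvPolynomial (Fin (ν + 1)) k}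
    (hF : IsEndo d F) {x : Fin (ν + 1) → L} (hx : x ≠ 0) : step F x ≠ 0 := by
  intro h
  obtain ⟨M, q, -, hq⟩ := exists_nullstellensatz (L := k) F hF.hom (by
    intro w hw
    exact hF.nz w fun i => by rw [← hw i]; rfl)
  apply hx
  funext i
  have h1 := congrArg (aeval x) (hq i)
  rw [map_sum, map_pow, aeval_X] at h1
  have h2 : ∀ j, aeval x (F j) = 0 := fun j => congrFun h j
  simp only [map_mul, h2, mul_zero, Finset.sum_const_zero] at h1
  exact eq_zero_of_pow_eq_zero h1.symm

theorem iter_ne_zero [IsAlgClosed k] {d : ℕ} {F : Fin (ν + 1) → MvPolynomial (Fin (ν + 1)) k}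
    (hF : IsEndo d F) {x : Fin (ν + 1) → L} (hx : x ≠ 0) (n : ℕ) : iter F x n ≠ 0 := by
  induction n with
  | zero => exact hx
  | succ n ih => rw [iter_succ]; exact step_ne_zero hF ih

theorem step_smul {d : ℕ} {F : Fin (ν + 1) → MvPolynomial (Fin (ν + 1)) k} (hF : IsEndo d F) (c : L)
    (x : Fin (ν + 1) → L) : step F (c • x) = c ^ d • step F x := by
  funext i
  exact aeval_smul_homogeneous (hF.hom i) c x

theorem iter_smul {d : ℕ} {F : Fin (ν + 1) → MvPolynomial (Fin (ν + 1)) k} (hF : IsEndo d F) (c : L)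
    (x : Fin (ν + 1) → L) (n : ℕ) : iter F (c • x) n = c ^ d ^ n • iter F x n := by
  induction n with
  | zero => simp [iter_zero]
  | succ n ih => rw [iter_succ, ih, step_smul hF, iter_succ, ← pow_mul, ← pow_succ]

omit [Algebra k L] in
theorem PEq.refl (x : Fin (ν + 1) → L) : PEq x x := ⟨1, one_ne_zero, by simp⟩

omit [Algebra k L] in
theorem PEq.symm {x y : Fin (ν + 1) → L} (h : PEq x y) : PEq y x := by
  obtain ⟨c, hc, rfl⟩ := h
  exact ⟨c⁻¹, inv_ne_zero hc, by rw [smul_smul, inv_mul_cancel₀ hc, one_smul]⟩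

omit [Algebra k L] in
theorem PEq.trans {x y z : Fin (ν + 1) → L} (h : PEq x y) (h' : PEq y z) : PEq x z := by
  obtain ⟨c, hc, rfl⟩ := h
  obtain ⟨e, he, rfl⟩ := h'
  exact ⟨e * c, mul_ne_zero he hc, by rw [smul_smul]⟩

theorem PEq.iter {d : ℕ} {F : Fin (ν + 1) → MvPolynomial (Fin (ν + 1)) k} (hF : IsEndo d F)
    {x y : Fin (ν + 1) → L} (h : PEq x y) (n : ℕ) : PEq (iter F x n) (iter F y n) := by
  obtain ⟨c, hc, rfl⟩ := h
  exact ⟨c ^ d ^ n, pow_ne_zero _ hc, iter_smul hF c x n⟩

theorem eval_smul_hom {P : MvPolynomial (Fin (ν + 1)) L} {e : ℕ} (hP : P.IsHomogeneous e) (c : L)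
    (x : Fin (ν + 1) → L) : eval (c • x) P = c ^ e * eval x P := by
  have h := aeval_smul_homogeneous hP c x
  have h1 := congrArg (fun φ => φ P) (coe_aeval_eq_eval (c • x))
  have h2 := congrArg (fun φ => φ P) (coe_aeval_eq_eval x)
  exact h1.symm.trans (h.trans (congrArg (fun a => c ^ e * a) h2))

theorem aeval_smul_hom {P : MvPolynomial (Fin (ν + 1)) k} {e : ℕ} (hP : P.IsHomogeneous e) (c : L)
    (x : Fin (ν + 1) → L) : aeval (c • x) P = c ^ e * aeval x P :=
  aeval_smul_homogeneous hP c x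

end

section

variable {k K : Type} [Field k] [Field K] [Algebra k K]

theorem eval_map_k (P : MvPolynomial (Fin (ν + 1)) k) (x : Fin (ν + 1) → K) :
    eval x (map (algebraMap k K) P) = aeval x P := by
  rw [eval_map]; rfl

end

theorem free_map_succ {U : Ultrafilter ℕ} (hU : Free U) : Free (U.map Nat.succ) := by
  intro m
  rw [Ultrafilter.coe_map, Filter.eventually_map]
  filter_upwards [hU m] with n hn
  omega

theorem exists_pred {U : Ultrafilter ℕ} (hU : Free U) :
    ∃ U' : Ultrafilter ℕ, Free U' ∧ U'.map Nat.succ = U := by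
  refine ⟨U.map Nat.pred, ?_, ?_⟩
  · intro m
    rw [Ultrafilter.coe_map, Filter.eventually_map]
    filter_upwards [hU (m + 1)] with n hn
    exact Nat.le_pred_of_lt hn
  · rw [Ultrafilter.map_map]
    apply Ultrafilter.coe_injective
    rw [Ultrafilter.coe_map]
    have h : Nat.succ ∘ Nat.pred =ᶠ[(U : Filter ℕ)] id := by
      filter_upwards [hU 1] with n hn
      exact Nat.succ_pred_eq_of_pos hn
    rw [Filter.map_congr h, Filter.map_id]

end Pool.Agent.Helper38.TQ
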