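import Pool.Agent.Helper38.TQ.PtHeight
import Pool.Agent.Helper38.TQ.Basic
import Pool.Agent.Helper30.TP.Ultra
import Pool.Agent.Helper30.TP.Emb

/-!
# Points with different reductions; binary forms; irreducible forms
-/

set_option autoImplicit false

namespace Pool.Agent.Helper38.TQ

open MvPolynomial
open Pool.Agent.Helper16 (Place IsFunctionField)
open Pool.Agent.Helper36 (step iter iter_zero iter_succ iter_succ' iter_add iter_map)

variable {ν : ℕ}

theorem iter_distinct {k K : Type} [Field k] [IsAlgClosed k] [Field K] [Algebra k K]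
    (hK : IsFunctionField k K) {d : ℕ}
    {F : Fin (ν + 1) → MvPolynomial (Fin (ν + 1)) k} (hF : IsEndo d F) {x : Fin (ν + 1) → K}
    (hx : x ≠ 0) (hxc : ¬ IsConst k x) (n m : ℕ) (hnm : n ≠ m) :
    ¬ PEq (iter F x n) (iter F x m) := by
  intro h
  rcases lt_or_gt_of_ne hnm with h1 | h1
  · exact hxc (isConst_of_preper hK hF x hx ⟨n, m, h1, h⟩)
  · exact hxc (isConst_of_preper hK hF x hx ⟨m, n, h1, h.symm⟩)

theorem peq_of_minors {L : Type} [Field L] {x y : Fin (ν + 1) → L} (hx : x ≠ 0) (hy : y ≠ 0)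
    (h : ∀ p q, x p * y q - x q * y p = 0) : PEq x y := by
  obtain ⟨i0, hi0⟩ : ∃ i, x i ≠ 0 := by
    by_contra hc
    push Not at hc
    exact hx (funext hc)
  have h1 : ∀ j, y j = y i0 / x i0 * x j := by
    intro j
    have h2 := h i0 j
    field_simp
    linear_combination h2
  refine ⟨y i0 / x i0, ?_, funext h1⟩
  intro h0
  apply hy
  funext j
  rw [h1 j, h0, zero_mul]
  rfl

theorem nrm_red {k K : Type} [Field k] [Field K] [Algebra k K] {b : Place k K}
    {u : Fin (ν + 1) → K} {z : Fin (ν + 1) → k} (hz : z ≠ 0)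
    (h : ∀ i, b.val (u i - algebraMap k K (z i)) < 1) : nrm b u = 1 := by
  have h1 : ∀ i, b.val (u i) ≤ 1 := by
    intro i
    have h3 : u i = (u i - algebraMap k K (z i)) + algebraMap k K (z i) := by ring
    rw [h3]
    exact (b.val.map_add _ _).trans (max_le (h i).le (b.val_algebraMap_le _))
  obtain ⟨i0, hi0⟩ : ∃ i, z i ≠ 0 := by
    by_contra hc
    push Not at hc
    exact hz (funext hc)
  have h2 : b.val (u i0) = 1 := by
    refine le_antisymm (h1 i0) ?_
    by_contra hlt
    rw [not_le] at hlt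
    have h3 : algebraMap k K (z i0) = u i0 - (u i0 - algebraMap k K (z i0)) := by ring
    have h4 : b.val (algebraMap k K (z i0)) < 1 := by
      rw [h3]
      exact (b.val.map_sub _ _).trans_lt (max_lt hlt (h i0))
    rw [b.triv (z i0) hi0] at h4
    exact lt_irrefl _ h4
  refine le_antisymm (nrm_le h1) ?_
  rw [← h2]
  exact val_le_nrm b u i0

/-- If the reductions of two points are different then some minor has maximal absolute value. -/
theorem exists_minor {k K : Type} [Field k] [Field K] [Algebra k K] {b : Place k K}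
    {x y : Fin (ν + 1) → K} {z w : Fin (ν + 1) → k} (hz : Red b x z) (hw : Red b y w)
    (h : ¬ PEq z w) :
    ∃ p q, b.val (x p * y q - x q * y p) = nrm b x * nrm b y := by
  obtain ⟨hz0, c1, hc1, h1⟩ := hz
  obtain ⟨hw0, c2, hc2, h2⟩ := hw
  have n1 : nrm b (c1 • x) = 1 := nrm_red hz0 h1
  have n2 : nrm b (c2 • y) = 1 := nrm_red hw0 h2
  obtain ⟨p, q, hpq⟩ : ∃ p q, z p * w q - z q * w p ≠ 0 := by
    by_contra hcon
    push Not at hcon
    exact h (peq_of_minors hz0 hw0 hcon)
  refine ⟨p, q, ?_⟩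
  have h8 : ∀ i j, b.val ((c1 * x i - algebraMap k K (z i)) * (c2 * y j) +
      algebraMap k K (z i) * (c2 * y j - algebraMap k K (w j))) < 1 := by
    intro i j
    have hy1 : b.val (c2 * y j) ≤ 1 := by
      rw [← n2]; exact val_le_nrm b (c2 • y) j
    refine (b.val.map_add _ _).trans_lt (max_lt ?_ ?_)
    · rw [map_mul]
      exact mul_lt_one_of_lt_of_le (h1 i) hy1
    · rw [map_mul, mul_comm]
      exact mul_lt_one_of_lt_of_le (h2 j) (b.val_algebraMap_le _)
  have h9 : (c1 * c2) * (x p * y q - x q * y p) = algebraMap k K (z p * w q - z q * w p) +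
      (((c1 * x p - algebraMap k K (z p)) * (c2 * y q) +
            algebraMap k K (z p) * (c2 * y q - algebraMap k K (w q)))
          - ((c1 * x q - algebraMap k K (z q)) * (c2 * y p) +
            algebraMap k K (z q) * (c2 * y p - algebraMap k K (w p)))) := by
    simp only [map_sub, map_mul]
    ring
  have h10 : b.val ((c1 * c2) * (x p * y q - x q * y p)) = 1 := by
    rw [h9]
    have h11 := b.triv _ hpq
    rw [Valuation.map_add_eq_of_lt_left, h11]
    rw [h11]
    exact (b.val.map_sub _ _).trans_lt (max_lt (h8 p q) (h8 q p))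
  rw [nrm_smul] at n1 n2
  have hb1 : b.val c1 ≠ 0 := by simpa using hc1
  have hb2 : b.val c2 ≠ 0 := by simpa using hc2
  have h12 : b.val c1 * b.val c2 * b.val (x p * y q - x q * y p) =
      b.val c1 * b.val c2 * (nrm b x * nrm b y) := by
    rw [← map_mul, ← map_mul, h10]
    calc (1 : WithZero (Multiplicative ℤ)) = (b.val c1 * nrm b x) * (b.val c2 * nrm b y) := by
          rw [n1, n2, one_mul]
      _ = _ := by rw [map_mul, mul_mul_mul_comm]
  exact mul_left_cancel₀ (mul_ne_zero hb1 hb2) h12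

theorem val_lin_le {k K : Type} [Field k] [Field K] [Algebra k K] (b : Place k K)
    (a : Fin (ν + 1) → k) (x : Fin (ν + 1) → K) : b.val (lin a x) ≤ nrm b x := by
  unfold lin
  refine b.val.map_sum_le fun i _ => ?_
  rw [map_mul]
  calc b.val (algebraMap k K (a i)) * b.val (x i) ≤ 1 * nrm b x :=
        mul_le_mul' (b.val_algebraMap_le _) (val_le_nrm b x i)
    _ = _ := one_mul _

/-- A binary form vanishing on an affine chart is zero. -/
theorem form_two_eq_zero {K : Type} [Field K] [Infinite K] {P : MvPolynomial (Fin 2) K} {e : ℕ}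
    (hP : P.IsHomogeneous e) (h : ∀ t : K, eval ![1, t] P = 0) : P = 0 := by
  have h1 : X 0 * P = 0 := by
    apply MvPolynomial.funext
    intro z
    rw [map_mul, eval_X, map_zero]
    by_cases hz : z 0 = 0
    · rw [hz, zero_mul]
    · have h2 := h (z 1 / z 0)
      have h3 : (![1, z 1 / z 0] : Fin 2 → K) = (z 0)⁻¹ • z := by
        funext i
        fin_cases i
        · simp [hz]
        · simp [div_eq_inv_mul]
      rw [h3, eval_smul_hom (ν := 1) hP] at h2
      rcases mul_eq_zero.1 h2 with h4 | h4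
      · exact absurd h4 (pow_ne_zero _ (inv_ne_zero hz))
      · rw [h4, mul_zero]
  rcases mul_eq_zero.1 h1 with h2 | h2
  · exact absurd h2 (X_ne_zero _)
  · exact h2

/-- If a binary form vanishes at `U`-many points then `U`-many points are equal. -/
theorem exists_point_of_binary {K : Type} [Field K] [Infinite K] {U : Ultrafilter ℕ}
    {u v : ℕ → K} {P : MvPolynomial (Fin 2) K} {e : ℕ} (hP : P.IsHomogeneous e) (hP0 : P ≠ 0)
    (h : ∀ᶠ n in (U : Filter ℕ), eval ![u n, v n] P = 0) :
    ∃ ρ : Fin 2 → K, ρ ≠ 0 ∧ ∀ᶠ n in (U : Filter ℕ), ∃ c : K, u n = c * ρ 0 ∧ v n = c * ρ 1 := by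
  classical
  by_cases hu : ∀ᶠ n in (U : Filter ℕ), u n = 0
  · refine ⟨![0, 1], ?_, ?_⟩
    · intro h0
      have := congrFun h0 1
      simp at this
    · filter_upwards [hu] with n hn
      exact ⟨v n, by simp [hn], by simp⟩
  rw [← Ultrafilter.eventually_not] at hu
  obtain ⟨p, hp⟩ : ∃ p : Polynomial K, ∀ t, Polynomial.eval t p = eval ![1, t] P := by
    refine ⟨aeval (![1, Polynomial.X] : Fin 2 → Polynomial K) P, fun t => ?_⟩
    have h1 : (Polynomial.evalRingHom t).comp
        (aeval (![1, Polynomial.X] : Fin 2 → Polynomial K)).toRingHom = eval ![1, t] := by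
      apply MvPolynomial.ringHom_ext
      · intro c
        simp
      · intro i
        fin_cases i <;> simp
    exact congrArg (fun φ => φ P) h1
  have hp0 : p ≠ 0 := by
    intro h0
    apply hP0
    apply form_two_eq_zero hP
    intro t
    rw [← hp, h0, Polynomial.eval_zero]
  have hroot : ∀ᶠ n in (U : Filter ℕ), v n / u n ∈ p.roots.toFinset := by
    filter_upwards [hu, h] with n h1 h2
    rw [Multiset.mem_toFinset, Polynomial.mem_roots hp0, Polynomial.IsRoot.def, hp]
    have h3 : (![1, v n / u n] : Fin 2 → K) = (u n)⁻¹ • ![u n, v n] := by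
      funext i
      fin_cases i
      · simp [h1]
      · simp [div_eq_inv_mul]
    rw [h3, eval_smul_hom (ν := 1) hP, h2, mul_zero]
  have hex : ∃ r, ∀ᶠ n in (U : Filter ℕ), v n / u n = r := by
    by_contra hcon
    push Not at hcon
    have h4 : ∀ r ∈ p.roots.toFinset, ∀ᶠ n in (U : Filter ℕ), v n / u n ≠ r := by
      intro r _
      exact hcon r
    have h5 := (Filter.eventually_all_finset p.roots.toFinset).2 h4
    obtain ⟨n, hn1, hn2⟩ := (hroot.and h5).exists
    exact hn2 _ hn1 rfl
  obtain ⟨r, hr⟩ := hex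
  refine ⟨![1, r], ?_, ?_⟩
  · intro h0
    have := congrFun h0 0
    simp at this
  · filter_upwards [hr, hu] with n h1 h2
    refine ⟨u n, by simp, ?_⟩
    have : v n = u n * r := by
      rw [← h1]; field_simp
    simpa using this

/-- An irreducible form vanishing at `U`-many points. -/
theorem exists_irreducible_form {K : Type} [Field K] {U : Ultrafilter ℕ} {y : ℕ → Fin 3 → K}
    {P : MvPolynomial (Fin 3) K} {e : ℕ} (hP : P.IsHomogeneous e) (hP0 : P ≠ 0)
    (hv : ∀ᶠ n in (U : Filter ℕ), eval (y n) P = 0) :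
    ∃ (D : ℕ) (g : MvPolynomial (Fin 3) K), g.IsHomogeneous D ∧ Irreducible g ∧
      ∀ᶠ n in (U : Filter ℕ), eval (y n) g = 0 := by
  classical
  have hex : ∃ D : ℕ, ∃ g : MvPolynomial (Fin 3) K, g.IsHomogeneous D ∧ g ≠ 0 ∧
      ∀ᶠ n in (U : Filter ℕ), eval (y n) g = 0 := ⟨e, P, hP, hP0, hv⟩
  obtain ⟨D, hD, hmin⟩ : ∃ D : ℕ, (∃ g : MvPolynomial (Fin 3) K, g.IsHomogeneous D ∧ g ≠ 0 ∧
      ∀ᶠ n in (U : Filter ℕ), eval (y n) g = 0) ∧ ∀ D' < D,
      ¬ ∃ g : MvPolynomial (Fin 3) K, g.IsHomogeneous D' ∧ g ≠ 0 ∧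
      ∀ᶠ n in (U : Filter ℕ), eval (y n) g = 0 :=
    ⟨Nat.find hex, Nat.find_spec hex, fun D' h => Nat.find_min hex h⟩
  obtain ⟨g, hg, hg0, hgv⟩ := hD
  have hconst : ∀ (a : MvPolynomial (Fin 3) K), a.IsHomogeneous 0 → a = C (coeff 0 a) := by
    intro a ha
    exact (totalDegree_eq_zero_iff_eq_C).1 (Nat.le_zero.1 ha.totalDegree_le)
  have hunit : ∀ (a : MvPolynomial (Fin 3) K), a.IsHomogeneous 0 → a ≠ 0 → IsUnit a := by
    intro a ha h0
    have h1 := hconst a ha
    rw [h1]
    refine IsUnit.map C (isUnit_iff_ne_zero.2 fun h => h0 ?_)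
    rw [h1, h, map_zero]
  refine ⟨D, g, hg, ?_, hgv⟩
  refine ⟨?_, fun a b hab => ?_⟩
  · intro h
    obtain ⟨n, hn⟩ := hgv.exists
    have := h.map (eval (y n))
    rw [hn] at this
    exact not_isUnit_zero this
  · obtain ⟨i, j, hi, hj, hij⟩ := Pool.Agent.Helper30.TP.ultra_form_of_mul hg hg0 hab
    have ha0 : a ≠ 0 := by rintro rfl; exact hg0 (by rw [hab, zero_mul])
    have hb0 : b ≠ 0 := by rintro rfl; exact hg0 (by rw [hab, mul_zero])
    rw [hab] at hgv
    rcases Pool.Agent.Helper30.TP.ultra_or hgv with h | h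
    · right
      have h1 : ¬ i < D := fun h2 => hmin i h2 ⟨a, hi, ha0, h⟩
      have h3 : j = 0 := by omega
      subst h3
      exact hunit b hj hb0
    · left
      have h1 : ¬ j < D := fun h2 => hmin j h2 ⟨b, hj, hb0, h⟩
      have h3 : i = 0 := by omega
      subst h3
      exact hunit a hi ha0

end Pool.Agent.Helper38.TQ
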