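import Pool.Agent.Helper38.TQ.Dim
import Pool.Agent.Helper36.Krull
import Pool.Agent.Helper36.Descent

/-!
# Closed sets of dimension at most one
-/

set_option autoImplicit false

namespace Pool.Agent.Helper38.TQ

open MvPolynomial

variable {ν : ℕ}

/-- The sequences of points over subfields of `ℂ` in the closed set lie on curves. -/
def CurveSet (S : Set (MvPolynomial (Fin (ν + 1)) ℂ)) : Prop :=
  ∀ (K : Type) [Field K] [Algebra K ℂ] (y : ℕ → Fin (ν + 1) → K) (U : Ultrafilter ℕ),
    (∀ᶠ n in (U : Filter ℕ), ∀ g ∈ S, eval (fun i => algebraMap K ℂ (y n i)) g = 0) →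
      OnCurve U y

theorem curveSet_of_forms {S : Set (MvPolynomial (Fin (ν + 1)) ℂ)}
    (hS : ∀ g ∈ S, ∃ e, g.IsHomogeneous e)
    {l₀ l₁ : MvPolynomial (Fin (ν + 1)) ℂ} (h0 : l₀.IsHomogeneous 1) (h1 : l₁.IsHomogeneous 1)
    (hno : ∀ z : Fin (ν + 1) → ℂ, (∀ g ∈ S, eval z g = 0) → eval z l₀ = 0 → eval z l₁ = 0 →
      z = 0) : CurveSet S :=
  fun _ _ _ _ _ hU => onCurve hS h0 h1 hno hU

/-- Homogeneous relations between three linear forms on a cone of dimension at most two. -/
theorem exists_relation_linear {S : Set (MvPolynomial (Fin (ν + 1)) ℂ)}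
    (hS : ∀ g ∈ S, ∃ e, g.IsHomogeneous e)
    (hdim : ringKrullDim (MvPolynomial (Fin (ν + 1)) ℂ ⧸ Ideal.span S) ≤ 2)
    (c : Fin 3 → Fin (ν + 1) → ℂ) :
    ∃ (e : ℕ) (Q : MvPolynomial (Fin 3) ℂ), Q.IsHomogeneous e ∧ Q ≠ 0 ∧
      ∀ x : Fin (ν + 1) → ℂ, (∀ g ∈ S, eval x g = 0) →
        eval (fun j => ∑ i, c j i * x i) Q = 0 := by
  classical
  obtain ⟨Q, hQ0, hQ⟩ := Pool.Agent.Helper36.exists_relation_radical (Ideal.span S) hdim
    (fun j => ∑ i, C (c j i) * X i)
  have hvan : ∀ x : Fin (ν + 1) → ℂ, (∀ g ∈ S, eval x g = 0) →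
      eval (fun j => ∑ i, c j i * x i) Q = 0 := by
    intro x hx
    obtain ⟨n, hn⟩ := hQ
    have hspan : ∀ g ∈ Ideal.span S, eval x g = 0 := by
      intro g hg
      induction hg using Submodule.span_induction with
      | mem g hg => exact hx g hg
      | zero => rw [map_zero]
      | add a b _ _ ha hb => rw [map_add, ha, hb, add_zero]
      | smul a b _ hb => rw [smul_eq_mul, map_mul, hb, mul_zero]
    have h1 := hspan _ hn
    rw [map_pow] at h1
    have h2 := eq_zero_of_pow_eq_zero h1
    have h3 : ∀ Q : MvPolynomial (Fin 3) ℂ, eval x (aeval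
        (fun j => (∑ i, C (c j i) * X i : MvPolynomial (Fin (ν + 1)) ℂ)) Q) =
        eval (fun j => ∑ i, c j i * x i) Q := by
      intro Q
      induction Q using MvPolynomial.induction_on with
      | C a => simp
      | add p q hp hq => simp only [map_add, hp, hq]
      | mul_X p i hp =>
        rw [map_mul, map_mul, map_mul, hp, aeval_X, eval_X]
        congr 1
        simp
    rwa [h3] at h2
  obtain ⟨e, he⟩ : ∃ e, homogeneousComponent e Q ≠ 0 := by
    by_contra hcon
    push Not at hcon
    apply hQ0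
    rw [← sum_homogeneousComponent Q]
    exact Finset.sum_eq_zero fun i _ => hcon i
  refine ⟨e, _, homogeneousComponent_isHomogeneous e Q, he, fun x hx => ?_⟩
  set v : Fin 3 → ℂ := fun j => ∑ i, c j i * x i with hv
  set R : Polynomial ℂ := ∑ i ∈ Finset.range (Q.totalDegree + 1),
    Polynomial.C (eval v (homogeneousComponent i Q)) * Polynomial.X ^ i with hR
  have hR0 : R = 0 := by
    apply Polynomial.zero_of_eval_zero
    intro l
    have h1 : eval (fun i => l * v i) Q = 0 := by
      have h2 := hvan (fun i => l * x i) (by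
        intro g hg
        obtain ⟨n, hn⟩ := hS g hg
        have h3 := eval_smul_hom hn l x
        rw [hx g hg, mul_zero] at h3
        exact h3)
      rw [← h2]
      congr 2
      funext j
      rw [hv]
      simp only [Finset.mul_sum]
      refine Finset.sum_congr rfl fun i _ => ?_
      ring
    rw [← sum_homogeneousComponent Q, map_sum] at h1
    rw [hR, Polynomial.eval_finsetSum, ← h1]
    refine Finset.sum_congr rfl fun i _ => ?_
    have h4 : eval (fun i => l * v i) (homogeneousComponent i Q) =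
        l ^ i * eval v (homogeneousComponent i Q) :=
      eval_smul_hom (ν := 2) (homogeneousComponent_isHomogeneous i Q) l v
    rw [h4, Polynomial.eval_mul, Polynomial.eval_C, Polynomial.eval_pow, Polynomial.eval_X,
      mul_comm]
  have hcoef := congrArg (fun p => p.coeff e) hR0
  simp only [hR, Polynomial.finsetSum_coeff, Polynomial.coeff_C_mul_X_pow,
    Polynomial.coeff_zero] at hcoef
  rw [Finset.sum_ite_eq] at hcoef
  split_ifs at hcoef with h
  · exact hcoef
  · rw [homogeneousComponent_eq_zero, map_zero]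
    rw [Finset.mem_range] at h
    omega

/-- Closed sets of dimension at most one (Krull dimension of the cone at most two). -/
theorem curveSet_of_krull {S : Set (MvPolynomial (Fin (ν + 1)) ℂ)}
    (hS : ∀ g ∈ S, ∃ e, g.IsHomogeneous e)
    (hdim : ringKrullDim (MvPolynomial (Fin (ν + 1)) ℂ ⧸ Ideal.span S) ≤ 2) : CurveSet S := by
  intro K _ _ y U hU m
  obtain ⟨e, Q, hQ, hQ0, hQv⟩ := exists_relation_linear hS hdim
    (fun j i => algebraMap K ℂ (m j i))
  obtain ⟨ρ, hρ⟩ := Pool.Agent.Helper36.exists_mapLin_ne_zero (K := K) hQ0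
  refine ⟨_, e, Pool.Agent.Helper36.mapLin_isHomogeneous ρ hQ, hρ, ?_⟩
  filter_upwards [hU] with n hn
  rw [Pool.Agent.Helper36.eval_mapLin]
  have h1 := hQv _ hn
  have h2 : (fun j => algebraMap K ℂ (∑ i, m j i * y n i)) =
      fun j => ∑ i, algebraMap K ℂ (m j i) * algebraMap K ℂ (y n i) := by
    funext j
    rw [map_sum]
    exact Finset.sum_congr rfl fun i _ => map_mul _ _ _
  rw [h2, h1, map_zero]

end Pool.Agent.Helper38.TQ
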