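import Pool.Agent.Helper16.FF10
import Pool.Agent.Helper36.Growth

/-!
# Orbits of points of projective space over a function field: definitions

`k` is an algebraically closed field, `K` a function field of one variable over `k`,
`F : Fin (ν + 1) → k[X_0, ..., X_ν]` an endomorphism of projective space. Points are nonzero
vectors.
-/

set_option autoImplicit false

namespace Pool.Agent.Helper38.TQ

open MvPolynomial
open Pool.Agent.Helper16 (Place IsFunctionField)
open Pool.Agent.Helper36 (step iter)

variable {ν : ℕ}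

/-- `F` defines an endomorphism of degree `d ≥ 2` of projective space over `k` (meant for
algebraically closed `k`). -/
structure IsEndo {k : Type} [Field k] (d : ℕ) (F : Fin (ν + 1) → MvPolynomial (Fin (ν + 1)) k) :
    Prop where
  two_le : 2 ≤ d
  hom : ∀ i, (F i).IsHomogeneous d
  nz : ∀ x : Fin (ν + 1) → k, (∀ i, eval x (F i) = 0) → x = 0

/-- Proportional vectors. -/
def PEq {L : Type} [Field L] (x y : Fin (ν + 1) → L) : Prop := ∃ c : L, c ≠ 0 ∧ y = c • x

/-- The vector is proportional to a vector with entries in `k`. -/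
def IsConst (k : Type) {L : Type} [Field k] [Field L] [Algebra k L] (x : Fin (ν + 1) → L) :
    Prop :=
  ∃ (z : Fin (ν + 1) → k) (c : L), c ≠ 0 ∧ x = fun i => c * algebraMap k L (z i)

/-- Preperiodic points. -/
def Preper {k L : Type} [Field k] [Field L] [Algebra k L]
    (F : Fin (ν + 1) → MvPolynomial (Fin (ν + 1)) k) (x : Fin (ν + 1) → L) : Prop :=
  ∃ n m : ℕ, n < m ∧ PEq (iter F x n) (iter F x m)

section

variable {k K : Type} [Field k] [Field K] [Algebra k K]

/-- The maximum norm of a vector at a place. -/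
noncomputable def nrm (b : Place k K) (x : Fin (ν + 1) → K) : WithZero (Multiplicative ℤ) :=
  Finset.univ.sup fun i => b.val (x i)

/-- The point `x` specialises at `b` to the point `z`. -/
def Red (b : Place k K) (x : Fin (ν + 1) → K) (z : Fin (ν + 1) → k) : Prop :=
  z ≠ 0 ∧ ∃ c : K, c ≠ 0 ∧ ∀ i, b.val (c * x i - algebraMap k K (z i)) < 1

/-- The height of a point. -/
noncomputable def ht (k : Type) {K : Type} [Field k] [Field K] [Algebra k K]
    (x : Fin (ν + 1) → K) : ℤ :=
  ∑ᶠ b : Place k K, WithZero.log (nrm b x)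

/-- The value of a linear form with coefficients in `k`. -/
def lin (a : Fin (ν + 1) → k) (x : Fin (ν + 1) → K) : K := ∑ i, algebraMap k K (a i) * x i

/-- A free ultrafilter on the natural numbers. -/
def Free (U : Ultrafilter ℕ) : Prop := ∀ m : ℕ, ∀ᶠ n in (U : Filter ℕ), m ≤ n

/-- The points `x n`, for `U`-many `n`, lie on a curve over `K`: the values of any three linear
forms satisfy an algebraic relation. -/
def OnCurve (U : Ultrafilter ℕ) (x : ℕ → Fin (ν + 1) → K) : Prop :=
  ∀ m : Fin 3 → Fin (ν + 1) → K, ∃ (P : MvPolynomial (Fin 3) K) (e : ℕ), P.IsHomogeneous e ∧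
    P ≠ 0 ∧ ∀ᶠ n in (U : Filter ℕ), eval (fun j => ∑ i, m j i * x n i) P = 0

end

/-- The Jacobian matrix. -/
noncomputable def jac {k : Type} [Field k] (F : Fin (ν + 1) → MvPolynomial (Fin (ν + 1)) k)
    (z : Fin (ν + 1) → k) : Matrix (Fin (ν + 1)) (Fin (ν + 1)) k :=
  Matrix.of fun i j => eval z (pderiv j (F i))

/-- The Jacobian matrix of the `N`-th iterate. -/
noncomputable def mult {k : Type} [Field k] (F : Fin (ν + 1) → MvPolynomial (Fin (ν + 1)) k)
    (z : Fin (ν + 1) → k) : ℕ → Matrix (Fin (ν + 1)) (Fin (ν + 1)) k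
  | 0 => 1
  | N + 1 => jac F (iter F z N) * mult F z N

end Pool.Agent.Helper38.TQ
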