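import Pool.Agent.Helper38.TQ.Basic
import Pool.Agent.Helper30.TP.Emb

/-!
# Function fields generated by complex points
-/

set_option autoImplicit false

namespace Pool.Agent.Helper38.TQ

open MvPolynomial
open Pool.Agent.Helper16 (Place IsFunctionField)
open Pool.Agent.Helper30.TP (emb_mem_range emb_isAlgebraic emb_trdeg_le emb_hom emb_hom_hom
  emb_hom_ne_zero emb_hom_aeval)

variable {ν : ℕ}

theorem emb_alg_map {R S L : Type} [CommRing R] [CommRing S] [Field L] [Algebra R L] [Algebra S L]
    (f : R →+* S) (hf : Function.Injective f) (hfc : ∀ r, algebraMap S L (f r) = algebraMap R L r)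
    {x : L} (h : IsAlgebraic R x) : IsAlgebraic S x := by
  obtain ⟨p, hp0, hp⟩ := h
  refine ⟨p.map f, (Polynomial.map_ne_zero_iff hf).2 hp0, ?_⟩
  rw [Polynomial.aeval_def, Polynomial.eval₂_map]
  have h1 : (algebraMap S L).comp f = algebraMap R L := RingHom.ext hfc
  rw [h1, ← Polynomial.aeval_def, hp]

theorem emb_const_of_range {k : Type} [Field k] [Algebra k ℂ] {v : Fin (ν + 1) → ℂ}
    (h : ∀ j, ∃ c : k, algebraMap k ℂ c = v j) : IsConst k v := by
  choose z hz using h
  refine ⟨z, 1, one_ne_zero, ?_⟩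
  funext i
  rw [hz, one_mul]

theorem emb_range_of_const {k : Type} [Field k] [Algebra k ℂ] {v : Fin (ν + 1) → ℂ}
    {i₀ : Fin (ν + 1)} (hv : v i₀ = 1) (h : IsConst k v) (j : Fin (ν + 1)) :
    ∃ c : k, algebraMap k ℂ c = v j := by
  obtain ⟨z, c, hc, hx⟩ := h
  have h1 : c * algebraMap k ℂ (z i₀) = 1 := by rw [← hv, hx]
  have h2 : c = (algebraMap k ℂ (z i₀))⁻¹ := eq_inv_of_mul_eq_one_left h1
  refine ⟨(z i₀)⁻¹ * z j, ?_⟩
  rw [map_mul, map_inv₀, ← h2, hx]

open IntermediateField.algebraAdjoinAdjoin in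
theorem emb_transc_adjoin {k : Type} [Field k] [Algebra k ℂ] {T : Set ℂ}
    (hT : AlgebraicIndependent k ((↑) : T → ℂ)) {t : ℂ} (ht : t ∈ T) :
    Transcendental (IntermediateField.adjoin k (T \ {t})) t := by
  have h1 : Transcendental (Algebra.adjoin k (((↑) : T → ℂ) '' {y | y ≠ ⟨t, ht⟩})) t := by
    have := hT.transcendental_adjoin (s := {y | y ≠ ⟨t, ht⟩}) (i := ⟨t, ht⟩) (fun h => h rfl)
    exact this
  have h2 : ((↑) : T → ℂ) '' {y | y ≠ ⟨t, ht⟩} = T \ {t} := by
    ext y
    constructor
    · rintro ⟨z, hz, rfl⟩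
      refine ⟨z.2, fun h => hz (Subtype.ext h)⟩
    · rintro ⟨h3, h4⟩
      exact ⟨⟨y, h3⟩, fun h => h4 (congrArg Subtype.val h), rfl⟩
  rw [h2] at h1
  intro h
  apply h1
  exact (IsFractionRing.isAlgebraic_iff (Algebra.adjoin k (T \ {t}))
    (IntermediateField.adjoin k (T \ {t})) ℂ).2 h

/-- A maximal algebraically independent family of coordinates. -/
theorem emb_basis {k : Type} [Field k] [Algebra k ℂ] (s : Set ℂ) :
    ∃ T : Set ℂ, T ⊆ s ∧ AlgebraicIndependent k ((↑) : T → ℂ) ∧
      ∀ x ∈ s, IsAlgebraic (Algebra.adjoin k T) x := by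
  obtain ⟨T, -, hT⟩ := exists_maximal_algebraicIndependent (R := k) (A := ℂ) ∅ s
    (Set.empty_subset _)
    ((algebraicIndependent_empty_iff ..).mpr <| FaithfulSMul.algebraMap_injective k ℂ)
  refine ⟨T, hT.1.2, hT.1.1, ?_⟩
  intro x hx
  by_contra hno
  have h1 : AlgebraicIndepOn k id (insert x T) := by
    apply hT.1.1.insert
    rw [Set.image_id]
    exact hno
  have h2 : insert x T ⊆ T := hT.2 ⟨h1, Set.insert_subset hx hT.1.2⟩ (Set.subset_insert _ _)
  apply hno
  exact isAlgebraic_algebraMap (⟨x, Algebra.subset_adjoin (h2 (Set.mem_insert _ _))⟩ :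
    Algebra.adjoin k T)

/-- Over a suitable algebraically closed extension of `k` the coordinates of the point generate a
function field of one variable. -/
theorem exists_function_field {k : Type} [Field k] [IsAlgClosed k] [Algebra k ℂ]
    (v : Fin (ν + 1) → ℂ) (i₀ : Fin (ν + 1)) (hv : v i₀ = 1) (hvc : ¬ IsConst k v) :
    ∃ (k' : Type) (_ : Field k') (_ : IsAlgClosed k') (_ : Algebra k k') (_ : Algebra k' ℂ),
      IsScalarTower k k' ℂ ∧ ¬ IsConst k' v ∧
        IsFunctionField k' (IntermediateField.adjoin k' (Set.range v)) := by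
  obtain ⟨T, hTs, hTi, hTa⟩ := emb_basis (k := k) (Set.range v)
  have hne : T.Nonempty := by
    by_contra hempty
    rw [Set.not_nonempty_iff_eq_empty] at hempty
    apply hvc
    apply emb_const_of_range
    intro j
    apply emb_mem_range
    have h1 := hTa (v j) ⟨j, rfl⟩
    rw [hempty, Algebra.adjoin_empty] at h1
    exact h1.restrictScalars k
  obtain ⟨t, ht⟩ := hne
  obtain ⟨j₁, hj₁⟩ := hTs ht
  let K0 := IntermediateField.adjoin k (T \ {t})
  let K' := algebraicClosure K0 ℂ
  have : IsAlgClosed K' := IsAlgClosure.isAlgClosed K0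
  have htow : IsScalarTower k K' ℂ := IsScalarTower.of_algebraMap_eq (fun _ => rfl)
  have htr : Transcendental K' t := by
    intro h
    exact emb_transc_adjoin hTi ht (h.restrictScalars K0)
  refine ⟨K', inferInstance, inferInstance, inferInstance, inferInstance, htow, ?_, ?_, ?_⟩
  · intro h
    obtain ⟨c, hc⟩ := emb_range_of_const hv h j₁
    apply htr
    rw [← hj₁, ← hc]
    exact isAlgebraic_algebraMap c
  · exact IntermediateField.essFiniteType_iff.2
      (IntermediateField.fg_adjoin_of_finite (Set.finite_range v))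
  · apply le_antisymm
    · let A1 := IntermediateField.adjoin K' ({t} : Set ℂ)
      let A2 := algebraicClosure A1 ℂ
      have htow2 : IsScalarTower K' A1 A2 := IsScalarTower.of_algebraMap_eq (fun _ => rfl)
      have htr2 : Algebra.trdeg K' A2 ≤ 1 := by
        rw [← trdeg_add_eq K' A1 (A := A2), trdeg_eq_zero (R := A1) (A := A2), add_zero]
        have h1 := emb_trdeg_le (k := K') ({t} : Set ℂ)
        rwa [Cardinal.mk_singleton] at h1
      have hsub : ∀ x ∈ Algebra.adjoin k T, x ∈ A1 := by
        intro x hx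
        induction hx using Algebra.adjoin_induction with
        | mem x hx =>
          by_cases hxt : x = t
          · rw [hxt]
            exact IntermediateField.subset_adjoin _ _ rfl
          · have h2 : x ∈ K0 := IntermediateField.subset_adjoin _ _ ⟨hx, hxt⟩
            have h3 : x ∈ K' := mem_algebraicClosure_iff.2
              (isAlgebraic_algebraMap (⟨x, h2⟩ : K0))
            exact A1.algebraMap_mem ⟨x, h3⟩
        | algebraMap r => exact A1.algebraMap_mem (algebraMap k K' r)
        | add x y _ _ hx hy => exact add_mem hx hy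
        | mul x y _ _ hx hy => exact mul_mem hx hy
      have hle : IntermediateField.adjoin K' (Set.range v) ≤
          IntermediateField.restrictScalars K' A2 := by
        rw [IntermediateField.adjoin_le_iff]
        rintro _ ⟨j, rfl⟩
        have h2 : v j ∈ A2 := by
          rw [mem_algebraicClosure_iff]
          let f : Algebra.adjoin k T →+* A1 :=
            { toFun := fun r => ⟨r, hsub r r.2⟩
              map_one' := rfl
              map_mul' := fun _ _ => rfl
              map_zero' := rfl
              map_add' := fun _ _ => rfl }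
          exact emb_alg_map f (fun a b hab => Subtype.ext (congrArg (Subtype.val : A1 → ℂ) hab))
            (fun _ => rfl) (hTa (v j) ⟨j, rfl⟩)
        exact h2
      exact (trdeg_le_of_injective (IntermediateField.inclusion hle)
        (IntermediateField.inclusion_injective hle)).trans htr2
    · rw [Cardinal.one_le_iff_ne_zero, trdeg_ne_zero_iff]
      refine ⟨⟨t, IntermediateField.subset_adjoin _ _ ⟨j₁, hj₁⟩⟩, fun h => htr ?_⟩
      exact h.algHom (IntermediateField.adjoin K' (Set.range v)).val

/-- The point is not defined over the algebraic closure of `k(t)` if three of its coordinates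
satisfy no homogeneous relation over `k`. -/
theorem exists_field_of_root {k : Type} [Field k] [IsAlgClosed k] [Algebra k ℂ]
    (a : Fin (ν + 1) → ℂ) (i j l : Fin (ν + 1))
    (hind : ∀ (P : MvPolynomial (Fin 3) k) (e : ℕ), P.IsHomogeneous e →
      aeval ![a i, a j, a l] P = 0 → P = 0) (t : ℂ) :
    ∃ (k' : Type) (_ : Field k') (_ : IsAlgClosed k') (_ : Algebra k k') (_ : Algebra k' ℂ),
      IsScalarTower k k' ℂ ∧ t ∈ Set.range (algebraMap k' ℂ) ∧ ¬ IsConst k' a := by
  have hx2 : a l ≠ 0 := by
    intro h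
    exact absurd (hind (X 2) 1 (isHomogeneous_X _ _) (by rw [aeval_X]; exact h)) (X_ne_zero _)
  let K0 := IntermediateField.adjoin k ({t} : Set ℂ)
  let K' := algebraicClosure K0 ℂ
  let t0 : K0 := ⟨t, IntermediateField.subset_adjoin _ _ rfl⟩
  let t' : K' := algebraMap K0 K' t0
  have : IsAlgClosed K' := IsAlgClosure.isAlgClosed K0
  have htow : IsScalarTower k K' ℂ := IsScalarTower.of_algebraMap_eq (fun _ => rfl)
  have htow2 : IsScalarTower k K0 K' := IsScalarTower.of_algebraMap_eq (fun _ => rfl)
  refine ⟨K', inferInstance, inferInstance, inferInstance, inferInstance, htow, ⟨t', rfl⟩, ?_⟩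
  rintro ⟨z, c, hc, hx⟩
  have htr : Algebra.trdeg k K' ≤ 1 := by
    rw [← trdeg_add_eq k K0 (A := K'), trdeg_eq_zero (R := K0) (A := K'), add_zero]
    have h1 := emb_trdeg_le (k := k) ({t} : Set ℂ)
    rwa [Cardinal.mk_singleton] at h1
  have hx' : ∀ i, a i = c * algebraMap K' ℂ (z i) := fun i => congrFun hx i
  have hz2 : z l ≠ 0 := by
    intro h
    apply hx2
    rw [hx', h, map_zero, mul_zero]
  have hno2 : ¬ AlgebraicIndependent k (![z i / z l, z j / z l] : Fin 2 → K') := by
    intro h
    have h1 := h.cardinalMk_le_trdeg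
    have h2 := h1.trans htr
    rw [Cardinal.mk_fin] at h2
    norm_num at h2
  rw [algebraicIndependent_iff] at hno2
  obtain ⟨q, hq'⟩ := not_forall.1 hno2
  obtain ⟨hq, hq0⟩ := Classical.not_imp.1 hq'
  apply emb_hom_ne_zero hq0
  apply hind _ _ (emb_hom_hom q)
  have h1 := emb_hom_aeval q (a l) (algebraMap K' ℂ (z i / z l)) (algebraMap K' ℂ (z j / z l))
  have h2 : (![algebraMap K' ℂ (z i / z l), algebraMap K' ℂ (z j / z l)] : Fin 2 → ℂ) =
      algebraMap K' ℂ ∘ (![z i / z l, z j / z l] : Fin 2 → K') := by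
    funext i
    fin_cases i <;> rfl
  have h3 : aeval (![algebraMap K' ℂ (z i / z l), algebraMap K' ℂ (z j / z l)] : Fin 2 → ℂ) q =
      0 := by
    rw [h2, aeval_algebraMap_apply, hq, map_zero]
  have h4 : algebraMap K' ℂ (z l) ≠ 0 := by
    rw [Ne, map_eq_zero_iff _ (RingHom.injective _)]
    exact hz2
  have h5 : (![a i, a j, a l] : Fin 3 → ℂ) =
      ![a l * algebraMap K' ℂ (z i / z l), a l * algebraMap K' ℂ (z j / z l), a l] := by
    funext m
    fin_cases m
    · change a i = a l * algebraMap K' ℂ (z i / z l)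
      rw [hx' i, hx' l, map_div₀]
      field_simp
    · change a j = a l * algebraMap K' ℂ (z j / z l)
      rw [hx' j, hx' l, map_div₀]
      field_simp
    · rfl
  rw [h5, h1, h3, mul_zero]

end Pool.Agent.Helper38.TQ
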