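import Pool.Agent.Helper38.TQ.PtHeight
import Pool.Agent.Helper38.TQ.Emb

/-!
# Preperiodic complex points are defined over the field of definition of the map
-/

set_option autoImplicit false

namespace Pool.Agent.Helper38.TQ

open MvPolynomial
open Pool.Agent.Helper16 (Place IsFunctionField)
open Pool.Agent.Helper36 (step iter iter_zero iter_succ iter_succ' iter_add iter_map)

variable {ν : ℕ}

/-- Base change of an endomorphism. -/
theorem IsEndo.map {k k' : Type} [Field k] [IsAlgClosed k] [Field k'] [Algebra k k'] {d : ℕ}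
    {F : Fin (ν + 1) → MvPolynomial (Fin (ν + 1)) k} (hF : IsEndo d F) :
    IsEndo d (fun i => MvPolynomial.map (algebraMap k k') (F i)) := by
  refine ⟨hF.two_le, fun i => (hF.hom i).map _, fun w hw => ?_⟩
  by_contra hne
  apply step_ne_zero hF (L := k') hne
  funext i
  have h1 := hw i
  rw [eval_map] at h1
  exact h1

theorem iter_map_base {k k' L : Type} [Field k] [Field k'] [Field L] [Algebra k k'] [Algebra k L]
    [Algebra k' L] [IsScalarTower k k' L] (F : Fin (ν + 1) → MvPolynomial (Fin (ν + 1)) k)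
    (x : Fin (ν + 1) → L) (n : ℕ) :
    iter (fun i => MvPolynomial.map (algebraMap k k') (F i)) x n = iter F x n := by
  induction n with
  | zero => rfl
  | succ n ih =>
    rw [iter_succ, iter_succ, ih]
    funext i
    exact MvPolynomial.aeval_map_algebraMap k' (iter F x n) (F i)

theorem PEq.descend {K L : Type} [Field K] [Field L] (φ : K →+* L) {x y : Fin (ν + 1) → K}
    (hx : x ≠ 0) (hy : y ≠ 0) (h : PEq (fun i => φ (x i)) (fun i => φ (y i))) : PEq x y := by
  obtain ⟨c, hc, h⟩ := h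
  obtain ⟨i, hi⟩ := Function.ne_iff.1 hx
  have hi' : x i ≠ 0 := hi
  have h1 : ∀ j, φ (y j) = c * φ (x j) := fun j => congrFun h j
  have h2 : ∀ j, y j = y i / x i * x j := by
    intro j
    apply φ.injective
    rw [map_mul, map_div₀, h1, h1, mul_div_assoc, div_self (by simpa using hi'), mul_one]
  refine ⟨y i / x i, ?_, funext h2⟩
  intro h0
  apply hy
  funext j
  rw [h2 j, h0, zero_mul]
  rfl

theorem isConst_smul {k L : Type} [Field k] [Field L] [Algebra k L] {x : Fin (ν + 1) → L}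
    {c : L} (hc : c ≠ 0) : IsConst k (c • x) ↔ IsConst k x := by
  constructor
  · rintro ⟨z, s, hs, h⟩
    refine ⟨z, c⁻¹ * s, mul_ne_zero (inv_ne_zero hc) hs, ?_⟩
    funext i
    have h1 := congrFun h i
    rw [Pi.smul_apply, smul_eq_mul] at h1
    rw [mul_assoc, ← h1, ← mul_assoc, inv_mul_cancel₀ hc, one_mul]
  · rintro ⟨z, s, hs, h⟩
    refine ⟨z, c * s, mul_ne_zero hc hs, ?_⟩
    funext i
    rw [Pi.smul_apply, smul_eq_mul, h, mul_assoc]

theorem isConst_of_preper_complex {k : Type} [Field k] [IsAlgClosed k] [Algebra k ℂ] {d : ℕ}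
    {F : Fin (ν + 1) → MvPolynomial (Fin (ν + 1)) k} (hF : IsEndo d F) {z : Fin (ν + 1) → ℂ}
    (hz : z ≠ 0) (h : Preper F z) : IsConst k z := by
  by_contra hc
  obtain ⟨i₀, hi₀⟩ := Function.ne_iff.1 hz
  have hi₀' : z i₀ ≠ 0 := hi₀
  set v : Fin (ν + 1) → ℂ := (z i₀)⁻¹ • z with hv
  have hv1 : v i₀ = 1 := by
    rw [hv, Pi.smul_apply, smul_eq_mul, inv_mul_cancel₀ hi₀']
  have hvc : ¬ IsConst k v := by rwa [hv, isConst_smul (inv_ne_zero hi₀')]
  obtain ⟨k', _, _, _, _, _, hvc', hK⟩ := exists_function_field v i₀ hv1 hvc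
  set K := IntermediateField.adjoin k' (Set.range v)
  let y : Fin (ν + 1) → K := fun i => ⟨v i, IntermediateField.subset_adjoin _ _ ⟨i, rfl⟩⟩
  have hyv : (fun i => algebraMap K ℂ (y i)) = v := rfl
  have hy0 : y ≠ 0 := by
    intro h
    have h1 := congrArg (fun w : Fin (ν + 1) → K => algebraMap K ℂ (w i₀)) h
    simp only [Pi.zero_apply, map_zero] at h1
    have h2 : algebraMap K ℂ (y i₀) = v i₀ := rfl
    rw [h2, hv1] at h1
    exact one_ne_zero h1
  have hF' := hF.map (k' := k')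
  obtain ⟨n, m, hnm, hp⟩ := h
  have hp' : PEq (iter (fun i => MvPolynomial.map (algebraMap k k') (F i)) y n)
      (iter (fun i => MvPolynomial.map (algebraMap k k') (F i)) y m) := by
    refine PEq.descend (algebraMap K ℂ) (iter_ne_zero hF' hy0 n) (iter_ne_zero hF' hy0 m) ?_
    have key : ∀ n, (fun i => algebraMap K ℂ
        (iter (fun i => MvPolynomial.map (algebraMap k k') (F i)) y n i)) =
        ((z i₀)⁻¹ ^ d ^ n) • iter F z n := by
      intro n
      have h1 := iter_map (fun i => MvPolynomial.map (algebraMap k k') (F i))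
        (IsScalarTower.toAlgHom k' K ℂ) y n
      have h2 : (fun i => (IsScalarTower.toAlgHom k' K ℂ) (y i)) = v := rfl
      rw [h2, iter_map_base, hv, iter_smul hF] at h1
      exact h1.symm
    rw [key, key]
    obtain ⟨c, hc, hcc⟩ := hp
    rw [hcc]
    have hz0 : (z i₀)⁻¹ ≠ 0 := inv_ne_zero hi₀'
    refine ⟨(z i₀)⁻¹ ^ d ^ m * c * ((z i₀)⁻¹ ^ d ^ n)⁻¹, ?_, ?_⟩
    · exact mul_ne_zero (mul_ne_zero (pow_ne_zero _ hz0) hc) (inv_ne_zero (pow_ne_zero _ hz0))
    · rw [smul_smul, smul_smul, mul_assoc, mul_assoc, inv_mul_cancel₀ (pow_ne_zero _ hz0), mul_one]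
  have h3 := isConst_of_preper hK hF' y hy0 ⟨n, m, hnm, hp'⟩
  apply hvc'
  obtain ⟨w, c, hc0, hw⟩ := h3
  refine ⟨w, algebraMap K ℂ c, by simpa using hc0, ?_⟩
  rw [← hyv, hw]
  funext i
  rw [map_mul, ← IsScalarTower.algebraMap_apply]

end Pool.Agent.Helper38.TQ
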