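import Pool.Agent.Helper38.TQ.Basic
import Pool.Agent.Helper38.Sym.GenEngine

/-!
# Good reduction of a preperiodic point with a noncritical cycle
-/

set_option autoImplicit false

namespace Pool.Agent.Helper38.TQ

open MvPolynomial Function
open Pool.Agent.Helper38.Dml (pmap pjac pmap_smul pjac_smul GoodAt)
open Pool.Agent.Helper38.Sym (map_eval_gen)
open Pool.Agent.Helper36 (step iter)

variable {ν : ℕ}

theorem goodAt_of_cycle {E : Type} [Field E] {d : ℕ} (f : Fin (ν + 1) → MvPolynomial (Fin (ν + 1)) E)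
    (hf : ∀ i, (f i).IsHomogeneous d) (y : Fin (ν + 1) → E) (n N : ℕ) (hN : 0 < N) (c : E) (hc : c ≠ 0)
    (hper : (pmap f)^[n + N] y = c • (pmap f)^[n] y)
    (hnz : ∀ i ≤ n + N, (pmap f)^[i] y ≠ 0)
    (hdet : ∀ i, n ≤ i → i < n + N → (pjac f ((pmap f)^[i] y)).det ≠ 0) : GoodAt f y := by
  have hshift : ∀ l, ∃ e : E, e ≠ 0 ∧ (pmap f)^[n + l + N] y = e • (pmap f)^[n + l] y := by
    intro l
    induction l with
    | zero => exact ⟨c, hc, hper⟩
    | succ l ih =>
      obtain ⟨e, he, h⟩ := ih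
      refine ⟨e ^ d, pow_ne_zero _ he, ?_⟩
      have h1 : n + (l + 1) + N = (n + l + N) + 1 := by omega
      have h2 : n + (l + 1) = (n + l) + 1 := by omega
      rw [h1, iterate_succ_apply', h, pmap_smul hf, h2, iterate_succ_apply']
  have hred : ∀ l, ∃ i, n ≤ i ∧ i < n + N ∧ ∃ e : E, e ≠ 0 ∧
      (pmap f)^[n + l] y = e • (pmap f)^[i] y := by
    intro l
    induction l using Nat.strong_induction_on with
    | _ l ih =>
      by_cases hl : l < N
      · exact ⟨n + l, by omega, by omega, 1, one_ne_zero, (one_smul _ _).symm⟩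
      · obtain ⟨i, h1, h2, e, he, h⟩ := ih (l - N) (by omega)
        obtain ⟨e', he', h'⟩ := hshift (l - N)
        refine ⟨i, h1, h2, e' * e, mul_ne_zero he' he, ?_⟩
        have h3 : n + l = n + (l - N) + N := by omega
        rw [h3, h', h, smul_smul]
  intro i
  by_cases hi : n ≤ i
  · obtain ⟨l, rfl⟩ := Nat.exists_eq_add_of_le hi
    obtain ⟨i₀, h1, h2, e, he, h⟩ := hred l
    refine ⟨?_, fun _ => ?_⟩
    · rw [h]
      exact smul_ne_zero he (hnz i₀ h2.le)
    · rw [h, pjac_smul hf, Matrix.det_smul]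
      exact mul_ne_zero (pow_ne_zero _ (pow_ne_zero _ he)) (hdet i₀ h1 h2)
  · refine ⟨hnz i (by omega), fun hmem => ?_⟩
    obtain ⟨L, hL, hper'⟩ := hmem
    have h1 : (pmap f)^[n * L] ((pmap f)^[i] y) = (pmap f)^[i] y := by
      have := (hper'.const_mul n)
      exact this
    rw [← iterate_add_apply] at h1
    have h2 : n ≤ n * L + i := by nlinarith
    obtain ⟨l, hl⟩ := Nat.exists_eq_add_of_le h2
    rw [hl] at h1
    obtain ⟨i₀, h3, h4, e, he, h⟩ := hred l
    rw [← h1, h, pjac_smul hf, Matrix.det_smul]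
    exact mul_ne_zero (pow_ne_zero _ (pow_ne_zero _ he)) (hdet i₀ h3 h4)

theorem isUnit_of_inv_mem {k A : Type} [Field k] [CommRing A] (j : A →+* k)
    (hj : Injective j) (a : A) (ha : j a ≠ 0) (h : (j a)⁻¹ ∈ Set.range j) : IsUnit a := by
  obtain ⟨b, hb⟩ := h
  refine IsUnit.of_mul_eq_one b (hj ?_)
  rw [map_mul, hb, map_one, mul_inv_cancel₀ ha]

theorem map_pmap_iterate {R S : Type} [CommRing R] [CommRing S] (φ : R →+* S)
    (f : Fin (ν + 1) → MvPolynomial (Fin (ν + 1)) R) (y : Fin (ν + 1) → R) (n : ℕ) :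
    (fun i => φ ((pmap f)^[n] y i)) = (pmap fun i => map φ (f i))^[n] (fun i => φ (y i)) := by
  induction n with
  | zero => rfl
  | succ n ih =>
    rw [iterate_succ_apply', iterate_succ_apply', ← ih]
    funext i
    exact map_eval_gen φ _ _

theorem map_pjac_det {R S : Type} [CommRing R] [CommRing S] (φ : R →+* S)
    (f : Fin (ν + 1) → MvPolynomial (Fin (ν + 1)) R) (y : Fin (ν + 1) → R) :
    φ (pjac f y).det = (pjac (fun i => map φ (f i)) (fun i => φ (y i))).det := by
  rw [RingHom.map_det]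
  congr 1
  ext i j
  rw [RingHom.mapMatrix_apply, Matrix.map_apply]
  simp only [pjac, Matrix.of_apply]
  rw [MvPolynomial.pderiv_map]
  exact map_eval_gen φ _ _

theorem iter_eq_pmap {k : Type} [Field k] (F : Fin (ν + 1) → MvPolynomial (Fin (ν + 1)) k) (z : Fin (ν + 1) → k)
    (n : ℕ) : iter F z n = (pmap F)^[n] z := by
  induction n with
  | zero => rfl
  | succ n ih =>
    rw [iterate_succ_apply', ← ih, Pool.Agent.Helper36.iter_succ]
    rfl

theorem det_mult {k : Type} [Field k] (F : Fin (ν + 1) → MvPolynomial (Fin (ν + 1)) k) (w : Fin (ν + 1) → k)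
    (N : ℕ) : (mult F w N).det = ∏ i ∈ Finset.range N, (pjac F (iter F w i)).det := by
  induction N with
  | zero => simp [mult]
  | succ N ih =>
    rw [mult, Matrix.det_mul, ih, Finset.prod_range_succ, mul_comm]
    rfl

theorem goodAt_reduction {k A E : Type} [Field k] [CommRing A] [Field E] (j : A →+* k)
    (hj : Injective j) (χ : A →+* E) {d : ℕ} (F : Fin (ν + 1) → MvPolynomial (Fin (ν + 1)) k)
    (FA : Fin (ν + 1) → MvPolynomial (Fin (ν + 1)) A) (hFA : ∀ i, map j (FA i) = F i)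
    (hF : ∀ i, (FA i).IsHomogeneous d) (z : Fin (ν + 1) → k) (zA : Fin (ν + 1) → A)
    (hz : ∀ i, j (zA i) = z i) (n N : ℕ) (hN : 0 < N) (c : k) (hc : c ≠ 0)
    (hper : iter F z (n + N) = c • iter F z n) (hcA : c ∈ Set.range j) (hcA' : c⁻¹ ∈ Set.range j)
    (l : ℕ → Fin (ν + 1))
    (hl : ∀ i ≤ n + N, iter F z i (l i) ≠ 0 ∧ (iter F z i (l i))⁻¹ ∈ Set.range j)
    (hdet : ∀ i, n ≤ i → i < n + N →
      (pjac F (iter F z i)).det ≠ 0 ∧ ((pjac F (iter F z i)).det)⁻¹ ∈ Set.range j) :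
    GoodAt (fun i => map χ (FA i)) (fun i => χ (zA i)) := by
  have hzj : (fun i => j (zA i)) = z := funext hz
  have hFj : (fun i => map j (FA i)) = F := funext hFA
  have hit : ∀ i, (fun l => j ((pmap FA)^[i] zA l)) = iter F z i := by
    intro i
    rw [map_pmap_iterate, hFj, hzj, iter_eq_pmap]
  have hitχ : ∀ i, (fun l => χ ((pmap FA)^[i] zA l))
      = (pmap fun i => map χ (FA i))^[i] (fun i => χ (zA i)) := fun i =>
    map_pmap_iterate χ FA zA i
  obtain ⟨cA, rfl⟩ := hcA
  have hcu : IsUnit cA := isUnit_of_inv_mem j hj cA hc hcA'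
  refine goodAt_of_cycle (d := d) _ (fun i => (hF i).map χ) _ n N hN (χ cA) (hcu.map χ).ne_zero
    ?_ ?_ ?_
  · rw [← hitχ, ← hitχ]
    have h1 : (pmap FA)^[n + N] zA = cA • (pmap FA)^[n] zA := by
      funext i
      apply hj
      have h2 := congrFun hper i
      rw [← hit, ← hit] at h2
      rw [Pi.smul_apply, smul_eq_mul] at h2 ⊢
      rw [map_mul]
      exact h2
    rw [h1]
    funext i
    rw [Pi.smul_apply, Pi.smul_apply, smul_eq_mul, smul_eq_mul, map_mul]
  · intro i hi h0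
    obtain ⟨h1, h2⟩ := hl i hi
    rw [← hit] at h1 h2
    have h3 := (isUnit_of_inv_mem j hj _ h1 h2).map χ
    apply h3.ne_zero
    have h4 := congrFun (hitχ i) (l i)
    rw [h0] at h4
    exact h4
  · intro i hi hi'
    obtain ⟨h1, h2⟩ := hdet i hi hi'
    have h3 : (pjac F (iter F z i)).det = j (pjac FA ((pmap FA)^[i] zA)).det := by
      rw [map_pjac_det, hFj, hit]
    rw [h3] at h1 h2
    have h4 := (isUnit_of_inv_mem j hj _ h1 h2).map χ
    rw [← hitχ, ← map_pjac_det]
    exact h4.ne_zero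

end Pool.Agent.Helper38.TQ
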