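import Pool.Agent.Helper38.TQ.Final

/-!
# Maps without critical periodic points
-/

set_option autoImplicit false

namespace Pool.Agent.Helper38.TQ

open MvPolynomial
open Pool.Agent.Helper16 (Place IsFunctionField)
open Pool.Agent.Helper36 (step iter iter_zero iter_succ iter_succ' iter_add iter_map)

variable {ν : ℕ}

theorem isConst_descend {k k' : Type} [Field k] [Field k'] [Algebra k k'] [Algebra k ℂ]
    [Algebra k' ℂ] [IsScalarTower k k' ℂ] {u : Fin (ν + 1) → k'} (hu : u ≠ 0)
    (h : IsConst k (fun i => algebraMap k' ℂ (u i))) :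
    ∃ w : Fin (ν + 1) → k, w ≠ 0 ∧ PEq (fun i => algebraMap k k' (w i)) u := by
  obtain ⟨w, c, hc, h⟩ := h
  have hw : w ≠ 0 := by
    rintro rfl
    apply hu
    funext i
    have := congrFun h i
    simpa using this
  refine ⟨w, hw, PEq.descend (algebraMap k' ℂ) ?_ hu ⟨c, hc, ?_⟩⟩
  · intro h0
    apply hw
    funext i
    have := congrFun h0 i
    simpa using this
  · rw [h]
    funext i
    rw [Pi.smul_apply, smul_eq_mul, ← IsScalarTower.algebraMap_apply]

theorem pjac_map_det {k k' : Type} [Field k] [Field k'] [Algebra k k']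
    (F : Fin (ν + 1) → MvPolynomial (Fin (ν + 1)) k) (w : Fin (ν + 1) → k) :
    (Pool.Agent.Helper38.Dml.pjac (fun i => MvPolynomial.map (algebraMap k k') (F i))
      (fun i => algebraMap k k' (w i))).det = algebraMap k k' (jac F w).det :=
  (map_pjac_det (algebraMap k k') F w).symm

/-- A finite set is a finite union of progressions. -/
theorem finite_progressions {R : Set ℕ} (hR : R.Finite) :
    ∃ T : Finset (ℕ × ℕ), R = {n : ℕ | ∃ q ∈ T, ∃ m : ℕ, n = q.1 * m + q.2} := by
  classical
  refine ⟨hR.toFinset.image fun n => (0, n), ?_⟩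
  ext n
  simp only [Set.mem_setOf_eq, Finset.mem_image, Set.Finite.mem_toFinset]
  constructor
  · intro h
    exact ⟨(0, n), ⟨n, h, rfl⟩, 0, by simp⟩
  · rintro ⟨q, ⟨r, hr, rfl⟩, m, h⟩
    have : n = r := by simpa using h
    rwa [this]

/-- **Curves.** If no periodic point of the map is critical then the return set of every point which
is not defined over `k` to every curve is a finite union of progressions. -/
theorem dml_curve {k : Type} [Field k] [IsAlgClosed k] [Algebra k ℂ] {d : ℕ}
    {F : Fin (ν + 1) → MvPolynomial (Fin (ν + 1)) k} (hF : IsEndo d F)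
    (hcrit : ∀ (z : Fin (ν + 1) → k) (N : ℕ), z ≠ 0 → 0 < N → PEq z (iter F z N) →
      (jac F z).det ≠ 0) {a : Fin (ν + 1) → ℂ} (ha0 : a ≠ 0) (hac : ¬ IsConst k a)
    {S : Set (MvPolynomial (Fin (ν + 1)) ℂ)} (hS : ∀ g ∈ S, ∃ e, g.IsHomogeneous e)
    (hcur : CurveSet S) :
    ∃ T : Finset (ℕ × ℕ), {n : ℕ | ∀ g ∈ S, eval (iter F a n) g = 0} =
      {n : ℕ | ∃ q ∈ T, ∃ m : ℕ, n = q.1 * m + q.2} := by
  classical
  obtain ⟨i₀, hi₀⟩ := Function.ne_iff.1 ha0
  have hi₀' : a i₀ ≠ 0 := hi₀
  set v : Fin (ν + 1) → ℂ := (a i₀)⁻¹ • a with hv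
  have hv1 : v i₀ = 1 := by
    rw [hv, Pi.smul_apply, smul_eq_mul, inv_mul_cancel₀ hi₀']
  have hvc : ¬ IsConst k v := by rwa [hv, isConst_smul (inv_ne_zero hi₀')]
  obtain ⟨k', _, _, _, _, _, hvc', hK⟩ := exists_function_field v i₀ hv1 hvc
  have hchar : CharZero k' := (algebraMap k' ℂ).charZero
  set K := IntermediateField.adjoin k' (Set.range v)
  let y : Fin (ν + 1) → K := fun i => ⟨v i, IntermediateField.subset_adjoin _ _ ⟨i, rfl⟩⟩
  have hyv : (fun i => algebraMap K ℂ (y i)) = v := rfl
  have hy0 : y ≠ 0 := by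
    intro h
    have h1 := congrArg (fun w : Fin (ν + 1) → K => algebraMap K ℂ (w i₀)) h
    simp only [Pi.zero_apply, map_zero] at h1
    have h2 : algebraMap K ℂ (y i₀) = v i₀ := rfl
    rw [h2, hv1] at h1
    exact one_ne_zero h1
  have hyc : ¬ IsConst k' y := by
    rintro ⟨w, c, hc0, hw⟩
    apply hvc'
    refine ⟨w, algebraMap K ℂ c, by simpa using hc0, ?_⟩
    rw [← hyv, hw]
    funext i
    rw [map_mul, ← IsScalarTower.algebraMap_apply]
  have hF' := hF.map (k' := k')
  have hay : (fun i => a i₀ * algebraMap K ℂ (y i)) = a := by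
    funext i
    have h6 : algebraMap K ℂ (y i) = (a i₀)⁻¹ * a i := rfl
    rw [h6, ← mul_assoc, mul_inv_cancel₀ hi₀', one_mul]
  by_cases hcase : ∃ (b : Place k' K) (z : Fin (ν + 1) → k'), Red b y z ∧
      Preper (fun i => MvPolynomial.map (algebraMap k k') (F i)) z
  · -- a noncritical cycle
    obtain ⟨b, z, hz, n, m, hnm, hp⟩ := hcase
    obtain ⟨N, rfl⟩ := Nat.exists_eq_add_of_lt hnm
    have hz0 := hz.1
    have hdet : (mult (fun i => MvPolynomial.map (algebraMap k k') (F i))
        (iter (fun i => MvPolynomial.map (algebraMap k k') (F i)) z n) (N + 1)).det ≠ 0 := by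
      rw [det_mult, Finset.prod_ne_zero_iff]
      intro i _
      set u := iter (fun i => MvPolynomial.map (algebraMap k k') (F i))
        (iter (fun i => MvPolynomial.map (algebraMap k k') (F i)) z n) i with hu
      have hu' : u = iter (fun i => MvPolynomial.map (algebraMap k k') (F i)) z (i + n) := by
        rw [hu, ← iter_add]
      have hu0 : u ≠ 0 := by
        rw [hu']; exact iter_ne_zero hF' hz0 _
      -- periodic
      have hper : PEq u (iter (fun i => MvPolynomial.map (algebraMap k k') (F i)) u (N + 1)) := by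
        have h2 := hp.iter hF' i
        rw [← iter_add, ← iter_add] at h2
        rw [hu', ← iter_add]
        have h3 : N + 1 + (i + n) = i + (n + N + 1) := by omega
        rw [h3]
        exact h2
      have huC0 : (fun i => algebraMap k' ℂ (u i)) ≠ 0 := by
        intro h
        apply hu0
        funext i
        have := congrFun h i
        simpa using this
      have key : ∀ (u : Fin (ν + 1) → k') (n : ℕ), iter F (fun i => algebraMap k' ℂ (u i)) n =
          fun i => algebraMap k' ℂ
            (iter (fun i => MvPolynomial.map (algebraMap k k') (F i)) u n i) := by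
        intro u n
        have h1 := iter_map (fun i => MvPolynomial.map (algebraMap k k') (F i))
          (IsScalarTower.toAlgHom k' k' ℂ) u n
        rw [iter_map_base] at h1
        exact h1
      have hpreC : Preper F (fun i => algebraMap k' ℂ (u i)) := by
        obtain ⟨c, hc, hp⟩ := hper
        refine ⟨0, N + 1, Nat.succ_pos _, algebraMap k' ℂ c, by simpa using hc, ?_⟩
        rw [key, key, hp]
        funext i
        simp only [Pi.smul_apply, smul_eq_mul, map_mul]
        rfl
      obtain ⟨w, hw0, hwu⟩ := isConst_descend hu0 (isConst_of_preper_complex hF huC0 hpreC)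
      have hwit : ∀ n, iter (fun i => MvPolynomial.map (algebraMap k k') (F i))
          (fun i => algebraMap k k' (w i)) n = fun i => algebraMap k k' (iter F w n i) := by
        intro n
        rw [iter_map_base]
        exact iter_map F (Algebra.ofId k k') w n
      have hwper : PEq w (iter F w (N + 1)) := by
        refine PEq.descend (algebraMap k k') hw0 (iter_ne_zero hF hw0 _) ?_
        have h2 := (hwu.trans hper).trans (hwu.iter hF' (N + 1)).symm
        rw [hwit] at h2
        exact h2
      have hwdet := hcrit w (N + 1) hw0 (Nat.succ_pos _) hwper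
      obtain ⟨c, hc, hcu⟩ := hwu
      rw [hcu, Pool.Agent.Helper38.Dml.pjac_smul hF'.hom, Matrix.det_smul, pjac_map_det]
      refine mul_ne_zero (pow_ne_zero _ (pow_ne_zero _ hc)) ?_
      simpa using hwdet
    have hdml := noncritical hK hF' y hy0 b z hz n (N + 1) (Nat.succ_pos _)
      (by rw [← add_assoc]; exact hp) hdet (a i₀) hi₀' S hS
    obtain ⟨T, hT⟩ := hdml
    refine ⟨T, ?_⟩
    rw [← hT]
    ext n
    have horb : (fun (x : Fin (ν + 1) → ℂ) (i : Fin (ν + 1)) => eval x
        (MvPolynomial.map (algebraMap k' ℂ) (MvPolynomial.map (algebraMap k k') (F i))))^[n]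
          (fun i => a i₀ * algebraMap K ℂ (y i)) = iter F a n := by
      rw [hay]
      have h1 : (fun (x : Fin (ν + 1) → ℂ) (i : Fin (ν + 1)) => eval x
        (MvPolynomial.map (algebraMap k' ℂ) (MvPolynomial.map (algebraMap k k') (F i)))) =
          step (fun i => MvPolynomial.map (algebraMap k k') (F i)) := by
        funext x i
        rw [eval_map]
        rfl
      rw [h1]
      exact iter_map_base F a n
    simp only [Set.mem_setOf_eq, horb]
  · -- no preperiodic reduction
    push Not at hcase
    refine finite_progressions ?_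
    by_contra hinf
    obtain ⟨U, hU, hRU⟩ := exists_free hinf
    refine engine hK hF' hy0 hyc hcase hU (hcur _ _ _ ?_)
    have hRU' : ∀ᶠ n in (U : Filter ℕ), ∀ g ∈ S, eval (iter F a n) g = 0 := hRU
    filter_upwards [hRU'] with n hn g hg
    obtain ⟨e, he⟩ := hS g hg
    have h4 := orbit_eq (k' := k') (K := K) hF y (a i₀) n
    rw [hay] at h4
    have h5 := hn g hg
    rw [h4, eval_smul_hom he, mul_eq_zero] at h5
    exact h5.resolve_left (pow_ne_zero _ (pow_ne_zero _ hi₀'))

end Pool.Agent.Helper38.TQ
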