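import Pool.Agent.Helper38.TQ.Basic
import Pool.Agent.Helper30.TP.Ultra
import Pool.Agent.Helper30.TP.Dim1

/-!
# Points on a complex curve: any three linear forms are dependent
-/

set_option autoImplicit false

namespace Pool.Agent.Helper38.TQ

open MvPolynomial

variable {ν : ℕ}

/-- the Nullstellensatz for a curve -/
theorem dim_null {S : Set (MvPolynomial (Fin (ν + 1)) ℂ)} (hS : ∀ g ∈ S, ∃ e, g.IsHomogeneous e)
    {l₀ l₁ : MvPolynomial (Fin (ν + 1)) ℂ} (h0 : l₀.IsHomogeneous 1) (h1 : l₁.IsHomogeneous 1)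
    (hno : ∀ z : Fin (ν + 1) → ℂ, (∀ g ∈ S, eval z g = 0) → eval z l₀ = 0 → eval z l₁ = 0 →
      z = 0) :
    ∃ (s : ℕ) (A B : Fin (ν + 1) → MvPolynomial (Fin (ν + 1)) ℂ),
      (∀ j, (A j).IsHomogeneous s) ∧ (∀ j, (B j).IsHomogeneous s) ∧
      ∀ j, ∀ z : Fin (ν + 1) → ℂ, (∀ g ∈ S, eval z g = 0) →
        z j ^ (s + 1) = eval z (A j) * eval z l₀ + eval z (B j) * eval z l₁ := by
  classical
  have h2 : ∀ j : Fin (ν + 1), ∃ r : ℕ, (X j : MvPolynomial (Fin (ν + 1)) ℂ) ^ r ∈
      Ideal.span (insert l₀ (insert l₁ S)) := by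
    intro j
    have h3 : (X j : MvPolynomial (Fin (ν + 1)) ℂ) ∈
        (Ideal.span (insert l₀ (insert l₁ S))).radical := by
      rw [← vanishingIdeal_zeroLocus_eq_radical (K := ℂ)]
      rw [mem_vanishingIdeal_iff]
      intro z hz
      rw [mem_zeroLocus_iff] at hz
      have h4 : z = 0 := by
        refine hno z (fun g hg => ?_) ?_ ?_
        · have := hz g (Ideal.subset_span (Set.mem_insert_of_mem _ (Set.mem_insert_of_mem _ hg)))
          exact this
        · have := hz l₀ (Ideal.subset_span (Set.mem_insert _ _))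
          exact this
        · have := hz l₁ (Ideal.subset_span (Set.mem_insert_of_mem _ (Set.mem_insert _ _)))
          exact this
      rw [h4]
      simp
    exact h3
  choose r hr using h2
  set s : ℕ := ∑ k, r k with hs
  have h3 : ∀ j, (X j : MvPolynomial (Fin (ν + 1)) ℂ) ^ (s + 1) ∈
      Ideal.span (insert l₀ (insert l₁ S)) := by
    intro j
    refine Ideal.mem_of_dvd _ (pow_dvd_pow _ ?_) (hr j)
    have : r j ≤ s := Finset.single_le_sum (f := r) (fun _ _ => Nat.zero_le _) (Finset.mem_univ j)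
    omega
  have h4 : ∀ j, ∃ (A B : MvPolynomial (Fin (ν + 1)) ℂ), A.IsHomogeneous s ∧ B.IsHomogeneous s ∧
      ∀ z : Fin (ν + 1) → ℂ, (∀ g ∈ S, eval z g = 0) →
        z j ^ (s + 1) = eval z A * eval z l₀ + eval z B * eval z l₁ := by
    intro j
    obtain ⟨A, w, hw, hAw⟩ := Ideal.mem_span_insert.1 (h3 j)
    obtain ⟨B, v, hv, hBv⟩ := Ideal.mem_span_insert.1 hw
    refine ⟨homogeneousComponent s A, homogeneousComponent s B,
      homogeneousComponent_isHomogeneous _ _, homogeneousComponent_isHomogeneous _ _, ?_⟩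
    intro z hz
    have h5 := congrArg (homogeneousComponent (s + 1)) hAw
    rw [hBv, map_add, map_add, Pool.Agent.Helper36.homogeneousComponent_mul_of_homogeneous h0,
      Pool.Agent.Helper36.homogeneousComponent_mul_of_homogeneous h1,
      homogeneousComponent_eq_self (isHomogeneous_X_pow j _)] at h5
    have h6 : ∀ v ∈ Ideal.span S, ∀ n, eval z (homogeneousComponent n v) = 0 := by
      intro v hv
      refine Submodule.span_induction (p := fun v _ => ∀ n, eval z (homogeneousComponent n v) = 0)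
        ?_ ?_ ?_ ?_ hv
      · intro g hg n
        obtain ⟨e, he⟩ := hS g hg
        rw [homogeneousComponent_of_mem he]
        split_ifs
        · exact hz g hg
        · exact map_zero _
      · intro n
        rw [map_zero, map_zero]
      · intro a b _ _ ha hb n
        rw [map_add, map_add, ha, hb, add_zero]
      · intro a b _ hb n
        rw [smul_eq_mul]
        have h7 : homogeneousComponent n (a * b) =
            ∑ p ∈ Finset.range (b.totalDegree + 1), homogeneousComponent n
              (a * homogeneousComponent p b) := by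
          rw [← map_sum, ← Finset.mul_sum, sum_homogeneousComponent]
        rw [h7, map_sum]
        refine Finset.sum_eq_zero fun p _ => ?_
        by_cases hp : p ≤ n
        · obtain ⟨t, rfl⟩ := Nat.exists_eq_add_of_le' hp
          rw [Pool.Agent.Helper36.homogeneousComponent_mul_of_homogeneous
            (homogeneousComponent_isHomogeneous p b), map_mul, hb, mul_zero]
        · have h8 : homogeneousComponent n (a * homogeneousComponent p b) = 0 := by
            have h9 : a * homogeneousComponent p b =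
                ∑ q ∈ Finset.range (a.totalDegree + 1),
                  homogeneousComponent q a * homogeneousComponent p b := by
              rw [← Finset.sum_mul, sum_homogeneousComponent]
            rw [h9, map_sum]
            refine Finset.sum_eq_zero fun q _ => ?_
            rw [homogeneousComponent_of_mem ((homogeneousComponent_isHomogeneous q a).mul
              (homogeneousComponent_isHomogeneous p b)), if_neg (by omega)]
          rw [h8, map_zero]
    have h7 := congrArg (eval z) h5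
    rw [map_add, map_add, map_mul, map_mul, h6 v hv, add_zero, map_pow, eval_X] at h7
    exact h7
  choose A B hA hB h using h4
  exact ⟨s, A, B, hA, hB, h⟩

/-- forms of large degree on a curve -/
theorem dim_reduce {S : Set (MvPolynomial (Fin (ν + 1)) ℂ)} {l₀ l₁ : MvPolynomial (Fin (ν + 1)) ℂ}
    {s : ℕ} {A B : Fin (ν + 1) → MvPolynomial (Fin (ν + 1)) ℂ}
    (hA : ∀ j, (A j).IsHomogeneous s) (hB : ∀ j, (B j).IsHomogeneous s)
    (h : ∀ j, ∀ z : Fin (ν + 1) → ℂ, (∀ g ∈ S, eval z g = 0) →
        z j ^ (s + 1) = eval z (A j) * eval z l₀ + eval z (B j) * eval z l₁)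
    {M : ℕ} (hM : (ν + 1) * (s + 1) ≤ M + 1) (P : MvPolynomial (Fin (ν + 1)) ℂ)
    (hP : P.IsHomogeneous (M + 1)) :
    ∃ Q₀ Q₁ : MvPolynomial (Fin (ν + 1)) ℂ, Q₀.IsHomogeneous M ∧ Q₁.IsHomogeneous M ∧
      ∀ z : Fin (ν + 1) → ℂ, (∀ g ∈ S, eval z g = 0) →
        eval z P = eval z l₀ * eval z Q₀ + eval z l₁ * eval z Q₁ := by
  classical
  -- monomials
  have key : ∀ u : Fin (ν + 1) →₀ ℕ, u.degree = M + 1 →
      ∃ Q₀ Q₁ : MvPolynomial (Fin (ν + 1)) ℂ, Q₀.IsHomogeneous M ∧ Q₁.IsHomogeneous M ∧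
      ∀ z : Fin (ν + 1) → ℂ, (∀ g ∈ S, eval z g = 0) →
        eval z (monomial u (1 : ℂ)) = eval z l₀ * eval z Q₀ + eval z l₁ * eval z Q₁ := by
    intro u hu
    obtain ⟨j, hj⟩ : ∃ j, s + 1 ≤ u j := by
      by_contra hcon
      push Not at hcon
      have h1 : u.degree = ∑ j, u j := Finsupp.degree_eq_sum u
      have h2 : ∑ j, u j < ∑ _j : Fin (ν + 1), (s + 1) :=
        Finset.sum_lt_sum_of_nonempty Finset.univ_nonempty fun j _ => hcon j
      rw [Finset.sum_const, Finset.card_univ, Fintype.card_fin, smul_eq_mul] at h2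
      omega
    set w : Fin (ν + 1) →₀ ℕ := u - Finsupp.single j (s + 1) with hw
    have hle : Finsupp.single j (s + 1) ≤ u := by
      rw [Finsupp.single_le_iff]; exact hj
    have huw : u = w + Finsupp.single j (s + 1) := (tsub_add_cancel_of_le hle).symm
    have hwd : w.degree + s = M := by
      have := congrArg Finsupp.degree huw
      rw [map_add, Finsupp.degree_single, hu] at this
      omega
    have hwh : (monomial w (1 : ℂ)).IsHomogeneous w.degree := isHomogeneous_monomial _ rfl
    refine ⟨monomial w 1 * A j, monomial w 1 * B j, ?_, ?_, ?_⟩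
    · have := hwh.mul (hA j)
      rwa [hwd] at this
    · have := hwh.mul (hB j)
      rwa [hwd] at this
    · intro z hz
      have h1 : (monomial u (1 : ℂ)) = monomial w 1 * X j ^ (s + 1) := by
        rw [X_pow_eq_monomial, monomial_mul, one_mul, ← huw]
      rw [h1, map_mul, map_pow, eval_X, h j z hz, map_mul, map_mul]
      ring
  choose! Q₀ Q₁ hQ₀ hQ₁ hQ using key
  refine ⟨∑ u ∈ P.support, C (coeff u P) * Q₀ u, ∑ u ∈ P.support, C (coeff u P) * Q₁ u, ?_, ?_, ?_⟩
  · refine IsHomogeneous.sum _ _ _ fun u hu => ?_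
    have hud : u.degree = M + 1 := by
      by_contra hc
      exact (mem_support_iff.1 hu) (hP.coeff_eq_zero hc)
    have := (isHomogeneous_C (Fin (ν + 1)) (coeff u P)).mul (hQ₀ u hud)
    rwa [zero_add] at this
  · refine IsHomogeneous.sum _ _ _ fun u hu => ?_
    have hud : u.degree = M + 1 := by
      by_contra hc
      exact (mem_support_iff.1 hu) (hP.coeff_eq_zero hc)
    have := (isHomogeneous_C (Fin (ν + 1)) (coeff u P)).mul (hQ₁ u hud)
    rwa [zero_add] at this
  · intro z hz
    conv_lhs => rw [P.as_sum]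
    rw [map_sum, map_sum, map_sum, Finset.mul_sum, Finset.mul_sum, ← Finset.sum_add_distrib]
    refine Finset.sum_congr rfl fun u hu => ?_
    have hud : u.degree = M + 1 := by
      by_contra hc
      exact (mem_support_iff.1 hu) (hP.coeff_eq_zero hc)
    have h1 : (monomial u (coeff u P)) = C (coeff u P) * monomial u (1 : ℂ) := by
      rw [C_mul_monomial, mul_one]
    rw [h1, map_mul, hQ u hud z hz, map_mul, map_mul, eval_C]
    ring

/-- iterated reduction -/
theorem dim_expand {S : Set (MvPolynomial (Fin (ν + 1)) ℂ)} {l₀ l₁ : MvPolynomial (Fin (ν + 1)) ℂ}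
    {s : ℕ} {A B : Fin (ν + 1) → MvPolynomial (Fin (ν + 1)) ℂ}
    (hA : ∀ j, (A j).IsHomogeneous s) (hB : ∀ j, (B j).IsHomogeneous s)
    (h : ∀ j, ∀ z : Fin (ν + 1) → ℂ, (∀ g ∈ S, eval z g = 0) →
        z j ^ (s + 1) = eval z (A j) * eval z l₀ + eval z (B j) * eval z l₁)
    (r : ℕ) : ∀ P : MvPolynomial (Fin (ν + 1)) ℂ, P.IsHomogeneous ((ν + 1) * (s + 1) + r) →
    ∃ G : ℕ → MvPolynomial (Fin (ν + 1)) ℂ, (∀ i, (G i).IsHomogeneous ((ν + 1) * (s + 1))) ∧
      ∀ z : Fin (ν + 1) → ℂ, (∀ g ∈ S, eval z g = 0) →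
        eval z P = ∑ i ∈ Finset.range (r + 1),
          eval z l₀ ^ i * eval z l₁ ^ (r - i) * eval z (G i) := by
  induction r with
  | zero =>
    intro P hP
    exact ⟨fun _ => P, fun _ => hP, fun z _ => by simp⟩
  | succ r ih =>
    intro P hP
    obtain ⟨Q₀, Q₁, hQ₀, hQ₁, hQ⟩ := dim_reduce hA hB h
      (M := (ν + 1) * (s + 1) + r) (by omega) P hP
    obtain ⟨G, hG, hG'⟩ := ih Q₀ hQ₀
    obtain ⟨G₁, hG₁, hG₁'⟩ := ih Q₁ hQ₁
    refine ⟨fun i => (if i = 0 then 0 else G (i - 1)) + (if i ≤ r then G₁ i else 0), ?_, ?_⟩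
    · intro i
      refine IsHomogeneous.add ?_ ?_
      · split_ifs
        · exact isHomogeneous_zero _ _ _
        · exact hG _
      · split_ifs
        · exact hG₁ _
        · exact isHomogeneous_zero _ _ _
    · intro z hz
      rw [hQ z hz, hG' z hz, hG₁' z hz]
      simp only [map_add, mul_add, Finset.sum_add_distrib]
      congr 1
      · rw [Finset.sum_range_succ' _ (r + 1)]
        simp only [if_true, map_zero, mul_zero, add_zero]
        rw [Finset.mul_sum]
        refine Finset.sum_congr rfl fun i hi => ?_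
        rw [if_neg (Nat.succ_ne_zero i), Nat.add_sub_cancel, Nat.add_sub_add_right]
        ring
      · rw [Finset.sum_range_succ _ (r + 1)]
        rw [if_neg (by omega), map_zero, mul_zero, add_zero, Finset.mul_sum]
        refine Finset.sum_congr rfl fun i hi => ?_
        have hi' : i ≤ r := by
          have := Finset.mem_range.1 hi; omega
        rw [if_pos hi', Nat.succ_sub hi', pow_succ]
        ring

theorem onCurve {K : Type} [Field K] [Algebra K ℂ] {x : ℕ → Fin (ν + 1) → K} {U : Ultrafilter ℕ}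
    {S : Set (MvPolynomial (Fin (ν + 1)) ℂ)} (hS : ∀ g ∈ S, ∃ e, g.IsHomogeneous e)
    {l₀ l₁ : MvPolynomial (Fin (ν + 1)) ℂ} (h0 : l₀.IsHomogeneous 1) (h1 : l₁.IsHomogeneous 1)
    (hno : ∀ z : Fin (ν + 1) → ℂ, (∀ g ∈ S, eval z g = 0) → eval z l₀ = 0 → eval z l₁ = 0 →
      z = 0)
    (hU : ∀ᶠ n in (U : Filter ℕ), ∀ g ∈ S, eval (fun i => algebraMap K ℂ (x n i)) g = 0) :
    OnCurve U x := by
  classical
  intro m
  obtain ⟨s, A, B, hA, hB, h⟩ := dim_null hS h0 h1 hno
  set M0 : ℕ := (ν + 1) * (s + 1) with hM0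
  -- forms of degree `M0`
  have hfin : FiniteDimensional ℂ (homogeneousSubmodule (Fin (ν + 1)) ℂ M0) := by
    have hle : homogeneousSubmodule (Fin (ν + 1)) ℂ M0 ≤ restrictTotalDegree (Fin (ν + 1)) ℂ M0 := by
      intro p hp
      rw [mem_restrictTotalDegree]
      exact ((mem_homogeneousSubmodule _ _).1 hp).totalDegree_le
    have hf : FiniteDimensional ℂ (restrictTotalDegree (Fin (ν + 1)) ℂ M0) := by
      infer_instance
    exact Submodule.finiteDimensional_of_le hle
  set D : ℕ := Module.finrank ℂ (homogeneousSubmodule (Fin (ν + 1)) ℂ M0) with hD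
  set r : ℕ := 2 * D with hr
  -- the points of the curve
  let Z : Type := {z : Fin (ν + 1) → ℂ // ∀ g ∈ S, eval z g = 0}
  let Φ : (Fin (r + 1) → homogeneousSubmodule (Fin (ν + 1)) ℂ M0) →ₗ[ℂ] (Z → ℂ) :=
    { toFun := fun G z => ∑ i : Fin (r + 1), eval z.1 l₀ ^ (i : ℕ) * eval z.1 l₁ ^ (r - i) *
        eval z.1 (G i).1
      map_add' := by
        intro G G'
        funext z
        simp only [Pi.add_apply, Submodule.coe_add, map_add, mul_add, Finset.sum_add_distrib]
      map_smul' := by
        intro c G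
        funext z
        simp only [Pi.smul_apply, Submodule.coe_smul, smul_eval, RingHom.id_apply, smul_eq_mul,
          Finset.mul_sum]
        refine Finset.sum_congr rfl fun i _ => ?_
        ring }
  let mf : Fin 3 → MvPolynomial (Fin (ν + 1)) ℂ := fun j => ∑ i, C (algebraMap K ℂ (m j i)) * X i
  have hmf : ∀ j, (mf j).IsHomogeneous 1 := by
    intro j
    refine IsHomogeneous.sum _ _ _ fun i _ => ?_
    have := (isHomogeneous_C (Fin (ν + 1)) (algebraMap K ℂ (m j i))).mul
      (isHomogeneous_X ℂ i)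
    rwa [zero_add] at this
  let Ψ : homogeneousSubmodule (Fin 3) ℂ (M0 + r) →ₗ[ℂ] (Z → ℂ) :=
    { toFun := fun G z => eval (fun j => eval z.1 (mf j)) G.1
      map_add' := by
        intro G G'
        funext z
        simp only [Pi.add_apply, Submodule.coe_add, map_add]
      map_smul' := by
        intro c G
        funext z
        simp only [Pi.smul_apply, Submodule.coe_smul, smul_eval, RingHom.id_apply, smul_eq_mul] }
  have hrange : ∀ G, Ψ G ∈ LinearMap.range Φ := by
    intro G
    have hhom : (bind₁ mf G.1).IsHomogeneous (M0 + r) := by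
      have h1 := ((mem_homogeneousSubmodule _ _).1 G.2).aeval mf hmf
      rw [one_mul] at h1
      exact h1
    obtain ⟨Q, hQ, hQ'⟩ := dim_expand hA hB h r (bind₁ mf G.1) hhom
    refine ⟨fun i => ⟨Q i, (mem_homogeneousSubmodule _ _).2 (hQ i)⟩, ?_⟩
    funext z
    have h2 := hQ' z.1 z.2
    change ∑ i : Fin (r + 1), eval z.1 l₀ ^ (i : ℕ) * eval z.1 l₁ ^ (r - i) *
        eval z.1 (Q i) = eval (fun j => eval z.1 (mf j)) G.1
    rw [← Fin.sum_univ_eq_sum_range (fun i => eval z.1 l₀ ^ i * eval z.1 l₁ ^ (r - i) *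
        eval z.1 (Q i)) (r + 1)] at h2
    rw [← h2]
    have h3 : eval z.1 (bind₁ mf G.1) = eval (fun j => eval z.1 (mf j)) G.1 := by
      have := eval₂Hom_bind₁ (RingHom.id ℂ) z.1 mf G.1
      exact this
    exact h3
  obtain ⟨hfin3, hdim3⟩ := Pool.Agent.Helper30.TP.finrank_forms ℂ (M0 + r)
  have hninj : ¬ Function.Injective Ψ := by
    intro hinj
    have h1 : Function.Injective (Ψ.codRestrict (LinearMap.range Φ) hrange) := by
      intro a b hab
      apply hinj
      exact congrArg Subtype.val hab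
    have hfr : FiniteDimensional ℂ (LinearMap.range Φ) := by infer_instance
    have h2 := LinearMap.finrank_le_finrank_of_injective h1
    have h3 : Module.finrank ℂ (LinearMap.range Φ) ≤ (r + 1) * D := by
      refine (LinearMap.finrank_range_le Φ).trans ?_
      rw [Module.finrank_pi_fintype]
      simp [hD]
    rw [hdim3] at h2
    have h4 : (r + 2).choose 2 ≤ (M0 + r + 2).choose 2 := Nat.choose_le_choose 2 (by omega)
    have h5 : (r + 2).choose 2 * 2 = (r + 2) * (r + 1) := by
      rw [Nat.choose_two_right, Nat.div_mul_cancel]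
      · rfl
      · exact (Nat.even_mul_pred_self (r + 2)).two_dvd
    have h6 : (r + 2) * (r + 1) ≤ 2 * ((r + 1) * D) := by
      calc (r + 2) * (r + 1) = (r + 2).choose 2 * 2 := h5.symm
        _ ≤ ((r + 1) * D) * 2 := by
            apply Nat.mul_le_mul_right
            omega
        _ = _ := by ring
    have h7 : (r + 2) * (r + 1) = 2 * ((r + 1) * D) + 2 * (r + 1) := by
      rw [hr]; ring
    omega
  obtain ⟨G, hG, hG0⟩ : ∃ G, Ψ G = 0 ∧ G ≠ 0 := by
    rw [← LinearMap.ker_eq_bot, Submodule.eq_bot_iff] at hninj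
    push Not at hninj
    obtain ⟨G, hG, hG0⟩ := hninj
    exact ⟨G, LinearMap.mem_ker.1 hG, hG0⟩
  obtain ⟨g, hg⟩ := G
  have hg0 : g ≠ 0 := by
    rintro rfl
    exact hG0 rfl
  have hgh : g.IsHomogeneous (M0 + r) := (mem_homogeneousSubmodule _ _).1 hg
  -- a form over `K`
  obtain ⟨ℓ, hℓ⟩ : ∃ ℓ : ℂ →ₗ[K] K, Pool.Agent.Helper30.TP.lam ℓ g ≠ 0 := by
    obtain ⟨t, ht⟩ := Pool.Agent.Helper30.TP.ultra_expand (Module.Basis.ofVectorSpace K ℂ) g
    by_contra hcon
    push Not at hcon
    apply hg0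
    rw [ht]
    apply Finset.sum_eq_zero
    intro l _
    rw [hcon, map_zero, mul_zero]
  refine ⟨Pool.Agent.Helper30.TP.lam ℓ g, M0 + r, Pool.Agent.Helper30.TP.ultra_lam_hom ℓ hgh, hℓ, ?_⟩
  filter_upwards [hU] with n hn
  rw [Pool.Agent.Helper30.TP.ultra_eval_lam]
  have h2 : eval (fun j => eval (fun i => algebraMap K ℂ (x n i)) (mf j)) g = 0 :=
    congrFun hG ⟨fun i => algebraMap K ℂ (x n i), hn⟩
  have h3 : (fun j => algebraMap K ℂ (∑ i, m j i * x n i)) =
      fun j => eval (fun i => algebraMap K ℂ (x n i)) (mf j) := by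
    funext j
    simp only [mf, map_sum, map_mul, eval_C, eval_X]
  rw [h3, h2, map_zero]

end Pool.Agent.Helper38.TQ
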