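import Pool.Agent.Helper38.TQ.PtHeight
import Pool.Agent.Helper38.TQ.Basic

/-!
# Noether normalisation: two linear forms which dominate all coordinates
-/

set_option autoImplicit false

namespace Pool.Agent.Helper38.TQ

open MvPolynomial
open Pool.Agent.Helper16 (Place IsFunctionField)

variable {ν : ℕ}

namespace Noe

theorem exists_cc {k K : Type} [Field k] [Infinite k] [Field K] [Algebra k K]
    {P : MvPolynomial (Fin 3) K} {e : ℕ} (hP : P.IsHomogeneous e) (h0 : P ≠ 0) :
    ∃ c c' : k, eval ![algebraMap k K c, algebraMap k K c', 1] P ≠ 0 := by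
  by_contra hcon
  push Not at hcon
  apply h0
  have hinj : Function.Injective (algebraMap k K) := (algebraMap k K).injective
  have h1 : X 2 * P = 0 := by
    refine MvPolynomial.funext_set (fun _ : Fin 3 => Set.range (algebraMap k K))
      (fun _ => Set.infinite_range_of_injective hinj) fun y hy => ?_
    rw [map_zero, map_mul, eval_X]
    by_cases h2 : y 2 = 0
    · rw [h2, zero_mul]
    · obtain ⟨z0, hz0⟩ := hy 0 (Set.mem_univ _)
      obtain ⟨z1, hz1⟩ := hy 1 (Set.mem_univ _)
      obtain ⟨z2, hz2⟩ := hy 2 (Set.mem_univ _)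
      have hz2' : z2 ≠ 0 := by
        rintro rfl
        rw [map_zero] at hz2
        exact h2 hz2.symm
      have h3 : y = y 2 • ![algebraMap k K (z0 / z2), algebraMap k K (z1 / z2), 1] := by
        funext i
        fin_cases i
        · simp [map_div₀, hz0, hz2]
          field_simp
        · simp [map_div₀, hz1, hz2]
          field_simp
        · simp
      rw [h3, eval_smul_hom (ν := 2) hP, hcon, mul_zero, mul_zero]
  rcases mul_eq_zero.1 h1 with h | h
  · exact absurd h (X_ne_zero _)
  · exact h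

section

variable {K : Type} [Field K] (v : Valuation K (WithZero (Multiplicative ℤ)))

theorem rel_mul {R D : WithZero (Multiplicative ℤ)} {X Y X' Y' : K} {s s' : ℕ}
    (hX : v X ≤ R ^ s) (hY' : v Y' ≤ R ^ s')
    (h : R * v (X - Y) ≤ D * R ^ s) (h' : R * v (X' - Y') ≤ D * R ^ s') :
    R * v (X * X' - Y * Y') ≤ D * R ^ (s + s') := by
  have h1 : X * X' - Y * Y' = X * (X' - Y') + (X - Y) * Y' := by ring
  rw [h1]
  have h2 : v (X * (X' - Y') + (X - Y) * Y') ≤ max (v X * v (X' - Y')) (v (X - Y) * v Y') := by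
    rw [← map_mul, ← map_mul]
    exact v.map_add _ _
  calc R * v (X * (X' - Y') + (X - Y) * Y') ≤
        R * max (v X * v (X' - Y')) (v (X - Y) * v Y') := mul_le_mul_right h2 _
    _ ≤ D * R ^ (s + s') := by
      rcases max_choice (v X * v (X' - Y')) (v (X - Y) * v Y') with h3 | h3
      · rw [h3]
        calc R * (v X * v (X' - Y')) = v X * (R * v (X' - Y')) := mul_left_comm _ _ _
          _ ≤ R ^ s * (D * R ^ s') := mul_le_mul' hX h'
          _ = D * R ^ (s + s') := by rw [pow_add, mul_left_comm]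
      · rw [h3]
        calc R * (v (X - Y) * v Y') = (R * v (X - Y)) * v Y' := (mul_assoc _ _ _).symm
          _ ≤ (D * R ^ s) * R ^ s' := mul_le_mul' h hY'
          _ = D * R ^ (s + s') := by rw [pow_add, mul_assoc]

theorem rel_pow {R D : WithZero (Multiplicative ℤ)} {X Y : K}
    (hX : v X ≤ R) (hY : v Y ≤ R) (h : v (X - Y) ≤ D) (s : ℕ) :
    R * v (X ^ s - Y ^ s) ≤ D * R ^ s := by
  induction s with
  | zero => simp
  | succ s ih =>
    rw [pow_succ X, pow_succ Y]
    refine rel_mul v ?_ (s' := 1) ?_ ih ?_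
    · rw [map_pow]
      exact pow_le_pow_left' hX s
    · rwa [pow_one]
    · rw [pow_one, mul_comm]
      exact mul_le_mul_left h R

theorem rel_mono {R D : WithZero (Multiplicative ℤ)} {a b : Fin 3 → K}
    (ha : ∀ i, v (a i) ≤ R) (hb : ∀ i, v (b i) ≤ R) (h : ∀ i, v (a i - b i) ≤ D)
    (m : Fin 3 →₀ ℕ) :
    R * v ((∏ i, a i ^ m i) - ∏ i, b i ^ m i) ≤ D * R ^ (∑ i, m i) := by
  rw [Fin.prod_univ_three, Fin.prod_univ_three, Fin.sum_univ_three]
  have hp : ∀ i, v (a i ^ m i) ≤ R ^ m i := fun i => by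
    rw [map_pow]; exact pow_le_pow_left' (ha i) _
  have hq : ∀ i, v (b i ^ m i) ≤ R ^ m i := fun i => by
    rw [map_pow]; exact pow_le_pow_left' (hb i) _
  refine rel_mul v ?_ (hq 2) (rel_mul v (hp 0) (hq 1) (rel_pow v (ha 0) (hb 0) (h 0) _)
    (rel_pow v (ha 1) (hb 1) (h 1) _)) (rel_pow v (ha 2) (hb 2) (h 2) _)
  rw [map_mul, pow_add]
  exact mul_le_mul' (hp 0) (hp 1)

theorem rel_eval {R D G : WithZero (Multiplicative ℤ)} {a b : Fin 3 → K}
    (ha : ∀ i, v (a i) ≤ R) (hb : ∀ i, v (b i) ≤ R) (h : ∀ i, v (a i - b i) ≤ D)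
    {P : MvPolynomial (Fin 3) K} {e : ℕ} (hP : P.IsHomogeneous e)
    (hG : ∀ m, v (coeff m P) ≤ G) :
    R * v (eval a P - eval b P) ≤ G * (D * R ^ e) := by
  rw [eval_eq', eval_eq', ← Finset.sum_sub_distrib]
  by_cases hR : R = 0
  · rw [hR, zero_mul]
    exact zero_le
  have h1 : v (∑ m ∈ P.support, (coeff m P * ∏ i, a i ^ m i - coeff m P * ∏ i, b i ^ m i)) ≤
      R⁻¹ * (G * (D * R ^ e)) := by
    refine v.map_sum_le fun m hm => ?_
    rw [← mul_sub, map_mul]
    have hd : ∑ i, m i = e := by
      have := hP (MvPolynomial.mem_support_iff.1 hm)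
      rw [Finsupp.weight_apply] at this
      rw [← this, Finsupp.sum_fintype _ _ (by simp)]
      simp
    have h2 := rel_mono v ha hb h m
    rw [hd] at h2
    have h3 : v (∏ i, a i ^ m i - ∏ i, b i ^ m i) ≤ R⁻¹ * (D * R ^ e) := by
      rwa [le_inv_mul_iff₀ (zero_lt_iff.2 hR)]
    calc v (coeff m P) * v (∏ i, a i ^ m i - ∏ i, b i ^ m i) ≤ G * (R⁻¹ * (D * R ^ e)) :=
          mul_le_mul' (hG m) h3
      _ = R⁻¹ * (G * (D * R ^ e)) := mul_left_comm _ _ _
  rwa [le_inv_mul_iff₀ (zero_lt_iff.2 hR)] at h1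

end

theorem exists_bound {k K : Type} [Field k] [IsAlgClosed k] [Field K] [Algebra k K]
    (hK : IsFunctionField k K) (P : MvPolynomial (Fin 3) K) (γ : K) (hγ : γ ≠ 0) :
    ∃ C : Place k K → ℤ, (∀ b, 0 ≤ C b) ∧ (Function.support C).Finite ∧
      ∀ (b : Place k K) (m : Fin 3 →₀ ℕ), b.val (coeff m P) ≤ b.val γ * WithZero.exp (C b) := by
  classical
  refine ⟨fun b => |WithZero.log (b.val γ)| +
    ∑ m ∈ P.support, |WithZero.log (b.val (coeff m P))|, ?_, ?_, ?_⟩
  · intro b
    exact add_nonneg (abs_nonneg _) (Finset.sum_nonneg fun _ _ => abs_nonneg _)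
  · have h1 : (Function.support fun b : Place k K => WithZero.log (b.val γ)).Finite :=
      (finsum_log hK γ hγ).1
    have h2 : (⋃ m ∈ P.support,
        Function.support fun b : Place k K => WithZero.log (b.val (coeff m P))).Finite :=
      Set.Finite.biUnion (Finset.finite_toSet _) fun m hm =>
        (finsum_log hK _ (MvPolynomial.mem_support_iff.1 hm)).1
    refine (h1.union h2).subset ?_
    intro b hb
    by_contra h3
    apply hb
    rw [Set.mem_union, not_or] at h3
    have h4 : WithZero.log (b.val γ) = 0 := by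
      by_contra h; exact h3.1 h
    have h5 : ∀ m ∈ P.support, |WithZero.log (b.val (coeff m P))| = 0 := by
      intro m hm
      rw [abs_eq_zero]
      by_contra h
      apply h3.2
      rw [Set.mem_iUnion₂]
      exact ⟨m, hm, h⟩
    show |WithZero.log (b.val γ)| + ∑ m ∈ P.support, |WithZero.log (b.val (coeff m P))| = 0
    rw [h4, Finset.sum_eq_zero h5, abs_zero, add_zero]
  · intro b m
    by_cases hm : coeff m P = 0
    · rw [hm, map_zero]
      exact zero_le
    have hg : b.val γ ≠ 0 := by simpa using hγ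
    have hc : b.val (coeff m P) ≠ 0 := by simpa using hm
    rw [← WithZero.exp_log hc, ← WithZero.exp_log hg, ← WithZero.exp_add, WithZero.exp_le_exp]
    have h1 : |WithZero.log (b.val (coeff m P))| ≤
        ∑ m ∈ P.support, |WithZero.log (b.val (coeff m P))| :=
      Finset.single_le_sum (f := fun m => |WithZero.log (b.val (coeff m P))|)
        (fun _ _ => abs_nonneg _) (MvPolynomial.mem_support_iff.2 hm)
    have h2 := le_abs_self (WithZero.log (b.val (coeff m P)))
    have h3 := neg_abs_le (WithZero.log (b.val γ))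
    show WithZero.log (b.val (coeff m P)) ≤ WithZero.log (b.val γ) +
      (|WithZero.log (b.val γ)| + ∑ m ∈ P.support, |WithZero.log (b.val (coeff m P))|)
    linarith

theorem key {k K : Type} [Field k] [IsAlgClosed k] [Field K] [Algebra k K]
    (hK : IsFunctionField k K) {P : MvPolynomial (Fin 3) K} {e : ℕ} (hP : P.IsHomogeneous e)
    (h0 : P ≠ 0) :
    ∃ (c c' : k) (C : Place k K → ℤ), (∀ b, 0 ≤ C b) ∧ (Function.support C).Finite ∧
      ∀ (y : Fin 3 → K), eval y P = 0 → ∀ b : Place k K,
        b.val (y 2) ≤ WithZero.exp (C b) *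
          max (b.val (y 0 - algebraMap k K c * y 2)) (b.val (y 1 - algebraMap k K c' * y 2)) := by
  have : Infinite k := inferInstance
  obtain ⟨c, c', hcc⟩ := exists_cc (k := k) hP h0
  set γ : K := eval ![algebraMap k K c, algebraMap k K c', 1] P with hγ
  obtain ⟨C, hC0, hCf, hC⟩ := exists_bound hK P γ hcc
  refine ⟨c, c', C, hC0, hCf, ?_⟩
  intro y hy b
  set u : K := y 0 - algebraMap k K c * y 2 with hu
  set u' : K := y 1 - algebraMap k K c' * y 2 with hu'
  set M := max (b.val u) (b.val u') with hM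
  have hexp : (1 : WithZero (Multiplicative ℤ)) ≤ WithZero.exp (C b) := by
    rw [← WithZero.exp_zero, WithZero.exp_le_exp]
    exact hC0 b
  by_cases hv : b.val (y 2) ≤ M
  · calc b.val (y 2) ≤ M := hv
      _ = 1 * M := (one_mul _).symm
      _ ≤ _ := mul_le_mul_left hexp M
  rw [not_le] at hv
  have hcv : ∀ a : k, b.val (algebraMap k K a * y 2) ≤ b.val (y 2) := by
    intro a
    rw [map_mul]
    calc b.val (algebraMap k K a) * b.val (y 2) ≤ 1 * b.val (y 2) :=
          mul_le_mul_left (b.val_algebraMap_le a) _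
      _ = _ := one_mul _
  have hy0 : y 0 = u + algebraMap k K c * y 2 := by rw [hu]; ring
  have hy1 : y 1 = u' + algebraMap k K c' * y 2 := by rw [hu']; ring
  have h1 := rel_eval b.val (R := b.val (y 2)) (D := M) (G := b.val γ * WithZero.exp (C b))
    (a := y 2 • ![algebraMap k K c, algebraMap k K c', 1]) (b := y) ?_ ?_ ?_ hP (hC b)
  · rw [eval_smul_hom (ν := 2) hP, hy, sub_zero, ← hγ, map_mul, map_pow] at h1
    have hvpos : 0 < b.val (y 2) := lt_of_le_of_lt zero_le hv
    have hγv : 0 < b.val γ := zero_lt_iff.2 (by simpa using hcc)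
    have h2 : (b.val (y 2) ^ e * b.val γ) * b.val (y 2) ≤
        (b.val (y 2) ^ e * b.val γ) * (WithZero.exp (C b) * M) := by
      calc (b.val (y 2) ^ e * b.val γ) * b.val (y 2) =
            b.val (y 2) * (b.val (y 2) ^ e * b.val γ) := mul_comm _ _
        _ ≤ _ := h1
        _ = _ := by ac_rfl
    exact le_of_mul_le_mul_left h2 (mul_pos (pow_pos hvpos e) hγv)
  · intro i
    fin_cases i
    · show b.val (y 2 * algebraMap k K c) ≤ _
      rw [mul_comm]; exact hcv c
    · show b.val (y 2 * algebraMap k K c') ≤ _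
      rw [mul_comm]; exact hcv c'
    · show b.val (y 2 * 1) ≤ _
      rw [mul_one]
  · intro i
    fin_cases i
    · show b.val (y 0) ≤ _
      rw [hy0]
      exact (b.val.map_add _ _).trans (max_le ((le_max_left _ _).trans hv.le) (hcv c))
    · show b.val (y 1) ≤ _
      rw [hy1]
      exact (b.val.map_add _ _).trans (max_le ((le_max_right _ _).trans hv.le) (hcv c'))
    · exact le_rfl
  · intro i
    fin_cases i
    · show b.val (y 2 * algebraMap k K c - y 0) ≤ M
      have : y 2 * algebraMap k K c - y 0 = -u := by rw [hu]; ring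
      rw [this, Valuation.map_neg]
      exact le_max_left _ _
    · show b.val (y 2 * algebraMap k K c' - y 1) ≤ M
      have : y 2 * algebraMap k K c' - y 1 = -u' := by rw [hu']; ring
      rw [this, Valuation.map_neg]
      exact le_max_right _ _
    · show b.val (y 2 * 1 - y 2) ≤ M
      rw [mul_one, sub_self, map_zero]
      exact zero_le

theorem lin_sub_smul {k K : Type} [Field k] [Field K] [Algebra k K] (a v : Fin (ν + 1) → k)
    (c : k) (x : Fin (ν + 1) → K) :
    lin (a - c • v) x = lin a x - algebraMap k K c * lin v x := by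
  unfold lin
  rw [Finset.mul_sum, ← Finset.sum_sub_distrib]
  refine Finset.sum_congr rfl fun i _ => ?_
  rw [Pi.sub_apply, Pi.smul_apply, smul_eq_mul, map_sub, map_mul]
  ring

theorem lin_single {k K : Type} [Field k] [Field K] [Algebra k K] (i : Fin (ν + 1))
    (x : Fin (ν + 1) → K) : lin (Pi.single i (1 : k)) x = x i := by
  classical
  unfold lin
  rw [Finset.sum_eq_single i]
  · simp
  · intro j _ hj
    rw [Pi.single_eq_of_ne hj, map_zero, zero_mul]
  · intro h
    exact absurd (Finset.mem_univ i) h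

theorem main {k K : Type} [Field k] [IsAlgClosed k] [Field K] [Algebra k K]
    (hK : IsFunctionField k K) {x : ℕ → Fin (ν + 1) → K} {U : Ultrafilter ℕ}
    (hx : OnCurve U x) (l : List (Fin (ν + 1) → k)) :
    ∀ p q : Fin (ν + 1) → k,
    ∃ (a₀ a₁ : Fin (ν + 1) → k) (C : Place k K → ℤ), (∀ b, 0 ≤ C b) ∧
      (Function.support C).Finite ∧
      ∀ᶠ n in (U : Filter ℕ), ∀ (b : Place k K), ∀ w ∈ p :: q :: l,
        b.val (lin w (x n)) ≤
          WithZero.exp (C b) * max (b.val (lin a₀ (x n))) (b.val (lin a₁ (x n))) := by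
  induction l with
  | nil =>
    intro p q
    refine ⟨p, q, fun _ => 0, fun _ => le_rfl, by simp, Filter.Eventually.of_forall ?_⟩
    intro n b w hw
    rw [WithZero.exp_zero, one_mul]
    rcases List.mem_cons.1 hw with rfl | hw
    · exact le_max_left _ _
    · rcases List.mem_cons.1 hw with rfl | hw
      · exact le_max_right _ _
      · exact absurd hw List.not_mem_nil
  | cons v l ih =>
    intro p q
    obtain ⟨P, e, hPh, hP0, hP⟩ := hx ![fun i => algebraMap k K (p i),
      fun i => algebraMap k K (q i), fun i => algebraMap k K (v i)]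
    obtain ⟨c, c', C1, hC1, hC1f, hkey⟩ := key hK hPh hP0
    obtain ⟨a₀, a₁, C2, hC2, hC2f, hev⟩ := ih (p - c • v) (q - c' • v)
    refine ⟨a₀, a₁, fun b => C1 b + C2 b, fun b => add_nonneg (hC1 b) (hC2 b),
      (hC1f.union hC2f).subset (Function.support_add _ _), ?_⟩
    filter_upwards [hP, hev] with n hn1 hn2
    intro b
    have h1 := hkey _ hn1 b
    have h1' : b.val (lin v (x n)) ≤ WithZero.exp (C1 b) *
        max (b.val (lin p (x n) - algebraMap k K c * lin v (x n)))
          (b.val (lin q (x n) - algebraMap k K c' * lin v (x n))) := h1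
    rw [← lin_sub_smul, ← lin_sub_smul] at h1'
    set N := max (b.val (lin a₀ (x n))) (b.val (lin a₁ (x n))) with hN
    have hp := hn2 b (p - c • v) (by simp)
    have hq := hn2 b (q - c' • v) (by simp)
    have hle : WithZero.exp (C2 b) * N ≤ WithZero.exp (C1 b + C2 b) * N := by
      refine mul_le_mul_left ?_ N
      rw [WithZero.exp_le_exp]
      have := hC1 b
      omega
    have hv : b.val (lin v (x n)) ≤ WithZero.exp (C1 b + C2 b) * N := by
      calc _ ≤ _ := h1'
        _ ≤ WithZero.exp (C1 b) * (WithZero.exp (C2 b) * N) :=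
            mul_le_mul_right (max_le hp hq) _
        _ = _ := by rw [WithZero.exp_add, mul_assoc]
    have hcv : ∀ a : k, b.val (algebraMap k K a * lin v (x n)) ≤
        WithZero.exp (C1 b + C2 b) * N := by
      intro a
      rw [map_mul]
      calc b.val (algebraMap k K a) * b.val (lin v (x n)) ≤ 1 * b.val (lin v (x n)) :=
            mul_le_mul_left (b.val_algebraMap_le a) _
        _ = b.val (lin v (x n)) := one_mul _
        _ ≤ _ := hv
    intro w hw
    rcases List.mem_cons.1 hw with rfl | hw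
    · have h2 : lin w (x n) = lin (w - c • v) (x n) + algebraMap k K c * lin v (x n) := by
        rw [lin_sub_smul]; ring
      rw [h2]
      exact (b.val.map_add _ _).trans (max_le (hp.trans hle) (hcv c))
    · rcases List.mem_cons.1 hw with rfl | hw
      · have h2 : lin w (x n) = lin (w - c' • v) (x n) + algebraMap k K c' * lin v (x n) := by
          rw [lin_sub_smul]; ring
        rw [h2]
        exact (b.val.map_add _ _).trans (max_le (hq.trans hle) (hcv c'))
      · rcases List.mem_cons.1 hw with rfl | hw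
        · exact hv
        · exact (hn2 b w (List.mem_cons_of_mem _ (List.mem_cons_of_mem _ hw))).trans hle

end Noe

theorem exists_two_forms {k K : Type} [Field k] [IsAlgClosed k] [Field K] [Algebra k K]
    (hK : IsFunctionField k K) {x : ℕ → Fin (ν + 1) → K} {U : Ultrafilter ℕ}
    (hx : OnCurve U x) :
    ∃ (a₀ a₁ : Fin (ν + 1) → k) (C : Place k K → ℤ), (∀ b, 0 ≤ C b) ∧
      (Function.support C).Finite ∧
      ∀ᶠ n in (U : Filter ℕ), ∀ (b : Place k K) (i : Fin (ν + 1)),
        b.val (x n i) ≤
          WithZero.exp (C b) * max (b.val (lin a₀ (x n))) (b.val (lin a₁ (x n))) := by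
  classical
  obtain ⟨a₀, a₁, C, h1, h2, h3⟩ := Noe.main hK hx
    ((List.finRange (ν + 1)).map fun i => (Pi.single i 1 : Fin (ν + 1) → k)) 0 0
  refine ⟨a₀, a₁, C, h1, h2, ?_⟩
  filter_upwards [h3] with n hn b i
  have h4 := hn b (Pi.single i 1) (List.mem_cons_of_mem _ (List.mem_cons_of_mem _
    (List.mem_map.2 ⟨i, List.mem_finRange i, rfl⟩)))
  rwa [Noe.lin_single] at h4

end Pool.Agent.Helper38.TQ
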