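import Pool.Agent.Helper30.TP.FormHeight
import Pool.Agent.Helper30.TP.Cl

/-!
# The cross product of two points dominates the minors of two forms of the same degree
-/

set_option autoImplicit false

namespace Pool.Agent.Helper38.TQ

open MvPolynomial
open Pool.Agent.Helper16 (Place IsFunctionField)
open Pool.Agent.Helper30.TP (gs nrm)

/-- A monomial of positive degree has a variable. -/
theorem exists_single {m : Fin 3 →₀ ℕ} {e : ℕ} (hm : m.degree = e + 1) :
    ∃ (i : Fin 3) (m' : Fin 3 →₀ ℕ), m = m' + Finsupp.single i 1 ∧ m'.degree = e := by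
  obtain ⟨i, hi⟩ : ∃ i, m i ≠ 0 := by
    by_contra hcon
    push Not at hcon
    have : m = 0 := Finsupp.ext hcon
    rw [this] at hm
    simp at hm
  have h1 : Finsupp.single i 1 ≤ m := by
    rw [Finsupp.single_le_iff]
    omega
  refine ⟨i, m - Finsupp.single i 1, (tsub_add_cancel_of_le h1).symm, ?_⟩
  have h2 : m.degree = (m - Finsupp.single i 1).degree + 1 := by
    conv_lhs => rw [← tsub_add_cancel_of_le h1]
    rw [map_add, Finsupp.degree_single]
  omega

/-- The value of a monomial. -/
def wmon {K : Type} [Field K] (y : Fin 3 → K) (m : Fin 3 →₀ ℕ) : K := ∏ i, y i ^ m i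

theorem wmon_add_single {K : Type} [Field K] (y : Fin 3 → K) (m : Fin 3 →₀ ℕ) (i : Fin 3) :
    wmon y (m + Finsupp.single i 1) = wmon y m * y i := by
  classical
  unfold wmon
  simp only [Finsupp.add_apply, pow_add, Finset.prod_mul_distrib]
  congr 1
  rw [Finset.prod_eq_single i]
  · simp
  · intro j _ hj
    rw [Finsupp.single_apply, if_neg (Ne.symm hj), pow_zero]
  · intro h
    exact absurd (Finset.mem_univ _) h

theorem val_wmon_le {k K : Type} [Field k] [Field K] [Algebra k K] (b : Place k K)
    (y : Fin 3 → K) : ∀ (e : ℕ) (m : Fin 3 →₀ ℕ), m.degree = e →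
      b.val (wmon y m) ≤ nrm b y ^ e := by
  intro e
  induction e with
  | zero =>
    intro m hm
    have h0 : m = 0 := by
      rwa [Finsupp.degree_eq_zero_iff] at hm
    rw [h0]
    simp [wmon]
  | succ e ih =>
    intro m hm
    obtain ⟨i, m', rfl, hm'⟩ := exists_single hm
    rw [wmon_add_single, map_mul, pow_succ]
    exact mul_le_mul' (ih m' hm') (Pool.Agent.Helper30.TP.val_le_nrm b y i)

theorem wmon_wedge {k K : Type} [Field k] [Field K] [Algebra k K] (b : Place k K)
    (y y' : Fin 3 → K) : ∀ (e : ℕ) (m n : Fin 3 →₀ ℕ), m.degree = e + 1 → n.degree = e + 1 →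
      b.val (wmon y m * wmon y' n - wmon y n * wmon y' m) ≤
        nrm b (crossProduct y y') * nrm b y ^ e * nrm b y' ^ e := by
  intro e
  induction e with
  | zero =>
    intro m n hm hn
    obtain ⟨i, m', rfl, hm'⟩ := exists_single hm
    obtain ⟨j, n', rfl, hn'⟩ := exists_single hn
    have h1 : m' = 0 := by rwa [Finsupp.degree_eq_zero_iff] at hm'
    have h2 : n' = 0 := by rwa [Finsupp.degree_eq_zero_iff] at hn'
    subst h1
    subst h2
    rw [wmon_add_single, wmon_add_single, wmon_add_single, wmon_add_single]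
    have h3 : ∀ z : Fin 3 → K, wmon z 0 = 1 := fun z => by simp [wmon]
    rw [h3, h3, one_mul, one_mul, one_mul, one_mul, pow_zero, pow_zero, mul_one, mul_one]
    exact Pool.Agent.Helper30.TP.Cl_val_pq b y y' i j
  | succ e ih =>
    intro m n hm hn
    obtain ⟨i, m', rfl, hm'⟩ := exists_single hm
    obtain ⟨j, n', rfl, hn'⟩ := exists_single hn
    rw [wmon_add_single, wmon_add_single, wmon_add_single, wmon_add_single]
    have h1 : wmon y m' * y i * (wmon y' n' * y' j) - wmon y n' * y j * (wmon y' m' * y' i) =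
        wmon y m' * wmon y' n' * (y i * y' j - y j * y' i) +
          y j * y' i * (wmon y m' * wmon y' n' - wmon y n' * wmon y' m') := by ring
    rw [h1]
    refine (b.val.map_add _ _).trans (max_le ?_ ?_)
    · rw [map_mul, map_mul]
      calc b.val (wmon y m') * b.val (wmon y' n') * b.val (y i * y' j - y j * y' i)
          ≤ nrm b y ^ (e + 1) * nrm b y' ^ (e + 1) * nrm b (crossProduct y y') :=
            mul_le_mul' (mul_le_mul' (val_wmon_le b y _ _ hm') (val_wmon_le b y' _ _ hn'))
              (Pool.Agent.Helper30.TP.Cl_val_pq b y y' i j)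
        _ = _ := by rw [mul_comm, mul_assoc]
    · rw [map_mul, map_mul]
      calc b.val (y j) * b.val (y' i) * b.val (wmon y m' * wmon y' n' - wmon y n' * wmon y' m')
          ≤ nrm b y * nrm b y' * (nrm b (crossProduct y y') * nrm b y ^ e * nrm b y' ^ e) :=
            mul_le_mul' (mul_le_mul' (Pool.Agent.Helper30.TP.val_le_nrm b y j)
              (Pool.Agent.Helper30.TP.val_le_nrm b y' i)) (ih m' n' hm' hn')
        _ = _ := by
          rw [pow_succ, pow_succ]
          ac_rfl

theorem wedge_le {k K : Type} [Field k] [Field K] [Algebra k K] (b : Place k K) {e : ℕ}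
    {P Q : MvPolynomial (Fin 3) K} (hP : P.IsHomogeneous (e + 1)) (hQ : Q.IsHomogeneous (e + 1))
    (y y' : Fin 3 → K) :
    b.val (eval y P * eval y' Q - eval y Q * eval y' P) ≤
      gs b P * gs b Q * (nrm b (crossProduct y y') * nrm b y ^ e * nrm b y' ^ e) := by
  classical
  have hev : ∀ (R : MvPolynomial (Fin 3) K) (z : Fin 3 → K),
      eval z R = ∑ m ∈ R.support, R.coeff m * wmon z m := by
    intro R z
    rw [eval_eq']
    rfl
  have h1 : eval y P * eval y' Q - eval y Q * eval y' P =
      ∑ m ∈ P.support, ∑ n ∈ Q.support,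
        P.coeff m * Q.coeff n * (wmon y m * wmon y' n - wmon y n * wmon y' m) := by
    rw [hev, hev, hev, hev, Finset.sum_mul_sum, Finset.sum_mul_sum, Finset.sum_comm (s := Q.support),
      ← Finset.sum_sub_distrib]
    refine Finset.sum_congr rfl fun m _ => ?_
    rw [← Finset.sum_sub_distrib]
    refine Finset.sum_congr rfl fun n _ => ?_
    ring
  rw [h1]
  refine b.val.map_sum_le fun m hm => b.val.map_sum_le fun n hn => ?_
  rw [map_mul, map_mul]
  have hdm : m.degree = e + 1 := by
    have := hP (mem_support_iff.1 hm)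
    rw [← this, Finsupp.degree_eq_weight_one]
    rfl
  have hdn : n.degree = e + 1 := by
    have := hQ (mem_support_iff.1 hn)
    rw [← this, Finsupp.degree_eq_weight_one]
    rfl
  exact mul_le_mul' (mul_le_mul' (Pool.Agent.Helper30.TP.formHeight_le b P m)
    (Pool.Agent.Helper30.TP.formHeight_le b Q n)) (wmon_wedge b y y' e m n hdm hdn)

end Pool.Agent.Helper38.TQ
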