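import Pool.Agent.Helper38.TQ.Noether
import Pool.Agent.Helper38.TQ.Prim
import Pool.Agent.Helper38.TQ.Wedge
import Pool.Agent.Helper38.TQ.Minor
import Pool.Agent.Helper30.TP.Low
import Pool.Agent.Helper30.TP.Sup

/-!
# Points of a curve without common reductions
-/

set_option autoImplicit false

namespace Pool.Agent.Helper38.TQ

open MvPolynomial
open Pool.Agent.Helper16 (Place IsFunctionField)
open Pool.Agent.Helper36 (step iter iter_zero iter_succ iter_succ' iter_add iter_map)

variable {ν : ℕ}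

section

variable {k K : Type} [Field k] [IsAlgClosed k] [Field K] [Algebra k K]

theorem ht_iter_large (hK : IsFunctionField k K) {d : ℕ}
    {F : Fin (ν + 1) → MvPolynomial (Fin (ν + 1)) k} (hF : IsEndo d F) {x : Fin (ν + 1) → K}
    (hx : x ≠ 0) (hxc : ¬ IsConst k x) (n : ℕ) : (n : ℤ) < ht k (iter F x n) := by
  rw [ht_iter hK hF x hx]
  have h1 := one_le_ht hK x hx hxc
  have h2 : (n : ℤ) < d ^ n := by
    have h3 : n < 2 ^ n := Nat.lt_two_pow_self
    have h4 : 2 ^ n ≤ d ^ n := Nat.pow_le_pow_left hF.two_le n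
    exact_mod_cast h3.trans_le h4
  have h3 : (d : ℤ) ^ n ≤ d ^ n * ht k x := le_mul_of_one_le_right (by positivity) h1
  omega

/-- No binary relation between the two dominating linear forms. -/
theorem no_binary (hK : IsFunctionField k K) {d : ℕ}
    {F : Fin (ν + 1) → MvPolynomial (Fin (ν + 1)) k} (hF : IsEndo d F) {x : Fin (ν + 1) → K}
    (hx : x ≠ 0) (hxc : ¬ IsConst k x) {U : Ultrafilter ℕ} (hU : Free U)
    {a₀ a₁ : Fin (ν + 1) → k} {C : Place k K → ℤ}
    (hCs : (Function.support C).Finite)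
    (hdom : ∀ᶠ n in (U : Filter ℕ), ∀ (b : Place k K) (i : Fin (ν + 1)),
      b.val (iter F x n i) ≤ WithZero.exp (C b) *
        max (b.val (lin a₀ (iter F x n))) (b.val (lin a₁ (iter F x n))))
    (P : MvPolynomial (Fin 2) K) (e : ℕ) (hP : P.IsHomogeneous e) (hP0 : P ≠ 0) :
    ¬ ∀ᶠ n in (U : Filter ℕ), eval ![lin a₀ (iter F x n), lin a₁ (iter F x n)] P = 0 := by
  intro h
  have : Infinite k := IsAlgClosed.instInfinite
  have : Infinite K := Infinite.of_injective (algebraMap k K) (algebraMap k K).injective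
  obtain ⟨ρ, hρ, hc⟩ := exists_point_of_binary hP hP0 h
  have hρs := nrm_support (ν := 1) hK ρ hρ
  set B : ℤ := ∑ᶠ b : Place k K, C b + ht k (ν := 1) ρ with hB
  obtain ⟨n, ⟨hn1, c, hn2, hn3⟩, hn4⟩ := ((hdom.and hc).and (hU B.toNat)).exists
  have hxn := iter_ne_zero hF hx n
  -- the scalar is not zero
  have hb : ∀ b : Place k K, nrm b (iter F x n) ≤
      WithZero.exp (C b) * (b.val c * nrm (ν := 1) b ρ) := by
    intro b
    refine nrm_le fun i => (hn1 b i).trans ?_
    refine mul_le_mul_right ?_ _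
    rw [hn2, hn3, map_mul, map_mul]
    refine max_le ?_ ?_
    · exact mul_le_mul_right (val_le_nrm (ν := 1) b ρ 0) _
    · exact mul_le_mul_right (val_le_nrm (ν := 1) b ρ 1) _
  have hlarge := ht_iter_large hK hF hx hxc n
  by_cases hne : Nonempty (Place k K)
  · obtain ⟨b₀⟩ := hne
    have hc0 : c ≠ 0 := by
      rintro rfl
      have h1 := hb b₀
      rw [map_zero, zero_mul, mul_zero, le_zero_iff] at h1
      exact nrm_ne_zero hxn h1
    have hlog : ∀ b : Place k K, WithZero.log (nrm b (iter F x n)) ≤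
        C b + WithZero.log (b.val c) + WithZero.log (nrm (ν := 1) b ρ) := by
      intro b
      have hvc : b.val c ≠ 0 := by simpa using hc0
      have h1 := (WithZero.log_le_log (nrm_ne_zero hxn) (mul_ne_zero WithZero.exp_ne_zero
        (mul_ne_zero hvc (nrm_ne_zero hρ)))).2 (hb b)
      rw [WithZero.log_mul WithZero.exp_ne_zero (mul_ne_zero hvc (nrm_ne_zero hρ)),
        WithZero.log_mul hvc (nrm_ne_zero hρ), WithZero.log_exp] at h1
      omega
    have hcs := finsum_log hK c hc0
    have h5 : ht k (iter F x n) ≤ ∑ᶠ b : Place k K,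
        (C b + WithZero.log (b.val c) + WithZero.log (nrm (ν := 1) b ρ)) := by
      unfold ht
      exact finsum_le_finsum' (nrm_support hK _ hxn)
        (((hCs.union hcs.1).subset (Function.support_add _ _)).union hρs |>.subset
          (Function.support_add _ _)) hlog
    rw [finsum_add_distrib ((hCs.union hcs.1).subset (Function.support_add _ _)) hρs,
      finsum_add_distrib hCs hcs.1, hcs.2, add_zero] at h5
    have h6 : ht k (iter F x n) ≤ B := h5
    have h7 : B ≤ B.toNat := Int.self_le_toNat B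
    omega
  · have : ht k (iter F x n) = 0 := by
      rw [not_nonempty_iff] at hne
      exact finsum_of_isEmpty _
    omega

/-- The contact of two projected points. -/
theorem cl_le_of_minor (b : Place k K) {e : ℕ} {V : MvPolynomial (Fin 3) K}
    {P : Fin (ν + 1) → MvPolynomial (Fin 3) K} (hP : ∀ j, (P j).IsHomogeneous (e + 1))
    {x x' : Fin (ν + 1) → K} {y y' : Fin 3 → K} (hy : y ≠ 0) (hy' : y' ≠ 0)
    (hyx : Pool.Agent.Helper30.TP.nrm b y ≤ nrm b x)
    (hyx' : Pool.Agent.Helper30.TP.nrm b y' ≤ nrm b x')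
    (hV : eval y V ≠ 0) (hV' : eval y' V ≠ 0)
    (h : ∀ j, x j * eval y V = eval y (P j)) (h' : ∀ j, x' j * eval y' V = eval y' (P j))
    (hPE : ¬ Pool.Agent.Helper30.TP.PEq y y') {W : ℤ}
    (hW : ∀ p q, Pool.Agent.Helper30.TP.gs b (P p) * Pool.Agent.Helper30.TP.gs b (P q) ≤
      WithZero.exp W)
    (hm : ∃ p q, b.val (x p * x' q - x q * x' p) = nrm b x * nrm b x') :
    Pool.Agent.Helper30.TP.cl b y y' ≤ W +
      (e * WithZero.log (Pool.Agent.Helper30.TP.nrm b y) - WithZero.log (b.val (eval y V))) +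
      (e * WithZero.log (Pool.Agent.Helper30.TP.nrm b y') - WithZero.log (b.val (eval y' V))) := by
  obtain ⟨p, q, hpq⟩ := hm
  have hny := Pool.Agent.Helper30.TP.nrm_ne_zero (b := b) hy
  have hny' := Pool.Agent.Helper30.TP.nrm_ne_zero (b := b) hy'
  have hnc := Pool.Agent.Helper30.TP.nrm_ne_zero (b := b)
    (Pool.Agent.Helper30.TP.cross_ne_zero hy hy' hPE)
  have hv : b.val (eval y V) ≠ 0 := by simpa using hV
  have hv' : b.val (eval y' V) ≠ 0 := by simpa using hV'
  have h1 := wedge_le b (hP p) (hP q) y y'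
  have h2 : eval y (P p) * eval y' (P q) - eval y (P q) * eval y' (P p) =
      (eval y V * eval y' V) * (x p * x' q - x q * x' p) := by
    rw [← h, ← h, ← h', ← h']
    ring
  rw [h2, map_mul, map_mul, hpq] at h1
  have h3 : b.val (eval y V) * b.val (eval y' V) *
      (Pool.Agent.Helper30.TP.nrm b y * Pool.Agent.Helper30.TP.nrm b y') ≤
      WithZero.exp W * (Pool.Agent.Helper30.TP.nrm b (crossProduct y y') *
        Pool.Agent.Helper30.TP.nrm b y ^ e * Pool.Agent.Helper30.TP.nrm b y' ^ e) := by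
    refine (mul_le_mul_right (mul_le_mul' hyx hyx') _).trans (h1.trans ?_)
    exact mul_le_mul_left (hW p q) _
  have h4 := (WithZero.log_le_log (mul_ne_zero (mul_ne_zero hv hv') (mul_ne_zero hny hny'))
    (mul_ne_zero WithZero.exp_ne_zero (mul_ne_zero (mul_ne_zero hnc (pow_ne_zero _ hny))
      (pow_ne_zero _ hny')))).2 h3
  rw [WithZero.log_mul (mul_ne_zero hv hv') (mul_ne_zero hny hny'), WithZero.log_mul hv hv',
    WithZero.log_mul hny hny', WithZero.log_mul WithZero.exp_ne_zero
      (mul_ne_zero (mul_ne_zero hnc (pow_ne_zero _ hny)) (pow_ne_zero _ hny')),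
    WithZero.log_mul (mul_ne_zero hnc (pow_ne_zero _ hny)) (pow_ne_zero _ hny'),
    WithZero.log_mul hnc (pow_ne_zero _ hny), WithZero.log_exp, WithZero.log_pow,
    WithZero.log_pow, nsmul_eq_mul, nsmul_eq_mul] at h4
  unfold Pool.Agent.Helper30.TP.cl
  omega

theorem finsum_nonneg_const {α : Type*} (f : α → ℤ) (hf : ∀ a, 0 ≤ f a) : 0 ≤ ∑ᶠ a, f a :=
  finsum_nonneg hf

/-- A curve contains only finitely many points of an orbit without common reductions. -/
theorem engine [CharZero k] (hK : IsFunctionField k K) {d : ℕ}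
    {F : Fin (ν + 1) → MvPolynomial (Fin (ν + 1)) k} (hF : IsEndo d F) {x : Fin (ν + 1) → K}
    (hx : x ≠ 0) (hxc : ¬ IsConst k x)
    (hno : ∀ (b : Place k K) (z : Fin (ν + 1) → k), Red b x z → ¬ Preper F z)
    {U : Ultrafilter ℕ} (hU : Free U) (hcurve : OnCurve U (iter F x)) : False := by
  classical
  have : Infinite k := IsAlgClosed.instInfinite
  have hchar : CharZero K := charZero_of_injective_algebraMap (algebraMap k K).injective
  obtain ⟨a₀, a₁, C, hC0, hCs, hdom⟩ := exists_two_forms hK hcurve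
  have htr := fun P e hP hP0 => no_binary hK hF hx hxc hU (a₀ := a₀) (a₁ := a₁) hCs hdom P e hP hP0
  obtain ⟨a₂, e, V, P, hV, hP, hVP⟩ := exists_third_form hcurve a₀ a₁ htr
  set y : ℕ → Fin 3 → K := fun n =>
    ![lin a₀ (iter F x n), lin a₁ (iter F x n), lin a₂ (iter F x n)] with hy
  obtain ⟨Q, eQ, hQ, hQ0, hQv⟩ := hcurve fun j => ![fun i => algebraMap k K (a₀ i),
    fun i => algebraMap k K (a₁ i), fun i => algebraMap k K (a₂ i)] j
  have hQv' : ∀ᶠ n in (U : Filter ℕ), eval (y n) Q = 0 := by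
    filter_upwards [hQv] with n hn
    have h1 : (fun j : Fin 3 => ∑ i, (![fun i => algebraMap k K (a₀ i),
        fun i => algebraMap k K (a₁ i), fun i => algebraMap k K (a₂ i)] :
          Fin 3 → Fin (ν + 1) → K) j i * iter F x n i) = y n := by
      funext j
      fin_cases j <;> rfl
    rwa [h1] at hn
  obtain ⟨D, g, hg, hgi, hgv⟩ := exists_irreducible_form hQ hQ0 hQv'
  -- the set of times
  set S : Set ℕ := {n | (∀ (b : Place k K) (i : Fin (ν + 1)),
      b.val (iter F x n i) ≤ WithZero.exp (C b) *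
        max (b.val (lin a₀ (iter F x n))) (b.val (lin a₁ (iter F x n)))) ∧
      (eval (y n) V ≠ 0 ∧ ∀ j, iter F x n j * eval (y n) V = eval (y n) (P j)) ∧
      eval (y n) g = 0} with hS
  have hSU : S ∈ U := by
    filter_upwards [hdom, hVP, hgv] with n h1 h2 h3
    exact ⟨h1, h2, h3⟩
  have hSinf : S.Infinite := by
    intro hfin
    obtain ⟨n, hn1, hn2⟩ := Pool.Agent.Helper30.TP.ultra_exists_notMem hU hfin hSU
    exact hn2 hn1
  have hne : ∀ n, iter F x n ≠ 0 := fun n => iter_ne_zero hF hx n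
  have hdist := iter_distinct hK hF hx hxc
  have hy0 : ∀ n ∈ S, y n ≠ 0 := by
    intro n hn h0
    apply hne n
    funext j
    have h1 := hn.2.1.2 j
    rw [h0] at h1
    have h2 : eval (0 : Fin 3 → K) (P j) = 0 := by
      have h3 := Pool.Agent.Helper30.TP.eval_smul_hom (hP j) (0 : K) (0 : Fin 3 → K)
      rwa [zero_smul, zero_pow (Nat.succ_ne_zero e), zero_mul] at h3
    rw [h2, mul_eq_zero] at h1
    refine h1.resolve_right ?_
    have := hn.2.1.1
    rwa [h0] at this
  have hyd : ∀ n ∈ S, ∀ n' ∈ S, n ≠ n' → ¬ Pool.Agent.Helper30.TP.PEq (y n) (y n') := by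
    intro n hn n' hn' hnn h
    apply hdist n n' hnn
    obtain ⟨c, hc, h⟩ := h
    refine ⟨c, hc, funext fun j => ?_⟩
    have h1 := hn'.2.1.2 j
    have h2 := hn'.2.1.1
    rw [h, Pool.Agent.Helper30.TP.eval_smul_hom (hP j), Pool.Agent.Helper30.TP.eval_smul_hom hV,
      ← hn.2.1.2 j] at h1
    have h3 := hn.2.1.1
    have h4 : c ^ e * eval (y n) V ≠ 0 := mul_ne_zero (pow_ne_zero _ hc) h3
    apply mul_right_cancel₀ h4
    rw [h1, Pi.smul_apply, smul_eq_mul]
    ring
  obtain ⟨Γ, Cst, E, hΓS, hE, hlow⟩ := Pool.Agent.Helper30.TP.sum_ht_cross_le hK hSinf hy0 hyd hg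
    hgi (fun n hn => hn.2.2) (e + 1)
  -- the constants
  set W : Place k K → ℤ := fun b => ∑ j, max 0 (WithZero.log (Pool.Agent.Helper30.TP.gs b (P j)))
    with hWdef
  have hW0 : ∀ b, 0 ≤ W b := fun b => Finset.sum_nonneg fun j _ => le_max_left _ _
  have hgs_le : ∀ (b : Place k K) (j : Fin (ν + 1)),
      Pool.Agent.Helper30.TP.gs b (P j) ≤ WithZero.exp (W b) := by
    intro b j
    by_cases h0 : Pool.Agent.Helper30.TP.gs b (P j) = 0
    · rw [h0]; exact zero_le
    rw [← WithZero.log_le_log h0 WithZero.exp_ne_zero, WithZero.log_exp]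
    refine (le_max_right 0 _).trans ?_
    exact Finset.single_le_sum
      (f := fun j => max 0 (WithZero.log (Pool.Agent.Helper30.TP.gs b (P j))))
      (fun j _ => le_max_left _ _) (Finset.mem_univ j)
  have hgssupp : ∀ R : MvPolynomial (Fin 3) K, (Function.support fun b : Place k K =>
      max 0 (WithZero.log (Pool.Agent.Helper30.TP.gs b R))).Finite := by
    intro R
    by_cases h0 : R = 0
    · rw [h0]
      simp [Pool.Agent.Helper30.TP.formHeight_zero]
    · refine (Pool.Agent.Helper30.TP.formHeight_support hK h0).subset ?_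
      intro b hb h1
      apply hb
      show max 0 _ = (0 : ℤ)
      have h2 : WithZero.log (Pool.Agent.Helper30.TP.gs b R) = 0 := h1
      rw [h2, max_self]
  have hWs : (Function.support W).Finite :=
    Pool.Agent.Helper30.TP.sum_support_finite Finset.univ
      (fun j (b : Place k K) => max 0 (WithZero.log (Pool.Agent.Helper30.TP.gs b (P j))))
      (fun j _ => hgssupp (P j))
  have hWW : ∀ (b : Place k K) (p q : Fin (ν + 1)),
      Pool.Agent.Helper30.TP.gs b (P p) * Pool.Agent.Helper30.TP.gs b (P q) ≤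
        WithZero.exp (W b + W b) := by
    intro b p q
    rw [WithZero.exp_add]
    exact mul_le_mul' (hgs_le b p) (hgs_le b q)
  set w : ℕ → Place k K → ℤ := fun n b =>
    e * WithZero.log (Pool.Agent.Helper30.TP.nrm b (y n)) - WithZero.log (b.val (eval (y n) V))
    with hw
  set G : Place k K → ℤ := fun b => max 0 (WithZero.log (Pool.Agent.Helper30.TP.gs b V)) with hG
  have hGs : (Function.support G).Finite := hgssupp V
  have hG0 : ∀ b, 0 ≤ G b := fun b => le_max_left _ _
  have hsy : ∀ n ∈ S, (Function.support fun b : Place k K =>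
      WithZero.log (Pool.Agent.Helper30.TP.nrm b (y n))).Finite := fun n hn =>
    Pool.Agent.Helper30.TP.nrm_support hK _ (hy0 n hn)
  have hsv : ∀ n ∈ S, (Function.support fun b : Place k K =>
      WithZero.log (b.val (eval (y n) V))).Finite := fun n hn => (finsum_log hK _ hn.2.1.1).1
  have hsey : ∀ n ∈ S, (Function.support fun b : Place k K =>
      (e : ℤ) * WithZero.log (Pool.Agent.Helper30.TP.nrm b (y n))).Finite := by
    intro n hn
    refine (hsy n hn).subset ?_
    intro b hb h0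
    apply hb
    show (e : ℤ) * WithZero.log (Pool.Agent.Helper30.TP.nrm b (y n)) = 0
    have h1 : WithZero.log (Pool.Agent.Helper30.TP.nrm b (y n)) = 0 := h0
    rw [h1, mul_zero]
  have hsw : ∀ n ∈ S, (Function.support (w n)).Finite := fun n hn =>
    ((hsey n hn).union (hsv n hn)).subset (Function.support_sub _ _)
  have hwsum : ∀ n ∈ S, ∑ᶠ b, w n b = e * Pool.Agent.Helper30.TP.ht k (y n) := by
    intro n hn
    rw [hw]
    simp only
    rw [finsum_sub_distrib (hsey n hn) (hsv n hn), (finsum_log hK _ hn.2.1.1).2, sub_zero]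
    unfold Pool.Agent.Helper30.TP.ht
    rw [mul_finsum]
  have hwG : ∀ n ∈ S, ∀ b, 0 ≤ G b + w n b := by
    intro n hn b
    have h1 : b.val (eval (y n) V) ≤ Pool.Agent.Helper30.TP.gs b V *
        Pool.Agent.Helper30.TP.nrm b (y n) ^ e :=
      Pool.Agent.Helper30.TP.low_val_eval_le b hV (y n)
    have hv : b.val (eval (y n) V) ≠ 0 := by simpa using hn.2.1.1
    have hgv : Pool.Agent.Helper30.TP.gs b V ≠ 0 := by
      intro h0
      rw [h0, zero_mul, le_zero_iff] at h1
      exact hv h1
    have hny := Pool.Agent.Helper30.TP.nrm_ne_zero (b := b) (hy0 n hn)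
    have h2 := (WithZero.log_le_log hv (mul_ne_zero hgv (pow_ne_zero _ hny))).2 h1
    rw [WithZero.log_mul hgv (pow_ne_zero _ hny), WithZero.log_pow, nsmul_eq_mul] at h2
    have h3 : WithZero.log (Pool.Agent.Helper30.TP.gs b V) ≤ G b := le_max_right _ _
    show 0 ≤ G b + (e * WithZero.log (Pool.Agent.Helper30.TP.nrm b (y n)) -
      WithZero.log (b.val (eval (y n) V)))
    omega
  -- the constant part
  set c₁ : Place k K → ℤ := fun b => W b + W b + G b + ∑ i ∈ Γ, |w i b| with hc₁
  have hc₁s : (Function.support c₁).Finite := by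
    have h1 : (Function.support fun b => ∑ i ∈ Γ, |w i b|).Finite := by
      refine Pool.Agent.Helper30.TP.sum_support_finite Γ (fun i (b : Place k K) => |w i b|)
        fun i hi => (hsw i (hΓS hi)).subset ?_
      intro b hb h0
      apply hb
      show |w i b| = 0
      rw [show w i b = 0 from h0, abs_zero]
    exact ((((hWs.union hWs).subset (Function.support_add _ _)).union hGs |>.subset
      (Function.support_add _ _)).union h1).subset (Function.support_add _ _)
  set K₁ : ℤ := ∑ i ∈ Γ, ∑ j ∈ Γ.erase i, ∑ᶠ b : Place k K,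
    Pool.Agent.Helper30.TP.cl b (y i) (y j) with hK₁
  have hkey : ∀ n ∈ S, n ∉ E → n ∉ Γ → Pool.Agent.Helper30.TP.ht k (y n) ≤
      ∑ᶠ b, c₁ b + K₁ + Cst - ∑ i ∈ Γ, Pool.Agent.Helper30.TP.ht k (y i) := by
    intro n hn hnE hnΓ
    have hin : ∀ i ∈ Γ, i ≠ n := fun i hi h => hnΓ (h ▸ hi)
    have hloc : ∀ b : Place k K, ∑ i ∈ Γ, Pool.Agent.Helper30.TP.cl b (y i) (y n) ≤
        c₁ b + w n b + ∑ i ∈ Γ, ∑ j ∈ Γ.erase i, Pool.Agent.Helper30.TP.cl b (y i) (y j) := by
      intro b
      have habs : ∀ i ∈ Γ, |w i b| ≤ ∑ i ∈ Γ, |w i b| := fun i hi =>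
        Finset.single_le_sum (f := fun i => |w i b|) (fun j _ => abs_nonneg _) hi
      have hsum0 : 0 ≤ ∑ i ∈ Γ, |w i b| := Finset.sum_nonneg fun i _ => abs_nonneg _
      refine Pool.Agent.Helper30.TP.sum_cl_le b Γ y (y n) (fun i hi => hy0 i (hΓS hi)) (hy0 n hn)
        (fun i hi => hyd i (hΓS hi) n hn (hin i hi))
        (fun i hi j hj hij => hyd i (hΓS hi) j (hΓS hj) hij) ?_ ?_
      · have h1 := hwG n hn b
        have h2 := hW0 b
        show 0 ≤ W b + W b + G b + ∑ i ∈ Γ, |w i b| + w n b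
        omega
      · intro i hi
        obtain ⟨z, hz⟩ := exists_red hK b x hx
        have hnp : ¬ PEq (iter F z i) (iter F z n) := by
          intro h
          rcases lt_or_gt_of_ne (hin i hi) with h1 | h1
          · exact hno b z hz ⟨i, n, h1, h⟩
          · exact hno b z hz ⟨n, i, h1, h.symm⟩
        have hm := exists_minor (Red.iter hF hz i) (Red.iter hF hz n) hnp
        have hyx : ∀ m, Pool.Agent.Helper30.TP.nrm b (y m) ≤ nrm b (iter F x m) := by
          intro m
          refine Pool.Agent.Helper30.TP.nrm_le fun j => ?_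
          fin_cases j
          · exact val_lin_le b a₀ _
          · exact val_lin_le b a₁ _
          · exact val_lin_le b a₂ _
        have h1 := cl_le_of_minor b (e := e) (V := V) (P := P) hP (hy0 i (hΓS hi)) (hy0 n hn)
          (hyx i) (hyx n) (hΓS hi).2.1.1 hn.2.1.1 (hΓS hi).2.1.2 hn.2.1.2
          (hyd i (hΓS hi) n hn (hin i hi)) (hWW b) hm
        refine h1.trans ?_
        have h2 := habs i hi
        have h3 := le_abs_self (w i b)
        have h4 := hG0 b
        show W b + W b + w i b + w n b ≤ W b + W b + G b + ∑ i ∈ Γ, |w i b| + w n b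
        omega
    -- sum over the places
    have hsupp1 : ∀ i ∈ Γ, (Function.support fun b : Place k K =>
        Pool.Agent.Helper30.TP.cl b (y i) (y n)).Finite := fun i hi =>
      Pool.Agent.Helper30.TP.cl_support hK (hy0 i (hΓS hi)) (hy0 n hn)
        (hyd i (hΓS hi) n hn (hin i hi))
    have hsupp3 : ∀ i ∈ Γ, ∀ j ∈ Γ.erase i, (Function.support fun b : Place k K =>
        Pool.Agent.Helper30.TP.cl b (y i) (y j)).Finite := fun i hi j hj =>
      Pool.Agent.Helper30.TP.cl_support hK (hy0 i (hΓS hi))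
        (hy0 j (hΓS (Finset.mem_of_mem_erase hj)))
        (hyd i (hΓS hi) j (hΓS (Finset.mem_of_mem_erase hj)) (Finset.ne_of_mem_erase hj).symm)
    have hs3 : ∀ i ∈ Γ, (Function.support fun b : Place k K => ∑ j ∈ Γ.erase i,
        Pool.Agent.Helper30.TP.cl b (y i) (y j)).Finite := fun i hi =>
      Pool.Agent.Helper30.TP.sum_support_finite _ _ (hsupp3 i hi)
    have hfs2 : (Function.support fun b => c₁ b + w n b).Finite :=
      (hc₁s.union (hsw n hn)).subset (Function.support_add _ _)
    have hfs3 := Pool.Agent.Helper30.TP.sum_support_finite Γ (fun i (b : Place k K) =>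
      ∑ j ∈ Γ.erase i, Pool.Agent.Helper30.TP.cl b (y i) (y j)) hs3
    have hglob : ∑ᶠ b : Place k K, ∑ i ∈ Γ, Pool.Agent.Helper30.TP.cl b (y i) (y n) ≤
        ∑ᶠ b : Place k K, (c₁ b + w n b +
          ∑ i ∈ Γ, ∑ j ∈ Γ.erase i, Pool.Agent.Helper30.TP.cl b (y i) (y j)) := by
      exact finsum_le_finsum' (Pool.Agent.Helper30.TP.sum_support_finite Γ _ hsupp1)
        ((hfs2.union hfs3).subset (Function.support_add _ _)) hloc
    rw [Pool.Agent.Helper30.TP.finsum_sum_swap Γ _ hsupp1, finsum_add_distrib hfs2 hfs3,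
      finsum_add_distrib hc₁s (hsw n hn), Pool.Agent.Helper30.TP.finsum_sum_swap _ _ hs3,
      hwsum n hn] at hglob
    have h4 : ∑ i ∈ Γ, ∑ᶠ b : Place k K, ∑ j ∈ Γ.erase i,
        Pool.Agent.Helper30.TP.cl b (y i) (y j) = K₁ := by
      rw [hK₁]
      exact Finset.sum_congr rfl fun i hi =>
        Pool.Agent.Helper30.TP.finsum_sum_swap _ _ (hsupp3 i hi)
    have h5 : ∑ i ∈ Γ, ∑ᶠ b : Place k K, Pool.Agent.Helper30.TP.cl b (y i) (y n) =
        ∑ i ∈ Γ, Pool.Agent.Helper30.TP.ht k (y i) +
          Γ.card * Pool.Agent.Helper30.TP.ht k (y n) -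
          ∑ i ∈ Γ, Pool.Agent.Helper30.TP.ht k (crossProduct (y i) (y n)) := by
      rw [← nsmul_eq_mul, ← Finset.sum_const, ← Finset.sum_add_distrib, ← Finset.sum_sub_distrib]
      exact Finset.sum_congr rfl fun i hi =>
        Pool.Agent.Helper30.TP.finsum_cl hK (hy0 i (hΓS hi)) (hy0 n hn)
          (hyd i (hΓS hi) n hn (hin i hi))
    have h9 := hlow n hn hnE
    rw [h4, h5] at hglob
    push_cast at h9
    nlinarith [hglob, h9]
  -- conclusion
  have hhy : ∀ n ∈ S, ht k (iter F x n) ≤ ∑ᶠ b, C b + Pool.Agent.Helper30.TP.ht k (y n) := by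
    intro n hn
    have h1 : ∀ b : Place k K, WithZero.log (nrm b (iter F x n)) ≤
        C b + WithZero.log (Pool.Agent.Helper30.TP.nrm b (y n)) := by
      intro b
      have hny := Pool.Agent.Helper30.TP.nrm_ne_zero (b := b) (hy0 n hn)
      have h2 : nrm b (iter F x n) ≤ WithZero.exp (C b) * Pool.Agent.Helper30.TP.nrm b (y n) := by
        refine nrm_le fun i => (hn.1 b i).trans (mul_le_mul_right (max_le ?_ ?_) _)
        · exact Pool.Agent.Helper30.TP.val_le_nrm b (y n) 0
        · exact Pool.Agent.Helper30.TP.val_le_nrm b (y n) 1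
      have h3 := (WithZero.log_le_log (nrm_ne_zero (hne n))
        (mul_ne_zero WithZero.exp_ne_zero hny)).2 h2
      rwa [WithZero.log_mul WithZero.exp_ne_zero hny, WithZero.log_exp] at h3
    have h4 : ht k (iter F x n) ≤ ∑ᶠ b : Place k K,
        (C b + WithZero.log (Pool.Agent.Helper30.TP.nrm b (y n))) := by
      unfold ht
      exact finsum_le_finsum' (nrm_support hK _ (hne n))
        ((hCs.union (hsy n hn)).subset (Function.support_add _ _)) h1
    rwa [finsum_add_distrib hCs (hsy n hn)] at h4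
  set B : ℤ := ∑ᶠ b, C b + (∑ᶠ b, c₁ b + K₁ + Cst - ∑ i ∈ Γ, Pool.Agent.Helper30.TP.ht k (y i))
    with hB
  obtain ⟨n, hnS, hn⟩ := (hSinf.sdiff ((hE.union Γ.finite_toSet).union
    (Set.finite_le_nat B.toNat))).nonempty
  rw [Set.mem_union, Set.mem_union, not_or, not_or] at hn
  have h1 := hkey n hnS hn.1.1 (fun h => hn.1.2 (Finset.mem_coe.2 h))
  have h2 := hhy n hnS
  have h3 := ht_iter_large hK hF hx hxc n
  have h4 : ¬ n ≤ B.toNat := hn.2
  have h5 : B ≤ B.toNat := Int.self_le_toNat B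
  omega

end

end Pool.Agent.Helper38.TQ
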