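import Pool.Agent.Helper38.TQ.Basic

/-!
# A linear relation with transcendental coefficients
-/

set_option autoImplicit false

namespace Pool.Agent.Helper38.TQ

open MvPolynomial

variable {ν : ℕ}

theorem exists_root {k : Type} [Field k] [Algebra k ℂ] {a : Fin (ν + 1) → ℂ} (ha : a ≠ 0)
    (hac : ¬ IsConst k a) :
    ∃ t : ℂ, t ∉ Set.range (algebraMap k ℂ) ∧ ∑ j : Fin (ν + 1), t ^ (j : ℕ) * a j = 0 := by
  classical
  by_contra hcon
  push Not at hcon
  apply hac
  set p : Polynomial ℂ := ∑ j : Fin (ν + 1), Polynomial.C (a j) * Polynomial.X ^ (j : ℕ) with hp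
  have hcoeff : ∀ j : Fin (ν + 1), p.coeff j = a j := by
    intro j
    rw [hp, Polynomial.finset_sum_coeff, Finset.sum_eq_single j]
    · rw [Polynomial.coeff_C_mul, Polynomial.coeff_X_pow, if_pos rfl, mul_one]
    · intro i _ hij
      rw [Polynomial.coeff_C_mul, Polynomial.coeff_X_pow, if_neg, mul_zero]
      intro h
      exact hij (Fin.ext h.symm)
    · intro h
      exact absurd (Finset.mem_univ j) h
  have hp0 : p ≠ 0 := by
    intro h
    apply ha
    funext j
    rw [← hcoeff j, h, Polynomial.coeff_zero]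
    rfl
  have hroots : ∀ t ∈ p.roots, t ∈ Set.range (algebraMap k ℂ) := by
    intro t ht
    by_contra h
    apply hcon t h
    have h1 := (Polynomial.mem_roots hp0).1 ht
    rw [Polynomial.IsRoot.def, hp, Polynomial.eval_finset_sum] at h1
    rw [← h1]
    refine Finset.sum_congr rfl fun j _ => ?_
    rw [Polynomial.eval_mul, Polynomial.eval_C, Polynomial.eval_pow, Polynomial.eval_X, mul_comm]
  have hlift : (p.roots.map fun t => Polynomial.X - Polynomial.C t).prod ∈
      Polynomial.lifts (algebraMap k ℂ) := by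
    apply Submonoid.multiset_prod_mem (Polynomial.lifts (algebraMap k ℂ)).toSubmonoid
    intro q hq
    obtain ⟨t, ht, rfl⟩ := Multiset.mem_map.1 hq
    obtain ⟨c, rfl⟩ := hroots t ht
    exact ⟨Polynomial.X - Polynomial.C c, by simp⟩
  obtain ⟨q, hq⟩ := hlift
  have hsplit := (IsAlgClosed.splits p).eq_prod_roots
  refine ⟨fun j => q.coeff j, p.leadingCoeff, Polynomial.leadingCoeff_ne_zero.2 hp0, ?_⟩
  funext j
  rw [← hcoeff j]
  conv_lhs => rw [hsplit]
  rw [Polynomial.coeff_C_mul, ← hq]
  congr 1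
  exact Polynomial.coeff_map (algebraMap k ℂ) (j : ℕ)

end Pool.Agent.Helper38.TQ
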