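import Pool.Agent.Helper38.TQ.Engine
import Pool.Agent.Helper38.TQ.CurveSet
import Pool.Agent.Helper38.TQ.Root
import Pool.Agent.Helper38.TQ.PreperC
import Pool.Agent.Helper38.TQ.NonCrit

/-!
# Complex points and curves in projective space
-/

set_option autoImplicit false

namespace Pool.Agent.Helper38.TQ

open MvPolynomial
open Pool.Agent.Helper16 (Place IsFunctionField)
open Pool.Agent.Helper36 (step iter iter_zero iter_succ iter_succ' iter_add iter_map)

variable {ν : ℕ}

/-- An infinite set of natural numbers belongs to a free ultrafilter. -/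
theorem exists_free {R : Set ℕ} (hR : R.Infinite) : ∃ U : Ultrafilter ℕ, Free U ∧ R ∈ U := by
  have hne : (Filter.cofinite ⊓ Filter.principal R : Filter ℕ).NeBot := by
    rw [Filter.inf_principal_neBot_iff]
    intro s hs
    have h1 : (sᶜ : Set ℕ).Finite := hs
    obtain ⟨n, hn, hn'⟩ := hR.exists_notMem_finite h1
    exact ⟨n, not_not.1 hn', hn⟩
  refine ⟨Ultrafilter.of (Filter.cofinite ⊓ Filter.principal R), ?_, ?_⟩
  · intro m
    have h1 : ∀ᶠ n in (Filter.cofinite : Filter ℕ), m ≤ n := by
      rw [Filter.eventually_cofinite]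
      refine (Set.finite_lt_nat m).subset ?_
      intro n hn
      exact not_le.1 hn
    exact ((Ultrafilter.of_le _).trans inf_le_left) h1
  · have h1 : R ∈ Filter.principal R := Filter.mem_principal_self R
    exact ((Ultrafilter.of_le _).trans inf_le_right) h1

/-- A linear relation between the coordinates holds for the reduction. -/
theorem lin_red {k K : Type} [Field k] [Field K] [Algebra k K] {b : Place k K}
    {x : Fin (ν + 1) → K} {z : Fin (ν + 1) → k} (h : Red b x z) {a : Fin (ν + 1) → k}
    (ha : lin a x = 0) : ∑ i, a i * z i = 0 := by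
  obtain ⟨-, c, -, h1⟩ := h
  by_contra hne
  have h2 : algebraMap k K (∑ i, a i * z i) =
      c * lin a x - ∑ i, algebraMap k K (a i) * (c * x i - algebraMap k K (z i)) := by
    unfold lin
    rw [map_sum, Finset.mul_sum, ← Finset.sum_sub_distrib]
    refine Finset.sum_congr rfl fun i _ => ?_
    rw [map_mul]
    ring
  rw [ha, mul_zero, zero_sub] at h2
  have h3 : b.val (algebraMap k K (∑ i, a i * z i)) < 1 := by
    rw [h2, Valuation.map_neg]
    refine b.val.map_sum_lt one_ne_zero fun i _ => ?_
    rw [map_mul, mul_comm]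
    exact mul_lt_one_of_lt_of_le (h1 i) (b.val_algebraMap_le _)
  rw [b.triv _ hne] at h3
  exact lt_irrefl _ h3

/-- A point over `k` does not satisfy the relation with the powers of a transcendental number. -/
theorem no_relation {k : Type} [Field k] [IsAlgClosed k] [Algebra k ℂ] {t : ℂ}
    (ht : t ∉ Set.range (algebraMap k ℂ)) {z : Fin (ν + 1) → ℂ} (hz : z ≠ 0)
    (hzc : IsConst k z) : ∑ j : Fin (ν + 1), t ^ (j : ℕ) * z j ≠ 0 := by
  intro h
  obtain ⟨w, c, hc, rfl⟩ := hzc
  set p : Polynomial k := ∑ j : Fin (ν + 1), Polynomial.C (w j) * Polynomial.X ^ (j : ℕ) with hp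
  have hcoeff : ∀ j : Fin (ν + 1), p.coeff j = w j := by
    intro j
    rw [hp, Polynomial.finset_sum_coeff, Finset.sum_eq_single j]
    · rw [Polynomial.coeff_C_mul, Polynomial.coeff_X_pow, if_pos rfl, mul_one]
    · intro i _ hij
      rw [Polynomial.coeff_C_mul, Polynomial.coeff_X_pow, if_neg, mul_zero]
      intro h
      exact hij (Fin.ext h.symm)
    · intro h
      exact absurd (Finset.mem_univ j) h
  have hp0 : p ≠ 0 := by
    intro h0
    apply hz
    funext j
    rw [← hcoeff j, h0, Polynomial.coeff_zero, map_zero, mul_zero]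
    rfl
  have halg : IsAlgebraic k t := by
    refine ⟨p, hp0, ?_⟩
    rw [hp, map_sum]
    have h1 : c * ∑ j : Fin (ν + 1), algebraMap k ℂ (w j) * t ^ (j : ℕ) = 0 := by
      rw [← h, Finset.mul_sum]
      refine Finset.sum_congr rfl fun j _ => ?_
      ring
    have h2 := (mul_eq_zero.1 h1).resolve_left hc
    rw [← h2]
    refine Finset.sum_congr rfl fun j _ => ?_
    rw [map_mul, Polynomial.aeval_C, map_pow, Polynomial.aeval_X]
  obtain ⟨a, ha⟩ := Pool.Agent.Helper30.TP.emb_mem_range halg
  exact ht ⟨a, ha⟩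

/-- The orbit of a point with coordinates in a subfield `K`, over `ℂ`. -/
theorem orbit_eq {k k' : Type} [Field k] [Field k'] [Algebra k k'] [Algebra k ℂ]
    [Algebra k' ℂ] [IsScalarTower k k' ℂ] {K : Type} [Field K] [Algebra k' K] [Algebra K ℂ]
    [IsScalarTower k' K ℂ] {d : ℕ}
    {F : Fin (ν + 1) → MvPolynomial (Fin (ν + 1)) k} (hF : IsEndo d F) (y : Fin (ν + 1) → K)
    (c : ℂ) (n : ℕ) :
    iter F (fun i => c * algebraMap K ℂ (y i)) n =
      c ^ d ^ n • fun i => algebraMap K ℂ
        (iter (fun i => MvPolynomial.map (algebraMap k k') (F i)) y n i) := by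
  have h2 : (fun i => c * algebraMap K ℂ (y i)) = c • fun i => algebraMap K ℂ (y i) := rfl
  rw [h2, iter_smul hF]
  congr 1
  have h1 := iter_map (fun i => MvPolynomial.map (algebraMap k k') (F i))
    (IsScalarTower.toAlgHom k' K ℂ) y n
  rw [iter_map_base] at h1
  exact h1

/-- **Curves.** If three coordinates of `a` satisfy no homogeneous relation over `k` then the orbit
of `a` meets every curve only finitely often. -/
theorem finite_return {k : Type} [Field k] [IsAlgClosed k] [Algebra k ℂ] {d : ℕ}
    {F : Fin (ν + 1) → MvPolynomial (Fin (ν + 1)) k} (hF : IsEndo d F) {a : Fin (ν + 1) → ℂ}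
    (i j l : Fin (ν + 1))
    (hind : ∀ (P : MvPolynomial (Fin 3) k) (e : ℕ), P.IsHomogeneous e →
      aeval ![a i, a j, a l] P = 0 → P = 0)
    {S : Set (MvPolynomial (Fin (ν + 1)) ℂ)} (hS : ∀ g ∈ S, ∃ e, g.IsHomogeneous e)
    (hcur : CurveSet S) :
    {n : ℕ | ∀ g ∈ S, eval (iter F a n) g = 0}.Finite := by
  classical
  by_contra hinf
  obtain ⟨U, hU, hRU⟩ := exists_free hinf
  have ha0 : a ≠ 0 := by
    rintro rfl
    have := hind (X 0) 1 (isHomogeneous_X _ _) (by simp)
    exact X_ne_zero _ this
  -- the transcendental parameter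
  obtain ⟨k₀, _, _, _, _, _, -, hk₀⟩ := exists_field_of_root a i j l hind 0
  have hac : ¬ IsConst k a := by
    rintro ⟨z, c, hc, h⟩
    apply hk₀
    refine ⟨fun i => algebraMap k k₀ (z i), c, hc, ?_⟩
    rw [h]
    funext i
    rw [← IsScalarTower.algebraMap_apply]
  obtain ⟨t, ht, hta⟩ := exists_root ha0 hac
  obtain ⟨k', _, _, _, _, _, htk, hak⟩ := exists_field_of_root a i j l hind t
  obtain ⟨i₀, hi₀⟩ := Function.ne_iff.1 ha0
  have hi₀' : a i₀ ≠ 0 := hi₀
  set v : Fin (ν + 1) → ℂ := (a i₀)⁻¹ • a with hv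
  have hv1 : v i₀ = 1 := by
    rw [hv, Pi.smul_apply, smul_eq_mul, inv_mul_cancel₀ hi₀']
  have hvc : ¬ IsConst k' v := by rwa [hv, isConst_smul (inv_ne_zero hi₀')]
  obtain ⟨k'', _, _, _, _, _, hvc', hK⟩ := exists_function_field v i₀ hv1 hvc
  have hchar : CharZero k'' := (algebraMap k'' ℂ).charZero
  set K := IntermediateField.adjoin k'' (Set.range v)
  let y : Fin (ν + 1) → K := fun i => ⟨v i, IntermediateField.subset_adjoin _ _ ⟨i, rfl⟩⟩
  have hyv : (fun i => algebraMap K ℂ (y i)) = v := rfl
  have hy0 : y ≠ 0 := by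
    intro h
    have h1 := congrArg (fun w : Fin (ν + 1) → K => algebraMap K ℂ (w i₀)) h
    simp only [Pi.zero_apply, map_zero] at h1
    have h2 : algebraMap K ℂ (y i₀) = v i₀ := rfl
    rw [h2, hv1] at h1
    exact one_ne_zero h1
  have hyc : ¬ IsConst k'' y := by
    rintro ⟨w, c, hc0, hw⟩
    apply hvc'
    refine ⟨w, algebraMap K ℂ c, by simpa using hc0, ?_⟩
    rw [← hyv, hw]
    funext i
    rw [map_mul, ← IsScalarTower.algebraMap_apply]
  have hF' := hF.map (k' := k')
  have hF'' := hF'.map (k' := k'')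
  -- the relation over `k''`
  obtain ⟨t', rfl⟩ := htk
  set α : Fin (ν + 1) → k'' := fun j => algebraMap k' k'' t' ^ (j : ℕ) with hα
  have hlin : lin α y = 0 := by
    apply (algebraMap K ℂ).injective
    unfold lin
    rw [map_sum, map_zero]
    have h1 : ∀ j, algebraMap K ℂ (algebraMap k'' K (α j) * y j) =
        (a i₀)⁻¹ * (algebraMap k' ℂ t' ^ (j : ℕ) * a j) := by
      intro j
      have h2 : algebraMap K ℂ (y j) = (a i₀)⁻¹ * a j := rfl
      rw [map_mul, h2, ← IsScalarTower.algebraMap_apply, hα]
      simp only [map_pow]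
      rw [← IsScalarTower.algebraMap_apply]
      ring
    rw [Finset.sum_congr rfl fun j _ => h1 j, ← Finset.mul_sum, hta, mul_zero]
  refine engine hK hF'' hy0 hyc ?_ hU ?_
  · -- no reduction is preperiodic
    intro b z hz hpre
    have hz0 := hz.1
    have hrel := lin_red hz hlin
    have hzC0 : (fun i => algebraMap k'' ℂ (z i)) ≠ 0 := by
      intro h
      apply hz0
      funext i
      have := congrFun h i
      simpa using this
    have hpreC : Preper F (fun i => algebraMap k'' ℂ (z i)) := by
      obtain ⟨n, m, hnm, c, hc, hp⟩ := hpre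
      refine ⟨n, m, hnm, algebraMap k'' ℂ c, by simpa using hc, ?_⟩
      have key : ∀ n, iter F (fun i => algebraMap k'' ℂ (z i)) n = fun i => algebraMap k'' ℂ
          (iter (fun i => MvPolynomial.map (algebraMap k' k'')
            (MvPolynomial.map (algebraMap k k') (F i))) z n i) := by
        intro n
        have h1 := iter_map (fun i => MvPolynomial.map (algebraMap k' k'')
            (MvPolynomial.map (algebraMap k k') (F i))) (IsScalarTower.toAlgHom k'' k'' ℂ) z n
        rw [iter_map_base, iter_map_base] at h1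
        exact h1
      rw [key, key, hp]
      funext i
      simp only [Pi.smul_apply, smul_eq_mul, map_mul]
    have hcst := isConst_of_preper_complex hF hzC0 hpreC
    apply no_relation ht hzC0 hcst
    have h1 := congrArg (algebraMap k'' ℂ) hrel
    rw [map_sum, map_zero] at h1
    rw [← h1]
    refine Finset.sum_congr rfl fun j _ => ?_
    rw [map_mul, hα]
    simp only [map_pow]
    rw [← IsScalarTower.algebraMap_apply]
  · -- the points lie on a curve
    refine hcur _ _ _ ?_
    have hRU' : ∀ᶠ n in (U : Filter ℕ), ∀ g ∈ S, eval (iter F a n) g = 0 := hRU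
    filter_upwards [hRU'] with n hn g hg
    obtain ⟨e, he⟩ := hS g hg
    have h3 := orbit_eq (k' := k') (K := ℂ) hF (fun i => a i) 1 n
    have h4 : iter F a n = (a i₀) ^ d ^ n • fun i => algebraMap K ℂ
        (iter (fun i => MvPolynomial.map (algebraMap k' k'')
            (MvPolynomial.map (algebraMap k k') (F i))) y n i) := by
      have h5 := orbit_eq (k := k') (k' := k'') (K := K) hF' y (a i₀) n
      rw [iter_map_base] at h5
      rw [← h5]
      congr 1
      funext i
      have h6 : algebraMap K ℂ (y i) = (a i₀)⁻¹ * a i := rfl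
      rw [h6, ← mul_assoc, mul_inv_cancel₀ hi₀', one_mul]
    have h5 := hn g hg
    rw [h4, eval_smul_hom he, mul_eq_zero] at h5
    exact h5.resolve_left (pow_ne_zero _ (pow_ne_zero _ hi₀'))

end Pool.Agent.Helper38.TQ
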