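import Pool.Agent.Helper38.TQ.Engine
import Pool.Agent.Helper30.TK.Trunc

/-!
# Truncated contacts of the points of a curve in projective space over a function field
-/

set_option autoImplicit false

namespace Pool.Agent.Helper38.TQ

open MvPolynomial
open Pool.Agent.Helper16 (Place IsFunctionField)

variable {ν : ℕ}

variable {k K : Type} [Field k] [IsAlgClosed k] [Field K] [Algebra k K]

/-- The points have the same reduction at the place. -/
def Same (b : Place k K) (x y : Fin (ν + 1) → K) : Prop :=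
  ∃ z w : Fin (ν + 1) → k, Red b x z ∧ Red b y w ∧ PEq z w

/-- No binary relation between the two dominating linear forms. -/
theorem no_binary_seq (hK : IsFunctionField k K) {x : ℕ → Fin (ν + 1) → K} (hx : ∀ n, x n ≠ 0)
    {U : Ultrafilter ℕ} (hht : ∀ B : ℤ, ∀ᶠ n in (U : Filter ℕ), B < ht k (x n))
    {a₀ a₁ : Fin (ν + 1) → k} {C : Place k K → ℤ}
    (hCs : (Function.support C).Finite)
    (hdom : ∀ᶠ n in (U : Filter ℕ), ∀ (b : Place k K) (i : Fin (ν + 1)),
      b.val (x n i) ≤ WithZero.exp (C b) *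
        max (b.val (lin a₀ (x n))) (b.val (lin a₁ (x n))))
    (P : MvPolynomial (Fin 2) K) (e : ℕ) (hP : P.IsHomogeneous e) (hP0 : P ≠ 0) :
    ¬ ∀ᶠ n in (U : Filter ℕ), eval ![lin a₀ (x n), lin a₁ (x n)] P = 0 := by
  intro h
  have : Infinite k := IsAlgClosed.instInfinite
  have : Infinite K := Infinite.of_injective (algebraMap k K) (algebraMap k K).injective
  obtain ⟨ρ, hρ, hc⟩ := exists_point_of_binary hP hP0 h
  have hρs := nrm_support (ν := 1) hK ρ hρ
  set B : ℤ := ∑ᶠ b : Place k K, C b + ht k (ν := 1) ρ with hB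
  obtain ⟨n, ⟨hn1, c, hn2, hn3⟩, hn4⟩ := ((hdom.and hc).and (hht (max B 0))).exists
  have hxn := hx n
  have hb : ∀ b : Place k K, nrm b (x n) ≤
      WithZero.exp (C b) * (b.val c * nrm (ν := 1) b ρ) := by
    intro b
    refine nrm_le fun i => (hn1 b i).trans ?_
    refine mul_le_mul_right ?_ _
    rw [hn2, hn3, map_mul, map_mul]
    refine max_le ?_ ?_
    · exact mul_le_mul_right (val_le_nrm (ν := 1) b ρ 0) _
    · exact mul_le_mul_right (val_le_nrm (ν := 1) b ρ 1) _
  by_cases hne : Nonempty (Place k K)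
  · obtain ⟨b₀⟩ := hne
    have hc0 : c ≠ 0 := by
      rintro rfl
      have h1 := hb b₀
      rw [map_zero, zero_mul, mul_zero, le_zero_iff] at h1
      exact nrm_ne_zero hxn h1
    have hlog : ∀ b : Place k K, WithZero.log (nrm b (x n)) ≤
        C b + WithZero.log (b.val c) + WithZero.log (nrm (ν := 1) b ρ) := by
      intro b
      have hvc : b.val c ≠ 0 := by simpa using hc0
      have h1 := (WithZero.log_le_log (nrm_ne_zero hxn) (mul_ne_zero WithZero.exp_ne_zero
        (mul_ne_zero hvc (nrm_ne_zero hρ)))).2 (hb b)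
      rw [WithZero.log_mul WithZero.exp_ne_zero (mul_ne_zero hvc (nrm_ne_zero hρ)),
        WithZero.log_mul hvc (nrm_ne_zero hρ), WithZero.log_exp] at h1
      omega
    have hcs := finsum_log hK c hc0
    have h5 : ht k (x n) ≤ ∑ᶠ b : Place k K,
        (C b + WithZero.log (b.val c) + WithZero.log (nrm (ν := 1) b ρ)) := by
      unfold ht
      exact finsum_le_finsum' (nrm_support hK _ hxn)
        (((hCs.union hcs.1).subset (Function.support_add _ _)).union hρs |>.subset
          (Function.support_add _ _)) hlog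
    rw [finsum_add_distrib ((hCs.union hcs.1).subset (Function.support_add _ _)) hρs,
      finsum_add_distrib hCs hcs.1, hcs.2, add_zero] at h5
    have h6 : ht k (x n) ≤ B := h5
    have h7 : B ≤ max B 0 := le_max_left _ _
    omega
  · have h8 : ht k (x n) = 0 := by
      rw [not_nonempty_iff] at hne
      exact finsum_of_isEmpty _
    have h7 : 0 ≤ max B 0 := le_max_right _ _
    omega

theorem space_trunc [CharZero k] [CharZero K] (hK : IsFunctionField k K)
    {x : ℕ → Fin (ν + 1) → K} (hx : ∀ n, x n ≠ 0) (hnp : ∀ n m, n ≠ m → ¬ PEq (x n) (x m))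
    {U : Ultrafilter ℕ} (hU : Free U) (hht : ∀ B : ℤ, {n | ht k (x n) ≤ B}.Finite)
    (hcurve : OnCurve U x) (N : ℕ) :
    ∃ (S : Set ℕ) (Γ : Finset ℕ) (C : ℤ), S.Infinite ∧ ∀ n ∈ S, n ∉ Γ ∧
      ∃ T : Finset (Place k K), (∀ b ∈ T, ∃ i ∈ Γ, Same b (x i) (x n)) ∧
        (N : ℤ) * ht k (x n) ≤ T.card + C := by
  classical
  have : Infinite k := IsAlgClosed.instInfinite
  obtain ⟨a₀, a₁, C, hC0, hCs, hdom⟩ := exists_two_forms hK hcurve
  have hhtU : ∀ B : ℤ, ∀ᶠ n in (U : Filter ℕ), B < ht k (x n) := by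
    intro B
    obtain ⟨M, hM⟩ := (hht B).bddAbove
    filter_upwards [hU (M + 1)] with n hn
    by_contra hcon
    have := hM (show n ∈ {n | ht k (x n) ≤ B} from not_lt.1 hcon)
    omega
  have htr := fun P e hP hP0 => no_binary_seq hK hx hhtU (a₀ := a₀) (a₁ := a₁) hCs hdom P e hP hP0
  obtain ⟨a₂, e, V, P, hV, hP, hVP⟩ := exists_third_form hcurve a₀ a₁ htr
  set y : ℕ → Fin 3 → K := fun n =>
    ![lin a₀ (x n), lin a₁ (x n), lin a₂ (x n)] with hy
  obtain ⟨Q, eQ, hQ, hQ0, hQv⟩ := hcurve fun j => ![fun i => algebraMap k K (a₀ i),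
    fun i => algebraMap k K (a₁ i), fun i => algebraMap k K (a₂ i)] j
  have hQv' : ∀ᶠ n in (U : Filter ℕ), eval (y n) Q = 0 := by
    filter_upwards [hQv] with n hn
    have h1 : (fun j : Fin 3 => ∑ i, (![fun i => algebraMap k K (a₀ i),
        fun i => algebraMap k K (a₁ i), fun i => algebraMap k K (a₂ i)] :
          Fin 3 → Fin (ν + 1) → K) j i * x n i) = y n := by
      funext j
      fin_cases j <;> rfl
    rwa [h1] at hn
  obtain ⟨D, g, hg, hgi, hgv⟩ := exists_irreducible_form hQ hQ0 hQv'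
  -- the set of times
  set S : Set ℕ := {n | (∀ (b : Place k K) (i : Fin (ν + 1)),
      b.val (x n i) ≤ WithZero.exp (C b) *
        max (b.val (lin a₀ (x n))) (b.val (lin a₁ (x n)))) ∧
      (eval (y n) V ≠ 0 ∧ ∀ j, x n j * eval (y n) V = eval (y n) (P j)) ∧
      eval (y n) g = 0} with hS
  have hSU : S ∈ U := by
    filter_upwards [hdom, hVP, hgv] with n h1 h2 h3
    exact ⟨h1, h2, h3⟩
  have hSinf : S.Infinite := by
    intro hfin
    obtain ⟨n, hn1, hn2⟩ := Pool.Agent.Helper30.TP.ultra_exists_notMem hU hfin hSU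
    exact hn2 hn1
  have hy0 : ∀ n ∈ S, y n ≠ 0 := by
    intro n hn h0
    apply hx n
    funext j
    have h1 := hn.2.1.2 j
    rw [h0] at h1
    have h2 : eval (0 : Fin 3 → K) (P j) = 0 := by
      have h3 := Pool.Agent.Helper30.TP.eval_smul_hom (hP j) (0 : K) (0 : Fin 3 → K)
      rwa [zero_smul, zero_pow (Nat.succ_ne_zero e), zero_mul] at h3
    rw [h2, mul_eq_zero] at h1
    refine h1.resolve_right ?_
    have := hn.2.1.1
    rwa [h0] at this
  have hyd : ∀ n ∈ S, ∀ n' ∈ S, n ≠ n' → ¬ Pool.Agent.Helper30.TP.PEq (y n) (y n') := by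
    intro n hn n' hn' hnn h
    apply hnp n n' hnn
    obtain ⟨c, hc, h⟩ := h
    refine ⟨c, hc, funext fun j => ?_⟩
    have h1 := hn'.2.1.2 j
    have h2 := hn'.2.1.1
    rw [h, Pool.Agent.Helper30.TP.eval_smul_hom (hP j), Pool.Agent.Helper30.TP.eval_smul_hom hV,
      ← hn.2.1.2 j] at h1
    have h3 := hn.2.1.1
    have h4 : c ^ e * eval (y n) V ≠ 0 := mul_ne_zero (pow_ne_zero _ hc) h3
    apply mul_right_cancel₀ h4
    rw [h1, Pi.smul_apply, smul_eq_mul]
    ring
  -- comparison of heights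
  have hsy : ∀ n ∈ S, (Function.support fun b : Place k K =>
      WithZero.log (Pool.Agent.Helper30.TP.nrm b (y n))).Finite := fun n hn =>
    Pool.Agent.Helper30.TP.nrm_support hK _ (hy0 n hn)
  have hhy : ∀ n ∈ S, ht k (x n) ≤ ∑ᶠ b, C b + Pool.Agent.Helper30.TP.ht k (y n) := by
    intro n hn
    have h1 : ∀ b : Place k K, WithZero.log (nrm b (x n)) ≤
        C b + WithZero.log (Pool.Agent.Helper30.TP.nrm b (y n)) := by
      intro b
      have hny := Pool.Agent.Helper30.TP.nrm_ne_zero (b := b) (hy0 n hn)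
      have h2 : nrm b (x n) ≤ WithZero.exp (C b) * Pool.Agent.Helper30.TP.nrm b (y n) := by
        refine nrm_le fun i => (hn.1 b i).trans (mul_le_mul_right (max_le ?_ ?_) _)
        · exact Pool.Agent.Helper30.TP.val_le_nrm b (y n) 0
        · exact Pool.Agent.Helper30.TP.val_le_nrm b (y n) 1
      have h3 := (WithZero.log_le_log (nrm_ne_zero (hx n))
        (mul_ne_zero WithZero.exp_ne_zero hny)).2 h2
      rwa [WithZero.log_mul WithZero.exp_ne_zero hny, WithZero.log_exp] at h3
    have h4 : ht k (x n) ≤ ∑ᶠ b : Place k K,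
        (C b + WithZero.log (Pool.Agent.Helper30.TP.nrm b (y n))) := by
      unfold ht
      exact finsum_le_finsum' (nrm_support hK _ (hx n))
        ((hCs.union (hsy n hn)).subset (Function.support_add _ _)) h1
    rwa [finsum_add_distrib hCs (hsy n hn)] at h4
  have hhty : ∀ B : ℤ, {n | n ∈ S ∧ Pool.Agent.Helper30.TP.ht k (y n) ≤ B}.Finite := by
    intro B
    refine (hht (∑ᶠ b, C b + B)).subset ?_
    rintro n ⟨hn, h⟩
    exact (hhy n hn).trans (by omega)
  obtain ⟨S', Γ, Cst, hS'S, hS'inf, hΓS, htrunc⟩ := Pool.Agent.Helper30.TK.trunc hK hSinf hy0 hyd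
    hg hgi (fun n hn => hn.2.2) hhty (N + e)
  -- the constants
  set W : Place k K → ℤ := fun b => ∑ j, max 0 (WithZero.log (Pool.Agent.Helper30.TP.gs b (P j)))
    with hWdef
  have hgs_le : ∀ (b : Place k K) (j : Fin (ν + 1)),
      Pool.Agent.Helper30.TP.gs b (P j) ≤ WithZero.exp (W b) := by
    intro b j
    by_cases h0 : Pool.Agent.Helper30.TP.gs b (P j) = 0
    · rw [h0]; exact zero_le
    rw [← WithZero.log_le_log h0 WithZero.exp_ne_zero, WithZero.log_exp]
    refine (le_max_right 0 _).trans ?_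
    exact Finset.single_le_sum
      (f := fun j => max 0 (WithZero.log (Pool.Agent.Helper30.TP.gs b (P j))))
      (fun j _ => le_max_left _ _) (Finset.mem_univ j)
  have hgssupp : ∀ R : MvPolynomial (Fin 3) K, (Function.support fun b : Place k K =>
      max 0 (WithZero.log (Pool.Agent.Helper30.TP.gs b R))).Finite := by
    intro R
    by_cases h0 : R = 0
    · rw [h0]
      simp [Pool.Agent.Helper30.TP.formHeight_zero]
    · refine (Pool.Agent.Helper30.TP.formHeight_support hK h0).subset ?_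
      intro b hb h1
      apply hb
      show max 0 _ = (0 : ℤ)
      have h2 : WithZero.log (Pool.Agent.Helper30.TP.gs b R) = 0 := h1
      rw [h2, max_self]
  have hWs : (Function.support W).Finite :=
    Pool.Agent.Helper30.TP.sum_support_finite Finset.univ
      (fun j (b : Place k K) => max 0 (WithZero.log (Pool.Agent.Helper30.TP.gs b (P j))))
      (fun j _ => hgssupp (P j))
  have hWW : ∀ (b : Place k K) (p q : Fin (ν + 1)),
      Pool.Agent.Helper30.TP.gs b (P p) * Pool.Agent.Helper30.TP.gs b (P q) ≤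
        WithZero.exp (W b + W b) := by
    intro b p q
    rw [WithZero.exp_add]
    exact mul_le_mul' (hgs_le b p) (hgs_le b q)
  set w : ℕ → Place k K → ℤ := fun n b =>
    e * WithZero.log (Pool.Agent.Helper30.TP.nrm b (y n)) - WithZero.log (b.val (eval (y n) V))
    with hw
  set G : Place k K → ℤ := fun b => max 0 (WithZero.log (Pool.Agent.Helper30.TP.gs b V)) with hG
  have hGs : (Function.support G).Finite := hgssupp V
  have hsv : ∀ n ∈ S, (Function.support fun b : Place k K =>
      WithZero.log (b.val (eval (y n) V))).Finite := fun n hn => (finsum_log hK _ hn.2.1.1).1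
  have hsey : ∀ n ∈ S, (Function.support fun b : Place k K =>
      (e : ℤ) * WithZero.log (Pool.Agent.Helper30.TP.nrm b (y n))).Finite := by
    intro n hn
    refine (hsy n hn).subset ?_
    intro b hb h0
    apply hb
    show (e : ℤ) * WithZero.log (Pool.Agent.Helper30.TP.nrm b (y n)) = 0
    have h1 : WithZero.log (Pool.Agent.Helper30.TP.nrm b (y n)) = 0 := h0
    rw [h1, mul_zero]
  have hsw : ∀ n ∈ S, (Function.support (w n)).Finite := fun n hn =>
    ((hsey n hn).union (hsv n hn)).subset (Function.support_sub _ _)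
  have hwsum : ∀ n ∈ S, ∑ᶠ b, w n b = e * Pool.Agent.Helper30.TP.ht k (y n) := by
    intro n hn
    rw [hw]
    simp only
    rw [finsum_sub_distrib (hsey n hn) (hsv n hn), (finsum_log hK _ hn.2.1.1).2, sub_zero]
    unfold Pool.Agent.Helper30.TP.ht
    rw [mul_finsum]
  have hwG : ∀ n ∈ S, ∀ b, 0 ≤ w n b + G b := by
    intro n hn b
    have h1 : b.val (eval (y n) V) ≤ Pool.Agent.Helper30.TP.gs b V *
        Pool.Agent.Helper30.TP.nrm b (y n) ^ e :=
      Pool.Agent.Helper30.TP.low_val_eval_le b hV (y n)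
    have hv : b.val (eval (y n) V) ≠ 0 := by simpa using hn.2.1.1
    have hgv : Pool.Agent.Helper30.TP.gs b V ≠ 0 := by
      intro h0
      rw [h0, zero_mul, le_zero_iff] at h1
      exact hv h1
    have hny := Pool.Agent.Helper30.TP.nrm_ne_zero (b := b) (hy0 n hn)
    have h2 := (WithZero.log_le_log hv (mul_ne_zero hgv (pow_ne_zero _ hny))).2 h1
    rw [WithZero.log_mul hgv (pow_ne_zero _ hny), WithZero.log_pow, nsmul_eq_mul] at h2
    have h3 : WithZero.log (Pool.Agent.Helper30.TP.gs b V) ≤ G b := le_max_right _ _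
    show 0 ≤ (e * WithZero.log (Pool.Agent.Helper30.TP.nrm b (y n)) -
      WithZero.log (b.val (eval (y n) V))) + G b
    omega
  -- the exceptional places
  have hB0 : (Function.support W ∪ ⋃ i ∈ Γ, Function.support (w i)).Finite :=
    hWs.union (Set.Finite.biUnion (Finset.finite_toSet Γ) fun i hi => hsw i (hΓS hi))
  refine ⟨S', Γ, Cst + hB0.toFinset.card + ∑ᶠ b, G b + N * ∑ᶠ b, C b, hS'inf, fun n hn => ?_⟩
  have hnS := hS'S hn
  obtain ⟨hnΓ, hineq⟩ := htrunc n hn
  refine ⟨hnΓ, ?_⟩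
  have hin : ∀ i ∈ Γ, i ≠ n := fun i hi h => hnΓ (h ▸ hi)
  have hBfin : {b : Place k K | ∃ i ∈ Γ, 0 < Pool.Agent.Helper30.TP.cl b (y i) (y n)}.Finite := by
    refine ((Finset.finite_toSet Γ).biUnion fun i hi => Pool.Agent.Helper30.TP.cl_support hK
      (hy0 i (hΓS hi)) (hy0 n hnS) (hyd i (hΓS hi) n hnS (hin i hi))).subset ?_
    rintro b ⟨i, hi, hpos⟩
    rw [Set.mem_iUnion₂]
    exact ⟨i, hi, hpos.ne'⟩
  have hyx : ∀ (m : ℕ) (b : Place k K), Pool.Agent.Helper30.TP.nrm b (y m) ≤ nrm b (x m) := by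
    intro m b
    refine Pool.Agent.Helper30.TP.nrm_le fun j => ?_
    fin_cases j
    · exact val_lin_le b a₀ _
    · exact val_lin_le b a₁ _
    · exact val_lin_le b a₂ _
  refine ⟨hBfin.toFinset.filter fun b => ∃ i ∈ Γ, Same b (x i) (x n), fun b hb =>
    (Finset.mem_filter.1 hb).2, ?_⟩
  -- the other places
  have hsupp : (Function.support fun b => w n b + G b).Finite :=
    ((hsw n hnS).union hGs).subset (Function.support_add _ _)
  have hcount : ((hBfin.toFinset.filter fun b => ¬ ∃ i ∈ Γ, Same b (x i) (x n)).card : ℤ) ≤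
      hB0.toFinset.card + (e * Pool.Agent.Helper30.TP.ht k (y n) + ∑ᶠ b, G b) := by
    have h1 : hBfin.toFinset.filter (fun b => ¬ ∃ i ∈ Γ, Same b (x i) (x n)) ⊆
        hB0.toFinset ∪ hsupp.toFinset.filter fun b => 1 ≤ w n b + G b := by
      intro b hb
      obtain ⟨hb1, hb2⟩ := Finset.mem_filter.1 hb
      rw [Set.Finite.mem_toFinset] at hb1
      obtain ⟨i, hi, hpos⟩ := hb1
      rw [Finset.mem_union, Set.Finite.mem_toFinset, Finset.mem_filter, Set.Finite.mem_toFinset]
      by_cases hb3 : b ∈ Function.support W ∪ ⋃ i ∈ Γ, Function.support (w i)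
      · exact Or.inl hb3
      right
      rw [Set.mem_union, not_or] at hb3
      have hW0 : W b = 0 := by
        by_contra h; exact hb3.1 h
      have hw0 : w i b = 0 := by
        by_contra h
        exact hb3.2 (Set.mem_iUnion₂.2 ⟨i, hi, h⟩)
      have hm : ∃ p q, b.val (x i p * x n q - x i q * x n p) = nrm b (x i) * nrm b (x n) := by
        obtain ⟨z, hz⟩ := exists_red hK b (x i) (hx i)
        obtain ⟨z', hz'⟩ := exists_red hK b (x n) (hx n)
        exact exists_minor hz hz' fun h => hb2 ⟨i, hi, z, z', hz, hz', h⟩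
      have h2 := cl_le_of_minor b (e := e) (V := V) (P := P) hP (hy0 i (hΓS hi)) (hy0 n hnS)
        (hyx i b) (hyx n b) (hΓS hi).2.1.1 hnS.2.1.1 (hΓS hi).2.1.2 hnS.2.1.2
        (hyd i (hΓS hi) n hnS (hin i hi)) (hWW b) hm
      have h3 : Pool.Agent.Helper30.TP.cl b (y i) (y n) ≤ W b + W b + w i b + w n b := h2
      have h4 : 0 ≤ G b := le_max_left _ _
      have h5 : 1 ≤ w n b + G b := by omega
      exact ⟨fun h => by
        have h6 : w n b + G b = 0 := h
        omega, h5⟩
    have h2 := Finset.card_le_card h1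
    have h3 := h2.trans (Finset.card_union_le _ _)
    have h4 : (((hsupp.toFinset.filter fun b => 1 ≤ w n b + G b).card : ℕ) : ℤ) ≤
        ∑ b ∈ hsupp.toFinset, (w n b + G b) := by
      rw [Finset.card_eq_sum_ones, Nat.cast_sum]
      calc ∑ b ∈ hsupp.toFinset.filter (fun b => 1 ≤ w n b + G b), ((1 : ℕ) : ℤ) ≤
          ∑ b ∈ hsupp.toFinset.filter (fun b => 1 ≤ w n b + G b), (w n b + G b) := by
            refine Finset.sum_le_sum fun b hb => ?_
            exact_mod_cast (Finset.mem_filter.1 hb).2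
        _ ≤ ∑ b ∈ hsupp.toFinset, (w n b + G b) :=
            Finset.sum_le_sum_of_subset_of_nonneg (Finset.filter_subset _ _)
              fun b _ _ => hwG n hnS b
    have h5 : ∑ b ∈ hsupp.toFinset, (w n b + G b) = ∑ᶠ b, (w n b + G b) := by
      rw [finsum_eq_sum_of_support_toFinset_subset _ hsupp (Finset.Subset.refl _)]
    rw [h5, finsum_add_distrib (hsw n hnS) hGs, hwsum n hnS] at h4
    have h6 : (((hBfin.toFinset.filter fun b => ¬ ∃ i ∈ Γ, Same b (x i) (x n)).card : ℕ) : ℤ) ≤
        (hB0.toFinset.card : ℤ) +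
          ((hsupp.toFinset.filter fun b => 1 ≤ w n b + G b).card : ℤ) := by
      exact_mod_cast h3
    omega
  have hcard : (({b : Place k K | ∃ i ∈ Γ, 0 < Pool.Agent.Helper30.TP.cl b (y i) (y n)}.ncard :
      ℕ) : ℤ) = ((hBfin.toFinset.filter fun b => ∃ i ∈ Γ, Same b (x i) (x n)).card : ℤ) +
        ((hBfin.toFinset.filter fun b => ¬ ∃ i ∈ Γ, Same b (x i) (x n)).card : ℤ) := by
    rw [Set.ncard_eq_toFinset_card _ hBfin]
    exact_mod_cast (Finset.card_filter_add_card_filter_not (s := hBfin.toFinset)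
      (fun b => ∃ i ∈ Γ, Same b (x i) (x n))).symm
  rw [hcard] at hineq
  have h7 := hhy n hnS
  have hN : (0 : ℤ) ≤ N := Int.natCast_nonneg N
  have h8 : (N : ℤ) * ht k (x n) ≤ N * (∑ᶠ b, C b + Pool.Agent.Helper30.TP.ht k (y n)) :=
    mul_le_mul_of_nonneg_left h7 hN
  push_cast at hineq
  nlinarith [hineq, hcount, h8]

end Pool.Agent.Helper38.TQ
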